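import Pool.Agent.Helper13K9.BL.Dil

/-!
# Relations which are affine in some of the variables, all coefficients at once
-/

set_option autoImplicit false

namespace Pool.Agent.Helper13K9.BL

open Module Finset Matrix
open Pool.Agent.W254.PA (Hyp)
open Pool.Agent.TH910.LR
open Pool.Agent.H301R2.SSE (QB mem_QB Lt Lt_rep Lt_mul Lt_alg Lt_log)

section abstract

variable {κ E : Type*} [Field κ] [Field E] [Algebra κ E]

/-- the elements of `B` which occur in a vector -/
noncomputable def supB {B : Type*} {d : ℕ} (a : Fin d → (Option B →₀ κ)) : Finset B :=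
  open Classical in Finset.eraseNone (Finset.univ.biUnion fun i => (a i).support)

theorem mem_supB {B : Type*} {d : ℕ} {a : Fin d → (Option B →₀ κ)} {b : B} :
    b ∈ supB a ↔ ∃ i, a i (some b) ≠ 0 := by
  classical
  rw [supB, Finset.mem_eraseNone, Finset.mem_biUnion]
  simp

/-- **Relations with few terms involve few elements.** -/

theorem few_support {L : Submodule κ E} (hL : Hyp L) {B : Type*} (w : Option B → E)
    (hw : LinearIndependent κ w) (hwL : ∀ b, w b ∈ L) {d : ℕ} (x : Fin d → E)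
    (hx : LinearIndependent κ x) (r : ℕ) :
    ∃ U : Finset B, U.card ≤ r * (d * (d - 1)) ∧ ∀ a : Fin d → (Option B →₀ κ),
      ∑ i, x i * Finsupp.linearCombination κ w (a i) = 0 → (supB a).card ≤ r → supB a ⊆ U := by
  classical
  let φ : (Fin d → (Option B →₀ κ)) →ₗ[κ] (Fin d → E) :=
    LinearMap.pi fun i => (Finsupp.linearCombination κ w).comp (LinearMap.proj i)
  have hφ : LinearMap.ker φ = ⊥ := by
    rw [LinearMap.ker_eq_bot]
    intro a a' h
    funext i
    exact hw (congrFun h i)
  let A : Set (Fin d → (Option B →₀ κ)) :=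
    {a | ∑ i, x i * Finsupp.linearCombination κ w (a i) = 0 ∧ (supB a).card ≤ r}
  obtain ⟨b, hbA, hspan, hli⟩ := exists_linearIndependent κ A
  have hcard : ∀ t : Finset (Fin d → (Option B →₀ κ)), (t : Set _) ⊆ b →
      t.card ≤ d * (d - 1) := by
    intro t ht
    obtain ⟨e⟩ : Nonempty (Fin t.card ≃ t) := ⟨t.equivFin.symm⟩
    obtain ⟨ψ, hψ⟩ : ∃ ψ : Fin t.card → b, ∀ j, (ψ j : Fin d → (Option B →₀ κ)) = e j :=
      ⟨fun j => ⟨(e j : _), ht (e j).2⟩, fun j => rfl⟩
    have hinj : Function.Injective ψ := by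
      intro j j' h
      apply e.injective
      apply Subtype.ext
      rw [← hψ, ← hψ, h]
    have h1 : LinearIndependent κ (fun j => (ψ j : Fin d → (Option B →₀ κ))) := hli.comp ψ hinj
    have h2 : LinearIndependent κ (fun j => φ (ψ j : Fin d → (Option B →₀ κ))) := h1.map' φ hφ
    have hval : ∀ (a : Fin d → (Option B →₀ κ)) (i : Fin d),
        φ a i = Finsupp.linearCombination κ w (a i) := fun a i => rfl
    obtain ⟨M, hM⟩ : ∃ M : Fin d → Fin t.card → E, ∀ i j, M i j = φ (ψ j) i :=
      ⟨fun i j => φ (ψ j) i, fun _ _ => rfl⟩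
    refine hL d t.card x M hx ?_ ?_ ?_
    · intro i j
      rw [hM, hval, Finsupp.linearCombination_apply]
      apply Submodule.sum_mem
      intro q _
      exact L.smul_mem _ (hwL q)
    · intro j
      have h3 : (ψ j : Fin d → (Option B →₀ κ)) ∈ A := hbA (ψ j).2
      rw [← h3.1]
      apply Finset.sum_congr rfl
      intro i _
      rw [hM, hval]
    · have h3 : (fun j i => M i j) = fun j => φ (ψ j : Fin d → (Option B →₀ κ)) := by
        funext j i
        exact hM i j
      rw [h3]
      exact h2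
  have hbfin : b.Finite := by
    by_contra hinf
    obtain ⟨t, ht1, ht2⟩ := Set.Infinite.exists_subset_card_eq hinf (d * (d - 1) + 1)
    have := hcard t ht1
    omega
  refine ⟨hbfin.toFinset.biUnion supB, ?_, ?_⟩
  · refine (Finset.card_biUnion_le_card_mul _ _ r fun a ha => ?_).trans ?_
    · rw [Set.Finite.mem_toFinset] at ha
      exact (hbA ha).2
    · rw [mul_comm]
      exact Nat.mul_le_mul_left _ (hcard _ (by simp))
  · intro a ha1 ha2 q hq
    by_contra hqU
    obtain ⟨i, hi⟩ := mem_supB.1 hq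
    apply hi
    have haA : a ∈ Submodule.span κ b := by
      rw [hspan]
      exact Submodule.subset_span ⟨ha1, ha2⟩
    have h3 : ∀ a' ∈ Submodule.span κ b, a' i (some q) = 0 := by
      intro a' ha'
      induction ha' using Submodule.span_induction with
      | mem v hv =>
        by_contra hne
        apply hqU
        rw [Finset.mem_biUnion]
        exact ⟨v, by rw [Set.Finite.mem_toFinset]; exact hv, mem_supB.2 ⟨i, hne⟩⟩
      | zero => rfl
      | add v v' _ _ hv hv' => rw [Pi.add_apply, Finsupp.add_apply, hv, hv', add_zero]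
      | smul c v _ hv => rw [Pi.smul_apply, Finsupp.smul_apply, hv, smul_zero]
    exact h3 a haA

/-- **Relations with coefficients in a space of dimension at most `D`.** -/
theorem few_members {L : Submodule κ E} (hL : Hyp L) {B : Type*} (w : Option B → E)
    (hw : LinearIndependent κ w) (hwL : ∀ b, w b ∈ L) {D : ℕ} (g : Fin D → E) (r : ℕ) :
    ∃ U : Finset B, U.card ≤ r * (D * (D - 1)) ∧ ∀ (y : Fin r → B), Function.Injective y →
      ∀ (t₀ : E) (t : Fin r → E), t₀ ∈ Submodule.span κ (Set.range g) →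
        (∀ i, t i ∈ Submodule.span κ (Set.range g)) → (∀ i, t i ≠ 0) →
        t₀ * w none + ∑ i, t i * w (some (y i)) = 0 → ∀ i, y i ∈ U := by
  classical
  obtain ⟨d, x, P, hdD, hx, hg⟩ := exists_basis_rep (κ := κ) g
  obtain ⟨U, hUc, hU⟩ := few_support hL w hw hwL x hx r
  refine ⟨U, ?_, ?_⟩
  · refine hUc.trans ?_
    apply Nat.mul_le_mul_left
    exact Nat.mul_le_mul hdD (by omega)
  intro y hy t₀ t ht₀ ht htne heq i
  have hle : Submodule.span κ (Set.range g) ≤ Submodule.span κ (Set.range x) := by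
    rw [Submodule.span_le]
    rintro _ ⟨k, rfl⟩
    rw [SetLike.mem_coe, hg]
    apply Submodule.sum_mem
    intro j _
    rw [← Algebra.smul_def]
    exact Submodule.smul_mem _ _ (Submodule.subset_span ⟨j, rfl⟩)
  obtain ⟨c₀, hc₀⟩ := (Submodule.mem_span_range_iff_exists_fun κ).1 (hle ht₀)
  have hex : ∀ i, ∃ c : Fin d → κ, ∑ j, c j • x j = t i := fun i =>
    (Submodule.mem_span_range_iff_exists_fun κ).1 (hle (ht i))
  choose c hc using hex
  let a : Fin d → (Option B →₀ κ) := fun j =>
    Finsupp.single none (c₀ j) + ∑ i, Finsupp.single (some (y i)) (c i j)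
  have ha : ∀ j (b : B), a j (some b) = ∑ i, if y i = b then c i j else 0 := by
    intro j b
    simp only [a, Finsupp.add_apply, Finsupp.finsetSum_apply, Finsupp.single_apply,
      Option.some.injEq, reduceCtorEq, if_false, zero_add]
  have h1 : ∑ j, x j * Finsupp.linearCombination κ w (a j) = 0 := by
    rw [← heq, ← hc₀]
    have e1 : ∀ j, x j * Finsupp.linearCombination κ w (a j) =
        (c₀ j • x j) * w none + ∑ i, (c i j • x j) * w (some (y i)) := by
      intro j
      simp only [a, map_add, map_sum, Finsupp.linearCombination_single, mul_add, Finset.mul_sum]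
      congr 1
      · rw [Algebra.smul_def, Algebra.smul_def]
        ring
      · apply Finset.sum_congr rfl
        intro i _
        rw [Algebra.smul_def, Algebra.smul_def]
        ring
    simp only [e1]
    rw [Finset.sum_add_distrib, ← Finset.sum_mul, Finset.sum_comm]
    congr 1
    apply Finset.sum_congr rfl
    intro i _
    rw [← Finset.sum_mul, hc]
  have h2 : supB a ⊆ Finset.univ.image y := by
    intro b hb
    obtain ⟨j, hj⟩ := mem_supB.1 hb
    rw [ha] at hj
    obtain ⟨i, -, hi⟩ := Finset.exists_ne_zero_of_sum_ne_zero hj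
    rw [Finset.mem_image]
    refine ⟨i, Finset.mem_univ _, ?_⟩
    by_contra hne
    rw [if_neg hne] at hi
    exact hi rfl
  have h3 : (supB a).card ≤ r := (Finset.card_le_card h2).trans
    (Finset.card_image_le.trans (by simp))
  apply hU a h1 h3
  rw [mem_supB]
  by_contra hcon
  push Not at hcon
  apply htne i
  rw [← hc i]
  apply Finset.sum_eq_zero
  intro j _
  have h4 := hcon j
  rw [ha, Finset.sum_eq_single i] at h4
  · rw [if_pos rfl] at h4
    rw [h4, zero_smul]
  · intro i' _ hne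
    rw [if_neg fun h => hne (hy h)]
  · intro h
    exact absurd (Finset.mem_univ i) h

end abstract

/-- `y_1, …, y_r` satisfy over `z_1, …, z_s` a relation which is affine in the logarithms of the
`y_i`, with coefficients in `V` and degree at most `δ` in each of the `z_j`, and in which the
coefficient of each of these logarithms does not vanish. -/
def Rel {r s : ℕ} (V : Submodule (algebraicClosure ℚ ℂ : IntermediateField ℚ ℂ) ℂ) (δ : ℕ)
    (y : Fin r → ℕ) (z : Fin s → ℂ) : Prop :=
  ∃ (t₀ : MvPolynomial (Fin s) ℂ) (t : Fin r → MvPolynomial (Fin s) ℂ),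
    (∀ e, t₀.coeff e ∈ V) ∧ (∀ j, t₀.degreeOf j ≤ δ) ∧
    (∀ i e, (t i).coeff e ∈ V) ∧ (∀ i j, (t i).degreeOf j ≤ δ) ∧
    (∀ i, MvPolynomial.eval z (t i) ≠ 0) ∧
    MvPolynomial.eval z t₀ + ∑ i, MvPolynomial.eval z (t i) * ((Real.log (y i) : ℝ) : ℂ) = 0

theorem eval_mem {s N : ℕ} (V : Submodule (algebraicClosure ℚ ℂ : IntermediateField ℚ ℂ) ℂ)
    (u : Fin N → ℂ) (hu : V ≤ Submodule.span (algebraicClosure ℚ ℂ : IntermediateField ℚ ℂ)
      (Set.range u)) (δ : ℕ) (z : Fin s → ℂ) (t : MvPolynomial (Fin s) ℂ)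
    (ht : ∀ e, t.coeff e ∈ V) (htd : ∀ j, t.degreeOf j ≤ δ) :
    MvPolynomial.eval z t ∈ Submodule.span (algebraicClosure ℚ ℂ : IntermediateField ℚ ℂ)
      (Set.range fun p : Fin N × (Fin s → Fin (δ + 1)) => u p.1 * ∏ j, z j ^ (p.2 j : ℕ)) := by
  classical
  rw [MvPolynomial.eval_eq']
  apply Submodule.sum_mem
  intro e he
  have hdeg : ∀ j, e j < δ + 1 := fun j =>
    Nat.lt_succ_of_le ((MvPolynomial.monomial_le_degreeOf j he).trans (htd j))
  obtain ⟨c, hc⟩ := (Submodule.mem_span_range_iff_exists_fun _).1 (hu (ht e))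
  rw [← hc, Finset.sum_mul]
  apply Submodule.sum_mem
  intro k _
  rw [smul_mul_assoc]
  apply Submodule.smul_mem
  exact Submodule.subset_span ⟨(k, fun j => ⟨e j, hdeg j⟩), rfl⟩

/-- **All members of relations over given numbers.** -/
theorem rel_members {r s N : ℕ} (V : Submodule (algebraicClosure ℚ ℂ : IntermediateField ℚ ℂ) ℂ)
    (hV : FiniteDimensional (algebraicClosure ℚ ℂ : IntermediateField ℚ ℂ) V)
    (hVN : finrank (algebraicClosure ℚ ℂ : IntermediateField ℚ ℂ) V ≤ N) (δ : ℕ)
    (z : Fin s → ℂ) :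
    ∃ U : Finset ℕ, U.card ≤ r * ((N * (δ + 1) ^ s) * (N * (δ + 1) ^ s - 1)) ∧
      ∀ y : Fin r → ℕ, Function.Injective y → (∀ i, (y i).Prime) → Rel V δ y z →
        ∀ i, y i ∈ U := by
  classical
  -- a spanning family of `V`
  obtain ⟨u, hu⟩ : ∃ u : Fin N → ℂ, V ≤ Submodule.span
      (algebraicClosure ℚ ℂ : IntermediateField ℚ ℂ) (Set.range u) := by
    let b := Module.finBasis (algebraicClosure ℚ ℂ : IntermediateField ℚ ℂ) V
    refine ⟨fun k => if h : (k : ℕ) < finrank (algebraicClosure ℚ ℂ : IntermediateField ℚ ℂ) V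
      then ((b ⟨k, h⟩ : V) : ℂ) else 0, ?_⟩
    intro v hv
    have h1 : ((⟨v, hv⟩ : V) : ℂ) = ((∑ k, b.repr ⟨v, hv⟩ k • b k : V) : ℂ) := by
      rw [b.sum_repr]
    rw [Submodule.coe_sum] at h1
    change v = _ at h1
    rw [h1]
    apply Submodule.sum_mem
    intro k _
    rw [Submodule.coe_smul]
    apply Submodule.smul_mem
    apply Submodule.subset_span
    refine ⟨⟨k, lt_of_lt_of_le k.2 hVN⟩, ?_⟩
    simp only
    rw [dif_pos k.2]
  let ι := Fin N × (Fin s → Fin (δ + 1))
  have hι : Fintype.card ι = N * (δ + 1) ^ s := by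
    simp [ι, Fintype.card_prod]
  let e : Fin (N * (δ + 1) ^ s) ≃ ι := (Fintype.equivFinOfCardEq hι).symm
  let g₀ : ι → ℂ := fun p => u p.1 * ∏ j, z j ^ (p.2 j : ℕ)
  have hrange : Set.range (fun k => g₀ (e k)) = Set.range g₀ := by
    ext v
    constructor
    · rintro ⟨k, rfl⟩
      exact ⟨e k, rfl⟩
    · rintro ⟨p, rfl⟩
      exact ⟨e.symm p, by simp⟩
  obtain ⟨U, hUc, hU⟩ := few_members hyp_complex wP wP_indep wP_mem (fun k => g₀ (e k)) r
  refine ⟨U.image fun q : Nat.Primes => (q : ℕ), Finset.card_image_le.trans hUc, ?_⟩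
  intro y hy hyp hrel i
  obtain ⟨t₀, t, h1, h2, h3, h4, h5, h6⟩ := hrel
  have hinj : Function.Injective (fun i => toP (y i)) := by
    intro i i' h
    apply hy
    rw [← toP_coe (hyp i), ← toP_coe (hyp i')]
    exact congrArg Subtype.val h
  have h7 := hU (fun i => toP (y i)) hinj (MvPolynomial.eval z t₀)
    (fun i => MvPolynomial.eval z (t i)) (by
      rw [hrange]
      exact eval_mem V u hu δ z t₀ h1 h2) (fun i => by
      rw [hrange]
      exact eval_mem V u hu δ z (t i) (h3 i) (h4 i)) h5 (by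
      simp only [wP, Option.elim_none, Option.elim_some, mul_one]
      rw [← h6]
      congr 1
      apply Finset.sum_congr rfl
      intro i _
      rw [toP_coe (hyp i)]) i
  rw [Finset.mem_image]
  exact ⟨_, h7, toP_coe (hyp i)⟩

/-- **The number of tuples.** -/
theorem rel_count {r s N : ℕ} (V : Submodule (algebraicClosure ℚ ℂ : IntermediateField ℚ ℂ) ℂ)
    (hV : FiniteDimensional (algebraicClosure ℚ ℂ : IntermediateField ℚ ℂ) V)
    (hVN : finrank (algebraicClosure ℚ ℂ : IntermediateField ℚ ℂ) V ≤ N) (δ : ℕ)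
    (S : Finset ℕ) (hS : ∀ p ∈ S, p.Prime) :
    {p : (Fin r → ℕ) × (Fin s → ℕ) | (∀ i, p.1 i ∈ S) ∧ (∀ j, p.2 j ∈ S) ∧
      Function.Injective p.1 ∧ Rel V δ p.1 (lgs p.2)}.ncard ≤
      (r * ((N * (δ + 1) ^ s) * (N * (δ + 1) ^ s - 1))) ^ r * S.card ^ s := by
  classical
  set Z := {p : (Fin r → ℕ) × (Fin s → ℕ) | (∀ i, p.1 i ∈ S) ∧ (∀ j, p.2 j ∈ S) ∧
      Function.Injective p.1 ∧ Rel V δ p.1 (lgs p.2)} with hZ
  have hfin : Z.Finite := by
    refine Set.Finite.subset (Finset.finite_toSet
      ((Fintype.piFinset fun _ : Fin r => S) ×ˢ (Fintype.piFinset fun _ : Fin s => S))) ?_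
    intro p hp
    rw [Finset.mem_coe, Finset.mem_product, Fintype.mem_piFinset, Fintype.mem_piFinset]
    exact ⟨hp.1, hp.2.1⟩
  rw [Set.ncard_eq_toFinset_card _ hfin]
  have hmem : ∀ p ∈ hfin.toFinset, p ∈ Z := fun p hp => by
    rwa [Set.Finite.mem_toFinset] at hp
  have key := Finset.card_le_mul_card_image_of_maps_to (s := hfin.toFinset)
    (t := Fintype.piFinset fun _ : Fin s => S) (f := Prod.snd) (by
      intro p hp
      rw [Fintype.mem_piFinset]
      exact (hmem p hp).2.1)
    ((r * ((N * (δ + 1) ^ s) * (N * (δ + 1) ^ s - 1))) ^ r) (by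
      intro z _
      obtain ⟨U, hUc, hU⟩ := rel_members (r := r) V hV hVN δ (lgs z)
      have hinj : Set.InjOn (Prod.fst : (Fin r → ℕ) × (Fin s → ℕ) → (Fin r → ℕ))
          (hfin.toFinset.filter fun p => p.2 = z : Finset _) := by
        intro p hp p' hp' h
        rw [Finset.mem_coe, Finset.mem_filter] at hp hp'
        exact Prod.ext h (hp.2.trans hp'.2.symm)
      rw [← Finset.card_image_of_injOn hinj]
      have hsub : (hfin.toFinset.filter fun p => p.2 = z).image Prod.fst ⊆
          Fintype.piFinset fun _ : Fin r => U := by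
        intro y hy
        obtain ⟨p, hp, rfl⟩ := Finset.mem_image.1 hy
        rw [Finset.mem_filter] at hp
        obtain ⟨hp1, rfl⟩ := hp
        obtain ⟨h1, h2, h3, h4⟩ := hmem p hp1
        rw [Fintype.mem_piFinset]
        exact hU p.1 h3 (fun i => hS _ (h1 i)) h4
      refine (Finset.card_le_card hsub).trans ?_
      rw [Fintype.card_piFinset, Finset.prod_const, Finset.card_univ, Fintype.card_fin]
      exact Nat.pow_le_pow_left hUc _)
  refine key.trans (le_of_eq ?_)
  rw [Fintype.card_piFinset, Finset.prod_const, Finset.card_univ, Fintype.card_fin]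

end Pool.Agent.Helper13K9.BL
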