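import Pool.Agent.TH910.LR.Gen

/-!
# Points with coordinates in a finite set of combinations: translates of a subspace

`card_affine` is the version of `Pool.Agent.TH910.LR.card_points` for translates of a subspace.
-/

set_option autoImplicit false

namespace Pool.Agent.Helper13K9.BL

open Module Finset
open Pool.Agent.W254.PA (Hyp)
open Pool.Agent.TH910.LR

variable {κ E : Type*} [Field κ] [Field E] [Algebra κ E]

/-- **Points of a translate of a space.** -/
theorem card_affine [Countable κ] [Uncountable E] [DecidableEq κ] {L : Submodule κ E} (hL : Hyp L)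
    {B : Type*} [DecidableEq B] (w : B → E) (hw : LinearIndependent κ w) (hwL : ∀ b, w b ∈ L) {n : ℕ}
    (F : Finset κ) (A : Finset (B →₀ κ)) (hA : A.Nonempty) (hAF : ∀ α ∈ A, ∀ b, α b ∈ F)
    (V : Submodule E (Fin n → E)) (s : Finset (Fin n → (B →₀ κ)))
    (hs : ∀ r ∈ s, ∀ i, r i ∈ A)
    (hd : ∀ r ∈ s, ∀ r' ∈ s, vec w r - vec w r' ∈ V) :
    s.card ≤ A.card ^ finrank κ (WT F V) * (F.card + 1) ^ (n * (n * n)) := by
  classical
  obtain ⟨P, hPc, hP⟩ := few_points hL w hw hwL V
  have h1 := Finset.card_le_mul_card_image_of_maps_to (s := s)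
    (t := Fintype.piFinset fun _ : P => Fintype.piFinset fun _ : Fin n => F)
    (f := fun r => fun (b : P) i => r i b) (by
      intro r hr
      simp only [Fintype.mem_piFinset]
      intro b i
      exact hAF _ (hs r hr i) _) (A.card ^ finrank κ (WT F V)) (by
      intro δ _
      rcases (s.filter fun r => (fun (b : P) i => r i b) = δ).eq_empty_or_nonempty with he | ⟨r₀, hr₀⟩
      · rw [he]; simp
      · rw [Finset.mem_filter] at hr₀
        apply card_fibre A hA (WT F V) r₀
        intro r hr
        rw [Finset.mem_filter] at hr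
        refine ⟨hs r hr.1, fun b => ?_⟩
        have hdiff := hP (fun i => r i - r₀ i) (by
          have := hd r hr.1 r₀ hr₀.1
          convert this using 1
          funext i
          simp [vec]) (by
          intro b' hb'
          have h2 : (fun i => (r i - r₀ i) b') = (0 : Fin n → κ) := by
            funext i
            have h3 := congrFun (congrFun (hr.2.trans hr₀.2.symm) ⟨b', hb'⟩) i
            simp only at h3
            simp [h3]
          rw [h2]
          convert V.zero_mem using 1
          funext i; simp [cv]) b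
        apply Submodule.subset_span
        refine ⟨?_, ?_⟩
        · rw [TT, Fintype.mem_piFinset]
          intro i
          rw [dif, Finset.mem_image]
          exact ⟨(r i b, r₀ i b), Finset.mem_product.2 ⟨hAF _ (hs r hr.1 i) _,
            hAF _ (hs r₀ hr₀.1 i) _⟩, rfl⟩
        · convert hdiff using 2
          funext i
          rw [Finsupp.sub_apply])
  refine h1.trans (Nat.mul_le_mul_left _ ?_)
  rw [Fintype.card_piFinset]
  simp only [Fintype.card_piFinset, Finset.prod_const, Finset.card_univ, Fintype.card_fin,
    Fintype.card_coe]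
  rw [← pow_mul]
  calc F.card ^ (n * P.card) ≤ (F.card + 1) ^ (n * P.card) := Nat.pow_le_pow_left (by omega) _
    _ ≤ (F.card + 1) ^ (n * (n * n)) :=
      Nat.pow_le_pow_right (by omega) (Nat.mul_le_mul_left _ hPc)

/-- dimension over `κ` of a space of vectors whose images lie in `W` -/
theorem finrank_le_of_cv {n : ℕ} (S : Submodule κ (Fin n → κ)) (W : Submodule E (Fin n → E))
    (h : ∀ c ∈ S, cv E c ∈ W) : finrank κ S ≤ finrank E W := by
  classical
  let b := Module.finBasis κ S
  have h1 : LinearIndependent κ (fun i => ((b i : S) : Fin n → κ)) :=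
    b.linearIndependent.map' S.subtype S.ker_subtype
  have h2 := li_cv (E := E) _ h1
  have h3 : ∀ i, cv E ((b i : S) : Fin n → κ) ∈ W := fun i => h _ (b i).2
  have h4 : LinearIndependent E (fun i => (⟨_, h3 i⟩ : W)) :=
    LinearIndependent.of_comp W.subtype h2
  have h5 := h4.fintype_card_le_finrank
  rwa [Fintype.card_fin] at h5

/-- a spanning family of `n` small vectors for the space `WT` -/
theorem exists_family [DecidableEq κ] (F : Finset κ) (hF : F.Nonempty) {n : ℕ}
    (V : Submodule E (Fin n → E)) :
    ∃ c : Fin n → Fin n → κ, (∀ k, c k ∈ TT F n) ∧ (∀ k, cv E (c k) ∈ V) ∧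
      WT F V = Submodule.span κ (Set.range c) := by
  classical
  obtain ⟨b, hbT, hbs, hbli⟩ := exists_linearIndependent κ {c | c ∈ TT F n ∧ cv E c ∈ V}
  have hfin : b.Finite := hbli.setFinite
  have : Fintype b := hfin.fintype
  have hcard : Fintype.card b ≤ n := by
    have := hbli.fintype_card_le_finrank
    rwa [Module.finrank_fintype_fun_eq_card, Fintype.card_fin] at this
  let e := Fintype.equivFin b
  have h0T : (0 : Fin n → κ) ∈ TT F n := by
    rw [TT, Fintype.mem_piFinset]
    intro i
    obtain ⟨a, ha⟩ := hF
    rw [dif, Finset.mem_image]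
    exact ⟨(a, a), Finset.mem_product.2 ⟨ha, ha⟩, by simp⟩
  have h0V : cv E (0 : Fin n → κ) ∈ V := by
    rw [cv_zero]; exact V.zero_mem
  refine ⟨fun k => if h : (k : ℕ) < Fintype.card b then ((e.symm ⟨k, h⟩ : b) : Fin n → κ) else 0,
    ?_, ?_, ?_⟩
  · intro k
    simp only
    split_ifs with h
    · exact (hbT (e.symm ⟨k, h⟩).2).1
    · exact h0T
  · intro k
    simp only
    split_ifs with h
    · exact (hbT (e.symm ⟨k, h⟩).2).2
    · exact h0V
  · rw [WT, ← hbs]
    apply le_antisymm
    · apply Submodule.span_le.2
      intro v hv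
      apply Submodule.subset_span
      have hlt : ((e ⟨v, hv⟩ : Fin (Fintype.card b)) : ℕ) < Fintype.card b := (e ⟨v, hv⟩).2
      refine ⟨⟨(e ⟨v, hv⟩ : ℕ), hlt.trans_le hcard⟩, ?_⟩
      simp only
      rw [dif_pos hlt]
      simp
    · apply Submodule.span_le.2
      rintro _ ⟨k, rfl⟩
      simp only
      split_ifs with h
      · exact Submodule.subset_span (e.symm ⟨k, h⟩).2
      · exact Submodule.zero_mem _

end Pool.Agent.Helper13K9.BL
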