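import Pool.Agent.Helper13K9.BL.Affine

/-!
# Bilinear equations: `|A| ^ (m + n - rank C)` solutions
-/

set_option autoImplicit false

namespace Pool.Agent.Helper13K9.BL

open Module Finset Matrix
open Pool.Agent.W254.PA (Hyp)
open Pool.Agent.TH910.LR

variable {κ E : Type*} [Field κ] [Field E] [Algebra κ E]

/-- two orthogonal subspaces -/
theorem finrank_orth {m : ℕ} (U X : Submodule E (Fin m → E))
    (h : ∀ u ∈ U, ∀ x ∈ X, x ⬝ᵥ u = 0) : finrank E U + finrank E X ≤ m := by
  classical
  let b := Module.finBasis E X
  let M : Matrix (Fin (finrank E X)) (Fin m) E := fun k => ((b k : X) : Fin m → E)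
  have hM : M.rank = finrank E X := by
    have h1 : LinearIndependent E M := b.linearIndependent.map' X.subtype X.ker_subtype
    have := h1.rank_matrix
    rwa [Fintype.card_fin] at this
  have h2 := LinearMap.finrank_range_add_finrank_ker M.mulVecLin
  rw [Module.finrank_fintype_fun_eq_card, Fintype.card_fin] at h2
  have h3 : finrank E U ≤ finrank E (LinearMap.ker M.mulVecLin) := by
    apply Submodule.finrank_mono
    intro u hu
    rw [LinearMap.mem_ker, Matrix.mulVecLin_apply]
    funext k
    exact h u hu _ (b k).2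
  have h4 : finrank E (LinearMap.range M.mulVecLin) = finrank E X := hM
  omega

/-- the vectors orthogonal to the image of `W` -/
def orthTo {m n : ℕ} (C : Matrix (Fin m) (Fin n) E) (W : Submodule E (Fin n → E)) :
    Submodule E (Fin m → E) where
  carrier := {u | ∀ v ∈ W, (C *ᵥ v) ⬝ᵥ u = 0}
  add_mem' := by
    intro a b ha hb v hv
    rw [dotProduct_add, ha v hv, hb v hv, add_zero]
  zero_mem' := by
    intro v _
    rw [dotProduct_zero]
  smul_mem' := by
    intro c u hu v hv
    rw [dotProduct_smul, hu v hv, smul_zero]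

theorem mem_orthTo {m n : ℕ} {C : Matrix (Fin m) (Fin n) E} {W : Submodule E (Fin n → E)}
    {u : Fin m → E} : u ∈ orthTo C W ↔ ∀ v ∈ W, (C *ᵥ v) ⬝ᵥ u = 0 := Iff.rfl

theorem finrank_orthTo {m n : ℕ} (C : Matrix (Fin m) (Fin n) E) (W : Submodule E (Fin n → E)) :
    finrank E (orthTo C W) + C.rank + finrank E W ≤ m + n := by
  classical
  let f := C.mulVecLin
  have h1 := LinearMap.finrank_range_add_finrank_ker (f.domRestrict W)
  have h2 := LinearMap.finrank_range_add_finrank_ker f
  rw [Module.finrank_fintype_fun_eq_card, Fintype.card_fin] at h2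
  have h3 : finrank E (LinearMap.ker (f.domRestrict W)) ≤ finrank E (LinearMap.ker f) := by
    have hinj : Function.Injective ((W.subtype.comp (LinearMap.ker (f.domRestrict W)).subtype).codRestrict
        (LinearMap.ker f) (by
          intro x
          have := x.2
          rw [LinearMap.mem_ker] at this ⊢
          exact this)) := by
      intro x y hxy
      have := congrArg (fun z : LinearMap.ker f => (z : Fin n → E)) hxy
      exact Subtype.ext (Subtype.ext this)
    exact LinearMap.finrank_le_finrank_of_injective hinj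
  have h4 := finrank_orth (orthTo C W) (LinearMap.range (f.domRestrict W)) (by
    rintro u hu _ ⟨v, rfl⟩
    exact hu _ v.2)
  have h5 : finrank E (LinearMap.range f) = C.rank := rfl
  omega

/-- linear form with given coefficients -/
def lf {n : ℕ} (y : Fin n → E) : (Fin n → E) →ₗ[E] E where
  toFun v := y ⬝ᵥ v
  map_add' := fun _ _ => dotProduct_add _ _ _
  map_smul' := fun _ _ => dotProduct_smul _ _ _

theorem lf_apply {n : ℕ} (y v : Fin n → E) : lf y v = y ⬝ᵥ v := rfl

/-- **Main count.** -/
theorem card_bil [Countable κ] [Uncountable E] [DecidableEq κ] {L : Submodule κ E} (hL : Hyp L)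
    {B : Type*} [DecidableEq B] (w : B → E) (hw : LinearIndependent κ w) (hwL : ∀ b, w b ∈ L)
    {m n : ℕ} (F : Finset κ) (hF : F.Nonempty) (A : Finset (B →₀ κ)) (hA : A.Nonempty)
    (hAF : ∀ α ∈ A, ∀ b, α b ∈ F) (C : Matrix (Fin m) (Fin n) E) (b₀ : Fin n → E)
    (f : (Fin m → (B →₀ κ)) → E) (s : Finset ((Fin m → (B →₀ κ)) × (Fin n → (B →₀ κ))))
    (hs : ∀ r ∈ s, (∀ i, r.1 i ∈ A) ∧ (∀ j, r.2 j ∈ A) ∧
      (vec w r.1 ᵥ* C + b₀) ⬝ᵥ vec w r.2 = f r.1) :
    s.card ≤ A.card ^ (m + n - C.rank) * (F.card + 1) ^ (m * (m * m) + n * (n * n)) *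
      (F.card * F.card) ^ (n * n) := by
  classical
  let V : (Fin m → (B →₀ κ)) → Submodule E (Fin n → E) := fun x =>
    LinearMap.ker (lf (vec w x ᵥ* C + b₀))
  have hV : ∀ x v, v ∈ V x ↔ (vec w x ᵥ* C + b₀) ⬝ᵥ v = 0 := fun x v => LinearMap.mem_ker
  choose c hcT hcV hcs using fun x => exists_family F hF (V x)
  have hA1 : 1 ≤ A.card := hA.card_pos
  have key := Finset.card_le_mul_card_image_of_maps_to (s := s)
    (t := Fintype.piFinset fun _ : Fin n => TT F n)
    (f := fun r => c r.1) (by
      intro r _
      rw [Fintype.mem_piFinset]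
      exact fun k => hcT _ k)
    (A.card ^ (m + n - C.rank) * (F.card + 1) ^ (m * (m * m) + n * (n * n))) (by
      intro c₀ _
      let s' := s.filter fun r => c r.1 = c₀
      change s'.card ≤ _
      let W₀ : Submodule E (Fin n → E) := Submodule.span E (Set.range fun k => cv E (c₀ k))
      -- the first components
      have hX : (s'.image Prod.fst).card ≤
          A.card ^ finrank E (orthTo C W₀) * (F.card + 1) ^ (m * (m * m)) := by
        refine (card_affine hL w hw hwL F A hA hAF (orthTo C W₀) (s'.image Prod.fst) ?_ ?_).trans ?_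
        · intro x hx i
          obtain ⟨r, hr, rfl⟩ := Finset.mem_image.1 hx
          exact (hs r (Finset.mem_filter.1 hr).1).1 i
        · intro x hx x' hx'
          obtain ⟨r, hr, rfl⟩ := Finset.mem_image.1 hx
          obtain ⟨r', hr', rfl⟩ := Finset.mem_image.1 hx'
          rw [Finset.mem_filter] at hr hr'
          rw [mem_orthTo]
          have hgen : ∀ k, (C *ᵥ cv E (c₀ k)) ⬝ᵥ (vec w r.1 - vec w r'.1) = 0 := by
            intro k
            have h1 := hcV r.1 k
            have h2 := hcV r'.1 k
            rw [hr.2, hV] at h1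
            rw [hr'.2, hV] at h2
            rw [add_dotProduct] at h1 h2
            have h3 : (vec w r.1 ᵥ* C) ⬝ᵥ cv E (c₀ k) = (C *ᵥ cv E (c₀ k)) ⬝ᵥ vec w r.1 := by
              rw [← dotProduct_mulVec, dotProduct_comm]
            have h4 : (vec w r'.1 ᵥ* C) ⬝ᵥ cv E (c₀ k) = (C *ᵥ cv E (c₀ k)) ⬝ᵥ vec w r'.1 := by
              rw [← dotProduct_mulVec, dotProduct_comm]
            rw [dotProduct_sub, ← h3, ← h4]
            linear_combination h1 - h2
          intro v hv
          refine Submodule.span_induction
            (p := fun v _ => (C *ᵥ v) ⬝ᵥ (vec w r.1 - vec w r'.1) = 0) ?_ ?_ ?_ ?_ hv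
          · rintro _ ⟨k, rfl⟩
            exact hgen k
          · rw [mulVec_zero, zero_dotProduct]
          · intro a b _ _ ha hb
            rw [mulVec_add, add_dotProduct, ha, hb, add_zero]
          · intro a b _ hb
            rw [mulVec_smul, smul_dotProduct, hb, smul_zero]
        · gcongr
          exact finrank_WT_le F _ _ fun c hc => hc
      -- the second components
      have hY : ∀ x ∈ s'.image Prod.fst, (s'.filter fun r => r.1 = x).card ≤
          A.card ^ finrank E W₀ * (F.card + 1) ^ (n * (n * n)) := by
        intro x hx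
        obtain ⟨r₀, hr₀, hr₀x⟩ := Finset.mem_image.1 hx
        rw [Finset.mem_filter] at hr₀
        have hcx : c x = c₀ := by rw [← hr₀x]; exact hr₀.2
        have h1 : (s'.filter fun r => r.1 = x).card =
            ((s'.filter fun r => r.1 = x).image Prod.snd).card := by
          rw [Finset.card_image_of_injOn]
          intro r hr r' hr' hrr
          rw [Finset.mem_coe, Finset.mem_filter] at hr hr'
          exact Prod.ext (hr.2.trans hr'.2.symm) hrr
        rw [h1]
        refine (card_affine hL w hw hwL F A hA hAF (V x) _ ?_ ?_).trans ?_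
        · intro y hy j
          obtain ⟨r, hr, rfl⟩ := Finset.mem_image.1 hy
          rw [Finset.mem_filter, Finset.mem_filter] at hr
          exact (hs r hr.1.1).2.1 j
        · intro y hy y' hy'
          obtain ⟨r, hr, rfl⟩ := Finset.mem_image.1 hy
          obtain ⟨r', hr', rfl⟩ := Finset.mem_image.1 hy'
          rw [Finset.mem_filter, Finset.mem_filter] at hr hr'
          rw [hV, dotProduct_sub]
          have h2 := (hs r hr.1.1).2.2
          have h3 := (hs r' hr'.1.1).2.2
          rw [hr.2] at h2
          rw [hr'.2] at h3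
          rw [h2, h3, sub_self]
        · gcongr
          apply finrank_le_of_cv
          intro v hv
          rw [hcs x, hcx] at hv
          refine cv_mem_span W₀ ?_ hv
          rintro _ ⟨k, rfl⟩
          exact Submodule.subset_span ⟨k, rfl⟩
      have h5 := Finset.card_le_mul_card_image_of_maps_to (s := s') (t := s'.image Prod.fst)
        (f := Prod.fst) (fun r hr => Finset.mem_image_of_mem _ hr)
        (A.card ^ finrank E W₀ * (F.card + 1) ^ (n * (n * n))) hY
      refine h5.trans ((Nat.mul_le_mul_left _ hX).trans ?_)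
      have h6 := finrank_orthTo C W₀
      calc A.card ^ finrank E W₀ * (F.card + 1) ^ (n * (n * n)) *
            (A.card ^ finrank E (orthTo C W₀) * (F.card + 1) ^ (m * (m * m)))
          = A.card ^ (finrank E (orthTo C W₀) + finrank E W₀) *
            (F.card + 1) ^ (m * (m * m) + n * (n * n)) := by ring
        _ ≤ _ := by
          gcongr
          omega)
  refine key.trans (Nat.mul_le_mul_left _ ?_)
  rw [Fintype.card_piFinset, Finset.prod_const, Finset.card_univ, Fintype.card_fin, pow_mul]
  apply Nat.pow_le_pow_left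
  rw [TT, Fintype.card_piFinset, Finset.prod_const, Finset.card_univ, Fintype.card_fin]
  exact Nat.pow_le_pow_left (card_dif_le F) _

end Pool.Agent.Helper13K9.BL
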