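import Pool.Agent.Helper13K9.BL.Bil
import Pool.Agent.TH910.LR.Inst

/-!
# Points with distinct types of coordinates: blocks

Tuples `b` of elements of `B` such that the vector `(w none, w (b 1), …, w (b n))` lies in a space
`V`.  A block is a set of all indices with the same value.  The values on the blocks whose indicator
vector does not lie in `V` take a bounded number of values.
-/

set_option autoImplicit false

namespace Pool.Agent.Helper13K9.BL

open Module Finset Matrix
open Pool.Agent.W254.PA (Hyp)
open Pool.Agent.TH910.LR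

variable {κ E : Type*} [Field κ] [Field E] [Algebra κ E]

/-- the vector `(w none, w (b 1), …, w (b n))` -/
def hat {B : Type*} (w : Option B → E) {n : ℕ} (b : Fin n → B) : Fin (n + 1) → E :=
  Fin.cons (w none) fun i => w (some (b i))

/-- the indicator vector of a set of indices; its coordinate `0` is zero -/
def ind (E : Type*) [Field E] {n : ℕ} (J : Finset (Fin n)) : Fin (n + 1) → E :=
  Fin.cons 0 fun i => if i ∈ J then 1 else 0

/-- the block of an index -/
noncomputable def blk {B : Type*} {n : ℕ} (b : Fin n → B) (i : Fin n) : Finset (Fin n) :=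
  open Classical in Finset.univ.filter fun j => b j = b i

theorem mem_blk {B : Type*} {n : ℕ} {b : Fin n → B} {i j : Fin n} :
    j ∈ blk b i ↔ b j = b i := by
  classical
  rw [blk, Finset.mem_filter]
  simp

/-- the part of `b` on the blocks whose indicator vector does not lie in `V` -/
noncomputable def part {B : Type*} {n : ℕ} (V : Submodule E (Fin (n + 1) → E)) (b : Fin n → B) :
    Fin n → Option B :=
  open Classical in fun i => if ind E (blk b i) ∈ V then none else some (b i)

/-- the constant -/
def pc (n : ℕ) : ℕ := ((n + 1) * ((n + 1) ^ 2 + 1)) ^ n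

theorem card_parts [Countable κ] [Uncountable E]
    {L : Submodule κ E} (hL : Hyp L) {B : Type*} [DecidableEq B] (w : Option B → E)
    (hw : LinearIndependent κ w) (hwL : ∀ b, w b ∈ L) {n : ℕ}
    (V : Submodule E (Fin (n + 1) → E)) (s : Finset (Fin n → B)) (hs : ∀ b ∈ s, hat w b ∈ V) :
    (s.image (part V)).card ≤ pc n := by
  classical
  obtain ⟨P, hPc, hP⟩ := few_points hL w hw hwL V
  let r : (Fin n → B) → Fin (n + 1) → (Option B →₀ κ) := fun b =>
    Fin.cons (Finsupp.single none 1) (fun i => Finsupp.single (some (b i)) 1)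
  let cl : (Fin n → B) → Fin n → Option P := fun b i =>
    if h : some (b i) ∈ P then some ⟨some (b i), h⟩ else none
  have hcls : ∀ b b₀ : Fin n → B, b ∈ s → b₀ ∈ s → cl b = cl b₀ → ∀ i,
      ind E (blk b i) ∉ V → ∃ j, b₀ j = b i := by
    intro b b₀ hb hb₀ hcl i hi
    by_contra hcon
    push Not at hcon
    apply hi
    have h1 := hP (fun i => r b i - r b₀ i) (by
      have h2 : (fun i => Finsupp.linearCombination κ w (r b i - r b₀ i)) =
          hat w b - hat w b₀ := by
        funext i
        refine Fin.cases ?_ (fun i => ?_) i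
        · simp [r, hat]
        · simp [r, hat]
      rw [h2]
      exact V.sub_mem (hs b hb) (hs b₀ hb₀)) (by
      intro b' hb'
      have h2 : ∀ i : Fin n, (r b i.succ - r b₀ i.succ) b' = 0 := by
        intro i
        simp only [r, Fin.cons_succ, Finsupp.sub_apply, Finsupp.single_apply]
        have h3 := congrFun hcl i
        simp only [cl] at h3
        by_cases h4 : some (b i) = b'
        · rw [dif_pos (h4 ▸ hb')] at h3
          have h5 : some (b₀ i) ∈ P := by
            by_contra h5
            rw [dif_neg h5] at h3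
            exact absurd h3 (by simp)
          rw [dif_pos h5] at h3
          have h6 : some (b i) = some (b₀ i) := by
            have := Option.some.inj h3
            exact congrArg Subtype.val this
          rw [if_pos h4, if_pos (h6 ▸ h4), sub_self]
        · by_cases h5 : some (b₀ i) = b'
          · exfalso
            rw [dif_pos (show some (b₀ i) ∈ P from h5 ▸ hb')] at h3
            have h6 : some (b i) ∈ P := by
              by_contra h6
              rw [dif_neg h6] at h3
              exact absurd h3 (by simp)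
            rw [dif_pos h6] at h3
            have h7 : some (b i) = some (b₀ i) := by
              have := Option.some.inj h3
              exact congrArg Subtype.val this
            exact h4 (h7.trans h5)
          · rw [if_neg h4, if_neg h5, sub_self]
      have h3 : (r b 0 - r b₀ 0) b' = 0 := by simp [r]
      have h4 : (fun i => (r b i - r b₀ i) b') = (0 : Fin (n + 1) → κ) := by
        funext i
        refine Fin.cases h3 (fun i => h2 i) i
      rw [h4, cv_zero]
      exact V.zero_mem) (some (b i))
    convert h1 using 1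
    funext k
    refine Fin.cases ?_ (fun k => ?_) k
    · simp [r, ind, cv]
    · simp only [ind, cv, r, Fin.cons_succ, mem_blk, Finsupp.sub_apply, Finsupp.single_apply,
        Option.some.injEq]
      rw [if_neg (hcon k), sub_zero]
      split_ifs <;> simp
  have hsub : s.image (part V) ⊆ (Finset.univ : Finset (Fin n → Option P)).biUnion fun δ =>
      (s.filter fun b => cl b = δ).image (part V) := by
    intro g hg
    obtain ⟨b, hb, rfl⟩ := Finset.mem_image.1 hg
    rw [Finset.mem_biUnion]
    exact ⟨cl b, Finset.mem_univ _, Finset.mem_image_of_mem _ (Finset.mem_filter.2 ⟨hb, rfl⟩)⟩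
  have hcard : ((Finset.univ : Finset (Fin n → Option P)).biUnion fun δ =>
      (s.filter fun b => cl b = δ).image (part V)).card ≤
      (Finset.univ : Finset (Fin n → Option P)).card * (n + 1) ^ n := by
    apply Finset.card_biUnion_le_card_mul
    intro δ _
    rcases (s.filter fun b => cl b = δ).eq_empty_or_nonempty with he | ⟨b₀, hb₀⟩
    · rw [he]; simp
    · rw [Finset.mem_filter] at hb₀
      have h1 : (s.filter fun b => cl b = δ).image (part V) ⊆
          Fintype.piFinset fun _ : Fin n => insert none (Finset.univ.image fun j => some (b₀ j)) := by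
        intro g hg
        obtain ⟨b, hb, rfl⟩ := Finset.mem_image.1 hg
        rw [Finset.mem_filter] at hb
        rw [Fintype.mem_piFinset]
        intro i
        rw [Finset.mem_insert, part]
        by_cases hi : ind E (blk b i) ∈ V
        · left
          rw [if_pos hi]
        · right
          rw [if_neg hi, Finset.mem_image]
          obtain ⟨j, hj⟩ := hcls b b₀ hb.1 hb₀.1 (hb.2.trans hb₀.2.symm) i hi
          exact ⟨j, Finset.mem_univ _, by rw [hj]⟩
      refine (Finset.card_le_card h1).trans ?_
      rw [Fintype.card_piFinset, Finset.prod_const, Finset.card_univ, Fintype.card_fin]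
      apply Nat.pow_le_pow_left
      refine (Finset.card_insert_le _ _).trans ?_
      apply Nat.add_le_add_right
      exact Finset.card_image_le.trans (by simp)
  refine (Finset.card_le_card hsub).trans (hcard.trans ?_)
  rw [Finset.card_univ, Fintype.card_fun, Fintype.card_option, Fintype.card_coe, Fintype.card_fin,
    pc, mul_comm, mul_pow]
  apply Nat.mul_le_mul_left
  apply Nat.pow_le_pow_left
  have : (n + 1) * (n + 1) = (n + 1) ^ 2 := by ring
  omega

/-- the blocks whose indicator vector lies in `V` -/
noncomputable def dbl' {B : Type*} {n : ℕ} (V : Submodule E (Fin (n + 1) → E)) (b : Fin n → B) :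
    Finset (Finset (Fin n)) :=
  open Classical in (Finset.univ.image (blk b)).filter fun J => ind E J ∈ V

theorem mem_dbl' {B : Type*} {n : ℕ} {V : Submodule E (Fin (n + 1) → E)} {b : Fin n → B}
    {J : Finset (Fin n)} : J ∈ dbl' V b ↔ (∃ i, blk b i = J) ∧ ind E J ∈ V := by
  classical
  rw [dbl', Finset.mem_filter, Finset.mem_image]
  simp

theorem card_col [Countable κ] [Uncountable E]
    {L : Submodule κ E} (hL : Hyp L) {B : Type*} [DecidableEq B] (w : Option B → E)
    (hw : LinearIndependent κ w) (hwL : ∀ b, w b ∈ L) {n : ℕ}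
    (V : Submodule E (Fin (n + 1) → E)) (S : Finset B) (𝒥 : Finset (Finset (Fin n)))
    (s : Finset (Fin n → B)) (hs : ∀ b ∈ s, hat w b ∈ V ∧ (∀ i, b i ∈ S) ∧ dbl' V b = 𝒥) :
    s.card ≤ pc n * S.card ^ 𝒥.card := by
  classical
  let val : (Fin n → B) → 𝒥 → Option B := fun b J =>
    if h : (J : Finset (Fin n)).Nonempty then some (b h.choose) else none
  have hne : ∀ b ∈ s, ∀ J ∈ 𝒥, J.Nonempty := by
    intro b hb J hJ
    rw [← (hs b hb).2.2, mem_dbl'] at hJ
    obtain ⟨⟨i, rfl⟩, -⟩ := hJ
    exact ⟨i, mem_blk.2 rfl⟩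
  have hinj : Set.InjOn (fun b => (part V b, val b)) (s : Set (Fin n → B)) := by
    intro b hb b' hb' h
    have h1 : part V b = part V b' := (Prod.mk.inj h).1
    have h2 : val b = val b' := (Prod.mk.inj h).2
    funext i
    have h3 := congrFun h1 i
    by_cases hi : ind E (blk b i) ∈ V
    · have hi' : ind E (blk b' i) ∈ V := by
        by_contra hi'
        rw [part, part, if_pos hi, if_neg hi'] at h3
        exact absurd h3 (by simp)
      have hJ : blk b i ∈ 𝒥 := by
        rw [← (hs b hb).2.2, mem_dbl']
        exact ⟨⟨i, rfl⟩, hi⟩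
      have hJ' : blk b' i ∈ 𝒥 := by
        rw [← (hs b' hb').2.2, mem_dbl']
        exact ⟨⟨i, rfl⟩, hi'⟩
      have hJJ : blk b i = blk b' i := by
        have h4 := hJ'
        rw [← (hs b hb).2.2, mem_dbl'] at h4
        obtain ⟨⟨k, hk⟩, -⟩ := h4
        have h5 : i ∈ blk b k := by rw [hk]; exact mem_blk.2 rfl
        rw [← hk]
        ext j
        rw [mem_blk, mem_blk, mem_blk.1 h5]
      have h4 := congrFun h2 ⟨blk b i, hJ⟩
      have h5 : (blk b i).Nonempty := ⟨i, mem_blk.2 rfl⟩
      simp only [val] at h4
      rw [dif_pos h5, dif_pos h5] at h4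
      have h6 := Option.some.inj h4
      have h7 : b h5.choose = b i := mem_blk.1 h5.choose_spec
      have h8 : b' h5.choose = b' i := by
        apply mem_blk.1
        rw [← hJJ]
        exact h5.choose_spec
      rw [← h7, ← h8, h6]
    · have hi' : ind E (blk b' i) ∉ V := by
        intro hi'
        rw [part, part, if_neg hi, if_pos hi'] at h3
        exact absurd h3 (by simp)
      rw [part, part, if_neg hi, if_neg hi'] at h3
      exact Option.some.inj h3
  rw [← Finset.card_image_of_injOn hinj]
  have hsub : s.image (fun b => (part V b, val b)) ⊆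
      (s.image (part V)) ×ˢ (Fintype.piFinset fun _ : 𝒥 => S.image some) := by
    intro g hg
    obtain ⟨b, hb, rfl⟩ := Finset.mem_image.1 hg
    rw [Finset.mem_product, Fintype.mem_piFinset]
    refine ⟨Finset.mem_image_of_mem _ hb, fun J => ?_⟩
    simp only [val]
    rw [dif_pos (hne b hb J J.2)]
    exact Finset.mem_image_of_mem _ ((hs b hb).2.1 _)
  refine (Finset.card_le_card hsub).trans ?_
  rw [Finset.card_product, Fintype.card_piFinset, Finset.prod_const, Finset.card_univ,
    Fintype.card_coe, Finset.card_image_of_injective _ (Option.some_injective B)]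
  exact Nat.mul_le_mul_right _ (card_parts hL w hw hwL V s fun b hb => (hs b hb).1)

/-- a family of disjoint nonempty sets -/
def Fam {n : ℕ} (𝒥 : Finset (Finset (Fin n))) : Prop :=
  (∀ J ∈ 𝒥, J.Nonempty) ∧ ∀ J ∈ 𝒥, ∀ J' ∈ 𝒥, J ≠ J' → Disjoint J J'

theorem fam_dbl' {B : Type*} {n : ℕ} (V : Submodule E (Fin (n + 1) → E)) (b : Fin n → B) :
    Fam (dbl' V b) := by
  classical
  refine ⟨?_, ?_⟩
  · intro J hJ
    obtain ⟨⟨i, rfl⟩, -⟩ := mem_dbl'.1 hJ
    exact ⟨i, mem_blk.2 rfl⟩
  · intro J hJ J' hJ' hne
    obtain ⟨⟨i, rfl⟩, -⟩ := mem_dbl'.1 hJ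
    obtain ⟨⟨i', rfl⟩, -⟩ := mem_dbl'.1 hJ'
    rw [Finset.disjoint_left]
    intro j hj hj'
    apply hne
    ext k
    rw [mem_blk, mem_blk, ← mem_blk.1 hj, ← mem_blk.1 hj']

/-- the constant -/
def cst (n : ℕ) : ℕ := 2 ^ (2 ^ n) * pc n

/-- **One column.** -/
theorem first_step [Countable κ] [Uncountable E]
    {L : Submodule κ E} (hL : Hyp L) {B : Type*} [DecidableEq B] (w : Option B → E)
    (hw : LinearIndependent κ w) (hwL : ∀ b, w b ∈ L) {n : ℕ} {Y : Type*} [DecidableEq Y]
    (V : Y → Submodule E (Fin (n + 1) → E)) (S : Finset B) (s : Finset ((Fin n → B) × Y))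
    (hs : ∀ x ∈ s, (∀ i, x.1 i ∈ S) ∧ hat w x.1 ∈ V x.2) (hne : s.Nonempty) :
    ∃ (𝒥 : Finset (Finset (Fin n))) (s' : Finset ((Fin n → B) × Y)), s' ⊆ s ∧ s'.Nonempty ∧
      Fam 𝒥 ∧ (∀ x ∈ s', ∀ J ∈ 𝒥, ind E J ∈ V x.2) ∧
      s.card ≤ cst n * S.card ^ 𝒥.card * (s'.image Prod.snd).card := by
  classical
  let cl : (Fin n → B) × Y → Finset (Finset (Fin n)) := fun x => dbl' (V x.2) x.1
  obtain ⟨𝒥, -, hmax⟩ := Finset.exists_max_image (Finset.univ : Finset (Finset (Finset (Fin n))))
    (fun 𝒥 => (s.filter fun x => cl x = 𝒥).card) ⟨∅, Finset.mem_univ _⟩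
  set s' := s.filter fun x => cl x = 𝒥 with hs'
  have h1 : s.card ≤ 2 ^ (2 ^ n) * s'.card := by
    have h2 := Finset.card_le_mul_card_image_of_maps_to (s := s)
      (t := (Finset.univ : Finset (Finset (Finset (Fin n))))) (f := cl)
      (fun _ _ => Finset.mem_univ _) s'.card (fun 𝒥' _ => hmax 𝒥' (Finset.mem_univ _))
    rw [Finset.card_univ, Fintype.card_finset, Fintype.card_finset, Fintype.card_fin] at h2
    rw [mul_comm]
    exact h2
  have hne' : s'.Nonempty := by
    rw [Finset.nonempty_iff_ne_empty]
    intro h0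
    rw [h0, Finset.card_empty, mul_zero] at h1
    have := hne.card_pos
    omega
  refine ⟨𝒥, s', Finset.filter_subset _ _, hne', ?_, ?_, ?_⟩
  · obtain ⟨x, hx⟩ := hne'
    rw [hs', Finset.mem_filter] at hx
    rw [← hx.2]
    exact fam_dbl' _ _
  · intro x hx J hJ
    rw [hs', Finset.mem_filter] at hx
    rw [← hx.2] at hJ
    exact (mem_dbl'.1 hJ).2
  · have h3 : s'.card ≤ (pc n * S.card ^ 𝒥.card) * (s'.image Prod.snd).card := by
      apply Finset.card_le_mul_card_image_of_maps_to (f := Prod.snd)
        (fun x hx => Finset.mem_image_of_mem _ hx)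
      intro y _
      have hinj : Set.InjOn (Prod.fst : (Fin n → B) × Y → (Fin n → B))
          (s'.filter fun x => x.2 = y : Finset _) := by
        intro x hx x' hx' h
        rw [Finset.mem_coe, Finset.mem_filter] at hx hx'
        exact Prod.ext h (hx.2.trans hx'.2.symm)
      rw [← Finset.card_image_of_injOn hinj]
      apply card_col hL w hw hwL (V y) S 𝒥
      intro b hb
      obtain ⟨x, hx, rfl⟩ := Finset.mem_image.1 hb
      rw [Finset.mem_filter, hs', Finset.mem_filter] at hx
      obtain ⟨⟨hx1, hx2⟩, rfl⟩ := hx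
      exact ⟨(hs x hx1).2, (hs x hx1).1, hx2⟩
    calc s.card ≤ 2 ^ (2 ^ n) * s'.card := h1
      _ ≤ 2 ^ (2 ^ n) * ((pc n * S.card ^ 𝒥.card) * (s'.image Prod.snd).card) :=
        Nat.mul_le_mul_left _ h3
      _ = cst n * S.card ^ 𝒥.card * (s'.image Prod.snd).card := by
        rw [cst]
        ring

end Pool.Agent.Helper13K9.BL
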