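import Pool.Agent.Helper13K9.BL.Mul

/-!
# Multi-affine equations in logarithms of primes
-/

set_option autoImplicit false

namespace Pool.Agent.Helper13K9.BL

open Module Finset Matrix
open Pool.Agent.W254.PA (Hyp)
open Pool.Agent.TH910.LR
open Pool.Agent.H301R2.SSE (QB mem_QB Lt Lt_rep Lt_mul Lt_alg Lt_log)

/-- the multilinear form with given coefficients -/
noncomputable def toT {D : ℕ} {n : Fin D → ℕ} (a : ((j : Fin D) → Fin (n j + 1)) → ℂ) :
    MultilinearMap ℂ (fun j : Fin D => Fin (n j + 1) → ℂ) ℂ :=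
  ∑ i, a i • (MultilinearMap.mkPiAlgebra ℂ (Fin D) ℂ).compLinearMap
    (fun j => LinearMap.proj (i j))

theorem toT_apply {D : ℕ} {n : Fin D → ℕ} (a : ((j : Fin D) → Fin (n j + 1)) → ℂ)
    (v : (j : Fin D) → Fin (n j + 1) → ℂ) : toT a v = ∑ i, a i * ∏ j, v j (i j) := by
  simp [toT]

theorem toT_ind {D : ℕ} {n : Fin D → ℕ} (a : ((j : Fin D) → Fin (n j + 1)) → ℂ)
    (J : (j : Fin D) → Finset (Fin (n j))) :
    toT a (fun j => ind ℂ (J j)) = ∑ i ∈ Fintype.piFinset J, a (fun j => (i j).succ) := by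
  classical
  rw [toT_apply]
  let φ : ((j : Fin D) → Fin (n j)) → ((j : Fin D) → Fin (n j + 1)) := fun i j => (i j).succ
  have hφ : Function.Injective φ := by
    intro i i' h
    funext j
    exact Fin.succ_injective _ (congrFun h j)
  rw [← Finset.sum_subset (Finset.subset_univ ((Fintype.piFinset J).image φ)),
    Finset.sum_image fun x _ y _ h => hφ h]
  · apply Finset.sum_congr rfl
    intro i hi
    rw [Fintype.mem_piFinset] at hi
    have : ∏ j, ind ℂ (J j) (φ i j) = 1 := by
      apply Finset.prod_eq_one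
      intro j _
      simp only [φ, ind, Fin.cons_succ]
      rw [if_pos (hi j)]
    rw [this, mul_one]
  · intro i _ hi
    have : ∃ j, ind ℂ (J j) (i j) = 0 := by
      by_contra hcon
      push Not at hcon
      have h1 : ∀ j, ∃ k ∈ J j, i j = k.succ := by
        intro j
        have h2 := hcon j
        rcases Fin.eq_zero_or_eq_succ (i j) with h3 | ⟨k, h3⟩
        · rw [h3] at h2
          exact absurd rfl h2
        · rw [h3] at h2
          refine ⟨k, ?_, h3⟩
          by_contra hk
          apply h2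
          simp only [ind, Fin.cons_succ]
          rw [if_neg hk]
      choose k hk hik using h1
      apply hi
      rw [Finset.mem_image]
      exact ⟨k, Fintype.mem_piFinset.2 hk, funext fun j => (hik j).symm⟩
    obtain ⟨j, hj⟩ := this
    rw [Finset.prod_eq_zero (Finset.mem_univ j) hj, mul_zero]

/-- the vector `(1, log p_1, …, log p_n)` -/
noncomputable def hatL {n : ℕ} (p : Fin n → ℕ) : Fin (n + 1) → ℂ :=
  Fin.cons 1 fun i => ((Real.log (p i) : ℝ) : ℂ)

/-- the value of a multi-affine polynomial -/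
noncomputable def mval {D : ℕ} {n : Fin D → ℕ} (a : ((j : Fin D) → Fin (n j + 1)) → ℂ)
    (p : (j : Fin D) → Fin (n j) → ℕ) : ℂ := ∑ i, a i * ∏ j, hatL (p j) (i j)

/-- admissible families -/
def Adm {D : ℕ} {n : Fin D → ℕ} (a : ((j : Fin D) → Fin (n j + 1)) → ℂ)
    (𝒥 : (j : Fin D) → Finset (Finset (Fin (n j)))) : Prop :=
  (∀ j, (∀ J ∈ 𝒥 j, J.Nonempty) ∧ ∀ J ∈ 𝒥 j, ∀ J' ∈ 𝒥 j, J ≠ J' → Disjoint J J') ∧
  ∀ J : (j : Fin D) → Finset (Fin (n j)), (∀ j, J j ∈ 𝒥 j) →
    ∑ i ∈ Fintype.piFinset J, a (fun j => (i j).succ) = 0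

/-- the largest size of an admissible system of families -/
noncomputable def mexp {D : ℕ} {n : Fin D → ℕ} (a : ((j : Fin D) → Fin (n j + 1)) → ℂ) : ℕ :=
  open Classical in (Finset.univ.filter (Adm a)).sup fun 𝒥 => ∑ j, (𝒥 j).card

theorem le_mexp {D : ℕ} {n : Fin D → ℕ} {a : ((j : Fin D) → Fin (n j + 1)) → ℂ}
    {𝒥 : (j : Fin D) → Finset (Finset (Fin (n j)))} (h : Adm a 𝒥) :
    ∑ j, (𝒥 j).card ≤ mexp a := by
  classical
  exact Finset.le_sup (f := fun 𝒥 : (j : Fin D) → Finset (Finset (Fin (n j))) =>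
    ∑ j, (𝒥 j).card) (Finset.mem_filter.2 ⟨Finset.mem_univ _, h⟩)

theorem exists_mexp {D : ℕ} {n : Fin (D + 1) → ℕ}
    (a : ((j : Fin (D + 1)) → Fin (n j + 1)) → ℂ) :
    ∃ 𝒥, Adm a 𝒥 ∧ ∑ j, (𝒥 j).card = mexp a := by
  classical
  have hne : (Finset.univ.filter (Adm a)).Nonempty := by
    refine ⟨fun j => ∅, Finset.mem_filter.2 ⟨Finset.mem_univ _, ⟨fun j => ⟨?_, ?_⟩, ?_⟩⟩⟩
    · intro J hJ
      exact absurd hJ (Finset.notMem_empty _)
    · intro J hJ
      exact absurd hJ (Finset.notMem_empty _)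
    · intro J hJ
      exact absurd (hJ 0) (Finset.notMem_empty _)
  obtain ⟨𝒥, h𝒥, he⟩ := Finset.exists_mem_eq_sup _ hne
    (fun 𝒥 : (j : Fin (D + 1)) → Finset (Finset (Fin (n j))) => ∑ j, (𝒥 j).card)
  exact ⟨𝒥, (Finset.mem_filter.1 h𝒥).2, he.symm⟩

theorem msol_finite {D : ℕ} {n : Fin D → ℕ} (S : Finset ℕ)
    (P : ((j : Fin D) → Fin (n j) → ℕ) → Prop) :
    {p : (j : Fin D) → Fin (n j) → ℕ | (∀ j i, p j i ∈ S) ∧ P p}.Finite := by
  classical
  refine Set.Finite.subset (Finset.finite_toSet
    (Fintype.piFinset fun j : Fin D => Fintype.piFinset fun _ : Fin (n j) => S)) ?_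
  intro x hx
  rw [Finset.mem_coe, Fintype.mem_piFinset]
  intro j
  rw [Fintype.mem_piFinset]
  exact hx.1 j

/-- **The upper bound.** -/
theorem multi_primes {D : ℕ} (n : Fin (D + 1) → ℕ)
    (a : ((j : Fin (D + 1)) → Fin (n j + 1)) → ℂ)
    (f : ((j : Fin D) → Fin (n j.succ) → ℕ) → ℂ) (S : Finset ℕ) (hS : ∀ p ∈ S, p.Prime)
    (hS0 : S.Nonempty) :
    {p : (j : Fin (D + 1)) → Fin (n j) → ℕ | (∀ j i, p j i ∈ S) ∧
      mval a p = f fun j => p j.succ}.ncard ≤ cstP n * S.card ^ mexp a := by
  classical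
  have := countable_alg (E := ℂ)
  have hfin := msol_finite (n := n) S (fun p => mval a p = f fun j => p j.succ)
  set Z := {p : (j : Fin (D + 1)) → Fin (n j) → ℕ | (∀ j i, p j i ∈ S) ∧
      mval a p = f fun j => p j.succ} with hZ
  rw [Set.ncard_eq_toFinset_card _ hfin]
  set s := hfin.toFinset with hs
  have hsZ : ∀ p, p ∈ s ↔ p ∈ Z := fun p => Set.Finite.mem_toFinset _
  rcases s.eq_empty_or_nonempty with he | hne
  · rw [he]; simp
  let c : ℕ → Nat.Primes := fun q => if h : q.Prime then ⟨q, h⟩ else ⟨2, Nat.prime_two⟩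
  have hc : ∀ q ∈ S, ((c q : Nat.Primes) : ℕ) = q := by
    intro q hq
    simp only [c]
    rw [dif_pos (hS q hq)]
  let g : ((j : Fin (D + 1)) → Fin (n j) → ℕ) → ((j : Fin (D + 1)) → Fin (n j) → Nat.Primes) :=
    fun p j i => c (p j i)
  have hinj : Set.InjOn g (s : Set _) := by
    intro p hp p' hp' h
    rw [Finset.mem_coe, hsZ] at hp hp'
    funext j i
    rw [← hc _ (hp.1 j i), ← hc _ (hp'.1 j i)]
    have := congrFun (congrFun h j) i
    exact congrArg Subtype.val this
  let w : Option Nat.Primes → ℂ :=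
    fun o => (o.elim 1 (fun p : Nat.Primes => (Real.log (p : ℕ) : ℂ)) : ℂ)
  have hhat : ∀ p ∈ s, ∀ j, hat w (g p j) = hatL (p j) := by
    intro p hp j
    rw [hsZ] at hp
    funext i
    refine Fin.cases rfl (fun i => ?_) i
    change ((Real.log ((c (p j i) : Nat.Primes) : ℕ) : ℝ) : ℂ) = ((Real.log (p j i) : ℝ) : ℂ)
    rw [hc _ (hp.1 j i)]
  obtain ⟨𝒥, h𝒥, hcard⟩ := multi_fun hyp_complex w
    (Pool.Agent.W254.HP.opt_indep _ Pool.Agent.W254.HP.log_prime_alg
      Pool.Agent.W254.HP.log_primes_indep) (by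
      intro o
      cases o with
      | none => exact Lt_alg isAlgebraic_one
      | some b => exact Lt_log (Pool.Agent.W254.HP.log_prime_alg b)) (S.image c) D n (toT a)
    (fun y => f fun j i => ((y j i : Nat.Primes) : ℕ)) (s.image g) (hne.image g) (by
      intro x hx
      obtain ⟨p, hp, rfl⟩ := Finset.mem_image.1 hx
      have hpZ := (hsZ p).1 hp
      refine ⟨fun j i => Finset.mem_image_of_mem _ (hpZ.1 j i), ?_⟩
      rw [toT_apply]
      have h1 : ∑ i, a i * ∏ j, hat w (g p j) (i j) = mval a p := by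
        rw [mval]
        apply Finset.sum_congr rfl
        intro i _
        congr 1
        apply Finset.prod_congr rfl
        intro j _
        rw [hhat p hp j]
      rw [h1, hpZ.2]
      congr 1
      funext j i
      exact (hc _ (hpZ.1 j.succ i)).symm)
  rw [Finset.card_image_of_injOn hinj] at hcard
  have hadm : Adm a 𝒥 := by
    refine ⟨fun j => h𝒥.1 j, fun J hJ => ?_⟩
    rw [← toT_ind]
    exact h𝒥.2 (toT a) rfl J hJ
  have hS1 : 0 < S.card := hS0.card_pos
  calc s.card ≤ cstP n * (S.image c).card ^ ∑ j, (𝒥 j).card := hcard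
    _ ≤ cstP n * S.card ^ ∑ j, (𝒥 j).card :=
      Nat.mul_le_mul_left _ (Nat.pow_le_pow_left Finset.card_image_le _)
    _ ≤ cstP n * S.card ^ mexp a :=
      Nat.mul_le_mul_left _ (Nat.pow_le_pow_right hS1 (le_mexp hadm))

/-- **The exponent is optimal.** -/
theorem multi_sharp {D : ℕ} (n : Fin D → ℕ) (a₀ : ((j : Fin D) → Fin (n j + 1)) → ℂ)
    (S : Finset ℕ) (hS0 : S.Nonempty) (hex : ∃ 𝒥, Adm a₀ 𝒥 ∧ ∑ j, (𝒥 j).card = mexp a₀) :
    ∃ a : ((j : Fin D) → Fin (n j + 1)) → ℂ, (∀ i : (j : Fin D) → Fin (n j),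
        a (fun j => (i j).succ) = a₀ (fun j => (i j).succ)) ∧
      S.card ^ mexp a₀ ≤ {p : (j : Fin D) → Fin (n j) → ℕ | (∀ j i, p j i ∈ S) ∧
        mval a p = 0}.ncard := by
  classical
  obtain ⟨𝒥, hadm, h𝒥⟩ := hex
  obtain ⟨s₀, hs₀⟩ := hS0
  -- the index of the block
  let bl : (j : Fin D) → Fin (n j) → Option (𝒥 j) := fun j k =>
    if h : ∃ J : 𝒥 j, k ∈ (J : Finset (Fin (n j))) then some h.choose else none
  have hbl : ∀ j (J : 𝒥 j) (k : Fin (n j)), k ∈ (J : Finset (Fin (n j))) → bl j k = some J := by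
    intro j J k hk
    have h : ∃ J : 𝒥 j, k ∈ (J : Finset (Fin (n j))) := ⟨J, hk⟩
    simp only [bl]
    rw [dif_pos h]
    congr 1
    by_contra hne
    have hd := (hadm.1 j).2 _ h.choose.2 _ J.2 fun h' => hne (Subtype.ext h')
    exact Finset.disjoint_left.1 hd h.choose_spec hk
  have hbl' : ∀ j (k : Fin (n j)) (J : 𝒥 j), bl j k = some J → k ∈ (J : Finset (Fin (n j))) := by
    intro j k J h
    simp only [bl] at h
    split_ifs at h with h'
    · rw [← Option.some.inj h]
      exact h'.choose_spec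
  -- the fixed part
  let v : (j : Fin D) → Fin (n j) → ℂ := fun j k =>
    if bl j k = none then ((Real.log s₀ : ℝ) : ℂ) else 0
  let m : (j : Fin D) → Fin (n j) → Fin (n j + 1) → ℂ := fun j k =>
    Fin.cons (-v j k) fun i => if i = k then 1 else 0
  let a : ((j : Fin D) → Fin (n j + 1)) → ℂ := fun i =>
    ∑ k : (j : Fin D) → Fin (n j), a₀ (fun j => (k j).succ) * ∏ j, m j (k j) (i j)
  have hm : ∀ (p : (j : Fin D) → Fin (n j) → ℕ) j k,
      ∑ i, m j k i * hatL (p j) i = ((Real.log (p j k) : ℝ) : ℂ) - v j k := by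
    intro p j k
    rw [Fin.sum_univ_succ]
    simp only [m, hatL, Fin.cons_zero, Fin.cons_succ, ite_mul, one_mul, zero_mul,
      Finset.sum_ite_eq', Finset.mem_univ, if_true]
    ring
  have hval : ∀ p : (j : Fin D) → Fin (n j) → ℕ, mval a p =
      ∑ k : (j : Fin D) → Fin (n j), a₀ (fun j => (k j).succ) *
        ∏ j, (((Real.log (p j (k j)) : ℝ) : ℂ) - v j (k j)) := by
    intro p
    simp only [mval, a, Finset.sum_mul]
    rw [Finset.sum_comm]
    apply Finset.sum_congr rfl
    intro k _
    simp only [← hm]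
    rw [Finset.prod_univ_sum, Finset.mul_sum, Fintype.piFinset_univ]
    apply Finset.sum_congr rfl
    intro i _
    rw [mul_assoc, ← Finset.prod_mul_distrib]
  refine ⟨a, ?_, ?_⟩
  · intro i
    simp only [a]
    rw [Finset.sum_eq_single i]
    · have : ∏ j, m j (i j) (i j).succ = 1 := by
        apply Finset.prod_eq_one
        intro j _
        simp [m]
      rw [this, mul_one]
    · intro k _ hk
      obtain ⟨j, hj⟩ := Function.ne_iff.1 hk
      have : m j (k j) (i j).succ = 0 := by
        simp only [m, Fin.cons_succ]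
        rw [if_neg fun h => hj h.symm]
      rw [Finset.prod_eq_zero (Finset.mem_univ j) this, mul_zero]
    · intro h
      exact absurd (Finset.mem_univ i) h
  · let s : Finset ((j : Fin D) → 𝒥 j → ℕ) :=
      Fintype.piFinset fun j => Fintype.piFinset fun _ : 𝒥 j => S
    have hs : s.card = S.card ^ mexp a₀ := by
      rw [Fintype.card_piFinset]
      simp only [Fintype.card_piFinset, Finset.prod_const, Finset.card_univ, Fintype.card_coe]
      rw [Finset.prod_pow_eq_pow_sum, h𝒥]
    rw [← hs, ← Set.ncard_coe_finset]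
    refine Set.ncard_le_ncard_of_injOn
      (fun y j k => (bl j k).elim s₀ (fun J => y j J)) ?_ ?_ (msol_finite S _)
    · intro y hy
      rw [Finset.mem_coe, Fintype.mem_piFinset] at hy
      have hy' : ∀ j J, y j J ∈ S := fun j => by
        have := hy j
        rwa [Fintype.mem_piFinset] at this
      refine ⟨?_, ?_⟩
      · intro j k
        simp only
        rcases h : bl j k with _ | J
        · simpa [h] using hs₀
        · simpa [h] using hy' j J
      · rw [hval]
        have h1 : ∀ j (k : Fin (n j)),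
            ((Real.log (((bl j k).elim s₀ (fun J => y j J) : ℕ) : ℝ) : ℝ) : ℂ) - v j k =
            ∑ J : 𝒥 j, if k ∈ (J : Finset (Fin (n j))) then ((Real.log (y j J) : ℝ) : ℂ) else 0 := by
          intro j k
          rcases h : bl j k with _ | J
          · have h2 : ∀ J : 𝒥 j, k ∉ (J : Finset (Fin (n j))) := by
              intro J hk
              rw [hbl j J k hk] at h
              exact absurd h (by simp)
            simp only [v, h, if_true, Option.elim_none, sub_self]
            symm
            apply Finset.sum_eq_zero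
            intro J _
            rw [if_neg (h2 J)]
          · simp only [v, h, Option.elim_some]
            rw [if_neg (by simp), sub_zero, Finset.sum_eq_single J]
            · rw [if_pos (hbl' j k J h)]
            · intro J' _ hJ'
              rw [if_neg]
              intro hk
              rw [hbl j J' k hk] at h
              exact hJ' (Option.some.inj h)
            · intro h'
              exact absurd (Finset.mem_univ J) h'
        simp only [h1]
        have h2 : ∀ k : (j : Fin D) → Fin (n j),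
            ∏ j, ∑ J : 𝒥 j, (if k j ∈ (J : Finset (Fin (n j))) then
              ((Real.log (y j J) : ℝ) : ℂ) else 0) =
            ∑ J : (j : Fin D) → 𝒥 j, ∏ j, (if k j ∈ (J j : Finset (Fin (n j))) then
              ((Real.log (y j (J j)) : ℝ) : ℂ) else 0) := by
          intro k
          rw [Finset.prod_univ_sum, Fintype.piFinset_univ]
        simp only [h2, Finset.mul_sum]
        rw [Finset.sum_comm]
        apply Finset.sum_eq_zero
        intro J _
        have h3 : ∀ k : (j : Fin D) → Fin (n j),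
            a₀ (fun j => (k j).succ) * ∏ j, (if k j ∈ (J j : Finset (Fin (n j))) then
              ((Real.log (y j (J j)) : ℝ) : ℂ) else 0) =
            if k ∈ Fintype.piFinset (fun j => (J j : Finset (Fin (n j)))) then
              a₀ (fun j => (k j).succ) * ∏ j, ((Real.log (y j (J j)) : ℝ) : ℂ) else 0 := by
          intro k
          by_cases hk : k ∈ Fintype.piFinset (fun j => (J j : Finset (Fin (n j))))
          · rw [if_pos hk]
            rw [Fintype.mem_piFinset] at hk
            congr 1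
            apply Finset.prod_congr rfl
            intro j _
            rw [if_pos (hk j)]
          · rw [if_neg hk]
            rw [Fintype.mem_piFinset] at hk
            push Not at hk
            obtain ⟨j, hj⟩ := hk
            rw [Finset.prod_eq_zero (Finset.mem_univ j) (if_neg hj), mul_zero]
        simp only [h3]
        rw [← Finset.sum_filter, Finset.filter_mem_eq_inter, Finset.univ_inter,
          ← Finset.sum_mul, hadm.2 (fun j => (J j : Finset (Fin (n j)))) (fun j => (J j).2),
          zero_mul]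
    · intro y _ y' _ hyy
      funext j J
      obtain ⟨k, hk⟩ := (hadm.1 j).1 J J.2
      have h1 : (bl j k).elim s₀ (fun J => y j J) = (bl j k).elim s₀ (fun J => y' j J) :=
        congrFun (congrFun hyy j) k
      rw [hbl j J k hk] at h1
      exact h1

end Pool.Agent.Helper13K9.BL
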