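import Pool.Agent.Helper13K9.BL.Bil
import Pool.Agent.TH910.LR.Inst

/-!
# Bilinear equations: combinations of logarithms
-/

set_option autoImplicit false

namespace Pool.Agent.Helper13K9.BL

open Module Finset Matrix
open Pool.Agent.W254.PA (Hyp)
open Pool.Agent.TH910.LR
open Pool.Agent.H301R2.SSE (QB mem_QB Lt Lt_rep Lt_mul Lt_alg Lt_log)

/-- the solutions of a bilinear equation with entries in `A` -/
def BilSol {E : Type*} [Field E] {m n : ℕ} (A : Finset E) (C : Matrix (Fin m) (Fin n) E)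
    (b : Fin n → E) (f : (Fin m → E) → E) : Set ((Fin m → E) × (Fin n → E)) :=
  {r | (∀ i, r.1 i ∈ A) ∧ (∀ j, r.2 j ∈ A) ∧ (r.1 ᵥ* C + b) ⬝ᵥ r.2 = f r.1}

theorem bilSol_finite {E : Type*} [Field E] {m n : ℕ} (A : Finset E) (C : Matrix (Fin m) (Fin n) E)
    (b : Fin n → E) (f : (Fin m → E) → E) : (BilSol A C b f).Finite := by
  classical
  refine Set.Finite.subset (Finset.finite_toSet
    ((Fintype.piFinset fun _ : Fin m => A) ×ˢ (Fintype.piFinset fun _ : Fin n => A))) ?_
  intro r hr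
  rw [Finset.mem_coe, Finset.mem_product, Fintype.mem_piFinset, Fintype.mem_piFinset]
  exact ⟨hr.1, hr.2.1⟩

theorem bil_gen {κ E : Type*} [Field κ] [Field E] [Algebra κ E] [Countable κ] [Uncountable E]
    [DecidableEq κ] {L : Submodule κ E} (hL : Hyp L)
    {B : Type*} [DecidableEq B] (w : B → E) (hw : LinearIndependent κ w) (hwL : ∀ b, w b ∈ L)
    {m n : ℕ} (F : Finset κ) (hF : F.Nonempty) (A : Finset E) (hA : A.Nonempty)
    (α : E → (B →₀ κ)) (hα : ∀ z ∈ A, Finsupp.linearCombination κ w (α z) = z)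
    (hαF : ∀ z ∈ A, ∀ b, α z b ∈ F) (C : Matrix (Fin m) (Fin n) E) (b₀ : Fin n → E)
    (f : (Fin m → E) → E) :
    (BilSol A C b₀ f).ncard ≤ A.card ^ (m + n - C.rank) *
      (F.card + 1) ^ (m * (m * m) + n * (n * n)) * (F.card * F.card) ^ (n * n) := by
  classical
  have hfin := bilSol_finite A C b₀ f
  let g : (Fin m → E) × (Fin n → E) → (Fin m → (B →₀ κ)) × (Fin n → (B →₀ κ)) := fun r =>
    (fun i => α (r.1 i), fun j => α (r.2 j))
  have hinj : Set.InjOn g (hfin.toFinset : Set _) := by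
    intro r hr r' hr' h
    rw [Finset.mem_coe, Set.Finite.mem_toFinset] at hr hr'
    have h1 := congrArg Prod.fst h
    have h2 := congrArg Prod.snd h
    refine Prod.ext (funext fun i => ?_) (funext fun j => ?_)
    · rw [← hα _ (hr.1 i), ← hα _ (hr'.1 i)]
      exact congrArg _ (congrFun h1 i)
    · rw [← hα _ (hr.2.1 j), ← hα _ (hr'.2.1 j)]
      exact congrArg _ (congrFun h2 j)
  have hv1 : ∀ {k : ℕ} (x : Fin k → E), (∀ i, x i ∈ A) → vec w (fun i => α (x i)) = x := by
    intro k x hx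
    funext i
    exact hα _ (hx i)
  have h := card_bil hL w hw hwL F hF (A.image α) (hA.image α) (by
    intro a ha b
    obtain ⟨z, hz, rfl⟩ := Finset.mem_image.1 ha
    exact hαF z hz b) C b₀ (fun x => f (vec w x)) (hfin.toFinset.image g) (by
    intro r hr
    obtain ⟨r', hr', rfl⟩ := Finset.mem_image.1 hr
    rw [Set.Finite.mem_toFinset] at hr'
    refine ⟨fun i => Finset.mem_image_of_mem _ (hr'.1 i),
      fun j => Finset.mem_image_of_mem _ (hr'.2.1 j), ?_⟩
    simp only [g]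
    rw [hv1 _ hr'.1, hv1 _ hr'.2.1]
    exact hr'.2.2)
  rw [Finset.card_image_of_injOn hinj, ← Set.ncard_eq_toFinset_card _ hfin] at h
  refine h.trans ?_
  gcongr
  exact Finset.card_image_le

/-- **Bilinear equations between combinations of logarithms of algebraic numbers.** -/
theorem bil_complex {B : Type} (ℓ : B → ℂ) (hℓ : ∀ b, IsAlgebraic ℚ (Complex.exp (ℓ b)))
    (hli : LinearIndependent ℚ ℓ) (F : Finset ℂ) (hF : ∀ c ∈ F, IsAlgebraic ℚ c)
    (A : Finset ℂ) (hA : A.Nonempty) (hAF : ∀ z ∈ A, IsComb ℓ F z) {m n : ℕ}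
    (C : Matrix (Fin m) (Fin n) ℂ) (b₀ : Fin n → ℂ) (f : (Fin m → ℂ) → ℂ) :
    (BilSol A C b₀ f).ncard ≤ A.card ^ (m + n - C.rank) *
      (F.card + 1) ^ (m * (m * m) + n * (n * n)) * (F.card * F.card) ^ (n * n) := by
  classical
  have := countable_alg (E := ℂ)
  have hex : ∀ z : ℂ, ∃ α : Option B →₀ (algebraicClosure ℚ ℂ : IntermediateField ℚ ℂ), z ∈ A →
      (∀ b, α b ∈ F.image tr) ∧
      Finsupp.linearCombination (algebraicClosure ℚ ℂ : IntermediateField ℚ ℂ)
        (fun o : Option B => (o.elim 1 ℓ : ℂ)) α = z := by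
    intro z
    by_cases hz : z ∈ A
    · obtain ⟨α, h1, h2⟩ := exists_coeffs ℓ F hF z (hAF z hz)
      exact ⟨α, fun _ => ⟨h1, h2⟩⟩
    · exact ⟨0, fun h => absurd h hz⟩
  choose α hα using hex
  have hFne : (F.image (tr (E := ℂ))).Nonempty := by
    obtain ⟨z, hz⟩ := hA
    obtain ⟨c₀, hc₀, -⟩ := hAF z hz
    exact ⟨tr c₀, Finset.mem_image_of_mem _ hc₀⟩
  have h := bil_gen hyp_complex (fun o : Option B => (o.elim 1 ℓ : ℂ))
    (Pool.Agent.W254.HP.opt_indep ℓ hℓ hli) (by
      intro o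
      cases o with
      | none => exact Lt_alg isAlgebraic_one
      | some b => exact Lt_log (hℓ b)) (F.image tr) hFne A hA α (fun z hz => (hα z hz).2)
    (fun z hz => (hα z hz).1) C b₀ f
  refine h.trans ?_
  have hc : (F.image (tr (E := ℂ))).card ≤ F.card := Finset.card_image_le
  gcongr

end Pool.Agent.Helper13K9.BL
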