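import Pool.Agent.Helper13K9.BL.Cx

/-!
# The number of values of a bilinear form
-/

set_option autoImplicit false

namespace Pool.Agent.Helper13K9.BL

open Module Finset Matrix

theorem energy {X Y : Type*} [DecidableEq Y] (s : Finset X) (φ : X → Y) :
    s.card ^ 2 ≤ (s.image φ).card * ((s ×ˢ s).filter fun r => φ r.1 = φ r.2).card := by
  classical
  have h1 : s.card = ∑ v ∈ s.image φ, (s.filter fun x => φ x = v).card :=
    Finset.card_eq_sum_card_fiberwise fun x hx => Finset.mem_image_of_mem _ hx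
  have h2 : ((s ×ˢ s).filter fun r => φ r.1 = φ r.2).card =
      ∑ v ∈ s.image φ, (s.filter fun x => φ x = v).card ^ 2 := by
    rw [Finset.card_eq_sum_card_fiberwise (f := fun r : X × X => φ r.1) (t := s.image φ)]
    · apply Finset.sum_congr rfl
      intro v _
      rw [sq, ← Finset.card_product]
      congr 1
      ext r
      simp only [Finset.mem_filter, Finset.mem_product]
      constructor
      · rintro ⟨⟨⟨h3, h4⟩, h5⟩, h6⟩
        exact ⟨⟨h3, h6⟩, ⟨h4, h5 ▸ h6⟩⟩
      · rintro ⟨⟨h3, h4⟩, ⟨h5, h6⟩⟩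
        exact ⟨⟨⟨h3, h5⟩, h4.trans h6.symm⟩, h4⟩
    · intro r hr
      rw [Finset.mem_coe, Finset.mem_filter, Finset.mem_product] at hr
      exact Finset.mem_image_of_mem _ hr.1.1
  rw [h2]
  conv_lhs => rw [h1]
  exact sq_sum_le_card_mul_sum_sq

variable {E : Type*} [Field E]

/-- the difference of two copies of a form -/
def dbl {m n : ℕ} (C : Matrix (Fin m) (Fin n) E) : Matrix (Fin (m + m)) (Fin (n + n)) E :=
  Matrix.of fun i j => Fin.addCases (fun i => Fin.addCases (fun j => C i j) (fun _ => 0) j)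
    (fun i => Fin.addCases (fun _ => 0) (fun j => -C i j) j) i

theorem dbl_mulVec {m n : ℕ} (C : Matrix (Fin m) (Fin n) E) (v v' : Fin n → E) :
    dbl C *ᵥ Fin.append v v' = Fin.append (C *ᵥ v) (-(C *ᵥ v')) := by
  funext i
  refine Fin.addCases (fun i => ?_) (fun i => ?_) i
  · simp [-Fin.natAdd_eq_addNat, dbl, Matrix.mulVec, dotProduct, Fin.sum_univ_add]
  · simp [-Fin.natAdd_eq_addNat, dbl, Matrix.mulVec, dotProduct, Fin.sum_univ_add]

theorem append_dotProduct {n : ℕ} (a a' b b' : Fin n → E) :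
    Fin.append a a' ⬝ᵥ Fin.append b b' = a ⬝ᵥ b + a' ⬝ᵥ b' := by
  simp [-Fin.natAdd_eq_addNat, dotProduct, Fin.sum_univ_add]

theorem two_mul_rank_le {m n : ℕ} (C : Matrix (Fin m) (Fin n) E) : 2 * C.rank ≤ (dbl C).rank := by
  classical
  have h1 := LinearMap.finrank_range_add_finrank_ker C.mulVecLin
  have h2 := LinearMap.finrank_range_add_finrank_ker (dbl C).mulVecLin
  rw [Module.finrank_fintype_fun_eq_card, Fintype.card_fin] at h1 h2
  let p₁ : (Fin (n + n) → E) →ₗ[E] (Fin n → E) := LinearMap.funLeft E E (Fin.castAdd n)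
  let p₂ : (Fin (n + n) → E) →ₗ[E] (Fin n → E) := LinearMap.funLeft E E (Fin.natAdd n)
  have happ : ∀ v : Fin (n + n) → E, v = Fin.append (p₁ v) (p₂ v) := by
    intro v
    funext i
    refine Fin.addCases (fun i => ?_) (fun i => ?_) i <;> simp [-Fin.natAdd_eq_addNat, p₁, p₂, LinearMap.funLeft_apply]
  have hk : ∀ v ∈ LinearMap.ker (dbl C).mulVecLin,
      p₁ v ∈ LinearMap.ker C.mulVecLin ∧ p₂ v ∈ LinearMap.ker C.mulVecLin := by
    intro v hv
    rw [LinearMap.mem_ker, Matrix.mulVecLin_apply] at hv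
    rw [happ v, dbl_mulVec] at hv
    constructor
    · rw [LinearMap.mem_ker, Matrix.mulVecLin_apply]
      funext i
      have := congrFun hv (Fin.castAdd m i)
      simpa [-Fin.natAdd_eq_addNat] using this
    · rw [LinearMap.mem_ker, Matrix.mulVecLin_apply]
      funext i
      have := congrFun hv (Fin.natAdd m i)
      simpa [-Fin.natAdd_eq_addNat] using this
  let Φ : LinearMap.ker (dbl C).mulVecLin →ₗ[E]
      (LinearMap.ker C.mulVecLin × LinearMap.ker C.mulVecLin) :=
    LinearMap.prod
      ((p₁.comp (LinearMap.ker (dbl C).mulVecLin).subtype).codRestrict _ fun v => (hk v v.2).1)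
      ((p₂.comp (LinearMap.ker (dbl C).mulVecLin).subtype).codRestrict _ fun v => (hk v v.2).2)
  have hinj : Function.Injective Φ := by
    intro v v' h
    have h3 : p₁ v = p₁ v' := congrArg (fun z => ((z.1 : LinearMap.ker C.mulVecLin) : Fin n → E)) h
    have h4 : p₂ v = p₂ v' := congrArg (fun z => ((z.2 : LinearMap.ker C.mulVecLin) : Fin n → E)) h
    apply Subtype.ext
    rw [happ (v : Fin (n + n) → E), happ (v' : Fin (n + n) → E), h3, h4]
  have h5 := LinearMap.finrank_le_finrank_of_injective hinj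
  rw [Module.finrank_prod] at h5
  have h6 : finrank E (LinearMap.range C.mulVecLin) = C.rank := rfl
  have h7 : finrank E (LinearMap.range (dbl C).mulVecLin) = (dbl C).rank := rfl
  omega

/-- the values of a bilinear form at points with coordinates in `A` -/
def Values {m n : ℕ} (A : Finset E) (C : Matrix (Fin m) (Fin n) E) : Set E :=
  {z | ∃ (x : Fin m → E) (y : Fin n → E), (∀ i, x i ∈ A) ∧ (∀ j, y j ∈ A) ∧ z = (x ᵥ* C) ⬝ᵥ y}

theorem card_values {m n : ℕ} (A : Finset E) (hA : A.Nonempty) (C : Matrix (Fin m) (Fin n) E)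
    (K : ℕ) (hK : (BilSol A (dbl C) 0 0).ncard ≤ A.card ^ (m + m + (n + n) - (dbl C).rank) * K) :
    A.card ^ (2 * C.rank) ≤ K * (Values A C).ncard := by
  classical
  let s : Finset ((Fin m → E) × (Fin n → E)) :=
    (Fintype.piFinset fun _ : Fin m => A) ×ˢ (Fintype.piFinset fun _ : Fin n => A)
  let φ : (Fin m → E) × (Fin n → E) → E := fun r => (r.1 ᵥ* C) ⬝ᵥ r.2
  have hs : s.card = A.card ^ (m + n) := by
    rw [Finset.card_product, Fintype.card_piFinset, Fintype.card_piFinset]
    simp [pow_add]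
  have hv : (s.image φ).card = (Values A C).ncard := by
    rw [← Set.ncard_coe_finset]
    congr 1
    ext z
    simp only [Finset.coe_image, Set.mem_image, Finset.mem_coe, Values, Set.mem_ofPred_eq]
    constructor
    · rintro ⟨r, hr, rfl⟩
      rw [Finset.mem_product, Fintype.mem_piFinset, Fintype.mem_piFinset] at hr
      exact ⟨r.1, r.2, hr.1, hr.2, rfl⟩
    · rintro ⟨x, y, hx, hy, rfl⟩
      refine ⟨(x, y), ?_, rfl⟩
      rw [Finset.mem_product, Fintype.mem_piFinset, Fintype.mem_piFinset]
      exact ⟨hx, hy⟩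
  have h1 := energy s φ
  have h2 : ((s ×ˢ s).filter fun r => φ r.1 = φ r.2).card ≤ (BilSol A (dbl C) 0 0).ncard := by
    rw [← Set.ncard_coe_finset]
    refine Set.ncard_le_ncard_of_injOn
      (fun r => (Fin.append r.1.1 r.2.1, Fin.append r.1.2 r.2.2)) ?_ ?_ (bilSol_finite _ _ _ _)
    · intro r hr
      rw [Finset.mem_coe, Finset.mem_filter, Finset.mem_product, Finset.mem_product,
        Finset.mem_product, Fintype.mem_piFinset, Fintype.mem_piFinset, Fintype.mem_piFinset,
        Fintype.mem_piFinset] at hr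
      obtain ⟨⟨⟨h3, h4⟩, ⟨h5, h6⟩⟩, h7⟩ := hr
      refine ⟨?_, ?_, ?_⟩
      · intro i
        refine Fin.addCases (fun i => ?_) (fun i => ?_) i
        · simpa [-Fin.natAdd_eq_addNat] using h3 i
        · simpa [-Fin.natAdd_eq_addNat] using h5 i
      · intro i
        refine Fin.addCases (fun i => ?_) (fun i => ?_) i
        · simpa [-Fin.natAdd_eq_addNat] using h4 i
        · simpa [-Fin.natAdd_eq_addNat] using h6 i
      · simp only
        rw [add_zero, ← dotProduct_mulVec, dbl_mulVec, append_dotProduct, dotProduct_neg,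
          dotProduct_mulVec, dotProduct_mulVec]
        have h8 : (r.1.1 ᵥ* C) ⬝ᵥ r.1.2 = (r.2.1 ᵥ* C) ⬝ᵥ r.2.2 := h7
        rw [h8]
        simp
    · intro r _ r' _ h
      have h3 := congrArg Prod.fst h
      have h4 := congrArg Prod.snd h
      simp only at h3 h4
      have e1 : r.1.1 = r'.1.1 := by
        funext i
        have := congrFun h3 (Fin.castAdd m i)
        simpa [-Fin.natAdd_eq_addNat] using this
      have e2 : r.2.1 = r'.2.1 := by
        funext i
        have := congrFun h3 (Fin.natAdd m i)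
        simpa [-Fin.natAdd_eq_addNat] using this
      have e3 : r.1.2 = r'.1.2 := by
        funext i
        have := congrFun h4 (Fin.castAdd n i)
        simpa [-Fin.natAdd_eq_addNat] using this
      have e4 : r.2.2 = r'.2.2 := by
        funext i
        have := congrFun h4 (Fin.natAdd n i)
        simpa [-Fin.natAdd_eq_addNat] using this
      exact Prod.ext (Prod.ext e1 e3) (Prod.ext e2 e4)
  have hA1 : 0 < A.card := hA.card_pos
  have h8 := two_mul_rank_le C
  have h9 : (dbl C).rank ≤ m + m + (n + n) := by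
    have h10 := (dbl C).rank_le_height
    omega
  rw [hs, hv] at h1
  have h11 : (A.card ^ (m + n)) ^ 2 ≤
      (Values A C).ncard * (A.card ^ (m + m + (n + n) - (dbl C).rank) * K) :=
    h1.trans (Nat.mul_le_mul_left _ (h2.trans hK))
  have h12 : (A.card ^ (m + n)) ^ 2 =
      A.card ^ (m + m + (n + n) - (dbl C).rank) * A.card ^ (dbl C).rank := by
    rw [← pow_mul, ← pow_add]
    congr 1
    omega
  rw [h12] at h11
  have h13 : A.card ^ (dbl C).rank ≤ K * (Values A C).ncard := by
    have h14 : A.card ^ (m + m + (n + n) - (dbl C).rank) * A.card ^ (dbl C).rank ≤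
        A.card ^ (m + m + (n + n) - (dbl C).rank) * (K * (Values A C).ncard) := by
      refine h11.trans (le_of_eq ?_)
      ring
    exact Nat.le_of_mul_le_mul_left h14 (by positivity)
  exact (Nat.pow_le_pow_right hA1 h8).trans h13

end Pool.Agent.Helper13K9.BL
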