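import Pool.Agent.Helper13K9.BL.Ex
import Pool.Agent.Helper13K9.BL.Val

/-!
# Affine subspaces, sums of dilates
-/

set_option autoImplicit false

namespace Pool.Agent.Helper13K9.BL

open Module Finset Matrix
open Pool.Agent.W254.PA (Hyp)
open Pool.Agent.TH910.LR
open Pool.Agent.H301R2.SSE (QB mem_QB Lt Lt_rep Lt_mul Lt_alg Lt_log)

/-- the logarithms of the coordinates -/
noncomputable def lgs {n : ℕ} (p : Fin n → ℕ) : Fin n → ℂ := fun i => ((Real.log (p i) : ℝ) : ℂ)

/-- the indicator vector of the indices with the same prime -/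
noncomputable def same {n : ℕ} (p : Fin n → ℕ) (i : Fin n) : Fin n → ℂ :=
  fun j => if p j = p i then 1 else 0

/-- the coordinates which are not free -/
noncomputable def fixedPart {n : ℕ} (V : Submodule ℂ (Fin n → ℂ)) (p : Fin n → ℕ) :
    Fin n → Option ℕ :=
  open Classical in fun i => if same p i ∈ V then none else some (p i)

/-- the space `V` and the translation `τ` in projective coordinates -/
def proj {n : ℕ} (V : Submodule ℂ (Fin n → ℂ)) (τ : Fin n → ℂ) :
    Submodule ℂ (Fin (n + 1) → ℂ) where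
  carrier := {v | (fun i : Fin n => v i.succ - v 0 * τ i) ∈ V}
  add_mem' := by
    intro a b ha hb
    have h := V.add_mem ha hb
    have e : (fun i : Fin n => (a + b) i.succ - (a + b) 0 * τ i) =
        (fun i : Fin n => a i.succ - a 0 * τ i) + fun i : Fin n => b i.succ - b 0 * τ i := by
      funext i
      simp only [Pi.add_apply]
      ring
    change (fun i : Fin n => (a + b) i.succ - (a + b) 0 * τ i) ∈ V
    rw [e]
    exact h
  zero_mem' := by
    change (fun i : Fin n => (0 : Fin (n + 1) → ℂ) i.succ - (0 : Fin (n + 1) → ℂ) 0 * τ i) ∈ V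
    have e : (fun i : Fin n => (0 : Fin (n + 1) → ℂ) i.succ - (0 : Fin (n + 1) → ℂ) 0 * τ i) =
        0 := by
      funext i
      simp
    rw [e]
    exact V.zero_mem
  smul_mem' := by
    intro c a ha
    have h := V.smul_mem c ha
    have e : (fun i : Fin n => (c • a) i.succ - (c • a) 0 * τ i) =
        c • fun i : Fin n => a i.succ - a 0 * τ i := by
      funext i
      simp only [Pi.smul_apply, smul_eq_mul]
      ring
    change (fun i : Fin n => (c • a) i.succ - (c • a) 0 * τ i) ∈ V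
    rw [e]
    exact h

theorem mem_proj {n : ℕ} {V : Submodule ℂ (Fin n → ℂ)} {τ : Fin n → ℂ} {v : Fin (n + 1) → ℂ} :
    v ∈ proj V τ ↔ (fun i : Fin n => v i.succ - v 0 * τ i) ∈ V := Iff.rfl

/-- the weights -/
noncomputable def wP : Option Nat.Primes → ℂ :=
  fun o => (o.elim 1 (fun p : Nat.Primes => (Real.log (p : ℕ) : ℂ)) : ℂ)

theorem wP_indep : LinearIndependent (algebraicClosure ℚ ℂ : IntermediateField ℚ ℂ) wP :=
  Pool.Agent.W254.HP.opt_indep _ Pool.Agent.W254.HP.log_prime_alg
    Pool.Agent.W254.HP.log_primes_indep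

theorem wP_mem (b : Option Nat.Primes) : wP b ∈ (Lt : Submodule _ ℂ) := by
  cases b with
  | none => exact Lt_alg isAlgebraic_one
  | some b => exact Lt_log (Pool.Agent.W254.HP.log_prime_alg b)

/-- the prime -/
def toP (q : ℕ) : Nat.Primes := if h : q.Prime then ⟨q, h⟩ else ⟨2, Nat.prime_two⟩

theorem toP_coe {q : ℕ} (hq : q.Prime) : ((toP q : Nat.Primes) : ℕ) = q := by
  rw [toP, dif_pos hq]

theorem ind_mem_proj {n : ℕ} {V : Submodule ℂ (Fin n → ℂ)} {τ : Fin n → ℂ}
    {J : Finset (Fin n)} : ind ℂ J ∈ proj V τ ↔ iv J ∈ V := by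
  rw [mem_proj]
  have e : (fun i : Fin n => (ind ℂ J) i.succ - (ind ℂ J) 0 * τ i) = iv J := by
    funext i
    simp [ind, iv]
  rw [e]

theorem hat_mem_proj {n : ℕ} {V : Submodule ℂ (Fin n → ℂ)} {τ : Fin n → ℂ} {p : Fin n → ℕ}
    (hp : ∀ i, (p i).Prime) (h : lgs p - τ ∈ V) : hat wP (fun i => toP (p i)) ∈ proj V τ := by
  rw [mem_proj]
  convert h using 1
  funext i
  simp only [hat, Fin.cons_succ, Fin.cons_zero, wP, Option.elim_some, Option.elim_none, one_mul,
    toP_coe (hp i), Pi.sub_apply, lgs]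

theorem same_iff {n : ℕ} {V : Submodule ℂ (Fin n → ℂ)} {τ : Fin n → ℂ} {p : Fin n → ℕ}
    (hp : ∀ i, (p i).Prime) (i : Fin n) :
    ind ℂ (blk (fun i => toP (p i)) i) ∈ proj V τ ↔ same p i ∈ V := by
  rw [ind_mem_proj]
  have e : iv (blk (fun i => toP (p i)) i) = same p i := by
    funext j
    simp only [iv, same, mem_blk]
    have h : (toP (p j) = toP (p i)) ↔ (p j = p i) := by
      constructor
      · intro h
        rw [← toP_coe (hp j), ← toP_coe (hp i), h]
      · intro h
        rw [h]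
    simp only [h]
  rw [e]

/-- **The fixed parts.** -/
theorem fixed_card {n : ℕ} (V : Submodule ℂ (Fin n → ℂ)) (τ : Fin n → ℂ) :
    (fixedPart V '' {p : Fin n → ℕ | (∀ i, (p i).Prime) ∧ lgs p - τ ∈ V}).Finite ∧
    (fixedPart V '' {p : Fin n → ℕ | (∀ i, (p i).Prime) ∧ lgs p - τ ∈ V}).ncard ≤ pc n := by
  classical
  have := countable_alg (E := ℂ)
  set Z := fixedPart V '' {p : Fin n → ℕ | (∀ i, (p i).Prime) ∧ lgs p - τ ∈ V} with hZ
  have hall : ∀ s : Finset (Fin n → Option ℕ), (s : Set (Fin n → Option ℕ)) ⊆ Z →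
      s.card ≤ pc n := by
    intro s hs
    have hex : ∀ g : Fin n → Option ℕ, g ∈ s → ∃ p : Fin n → ℕ, ((∀ i, (p i).Prime) ∧
        lgs p - τ ∈ V) ∧ fixedPart V p = g := fun g hg => hs hg
    choose! P hP hPg using hex
    let G : (Fin n → Option ℕ) → (Fin n → Nat.Primes) := fun g i => toP (P g i)
    have h1 := card_parts hyp_complex wP wP_indep wP_mem (proj V τ) (s.image G) (by
      intro b hb
      obtain ⟨g, hg, rfl⟩ := Finset.mem_image.1 hb
      exact hat_mem_proj (hP g hg).1 (hP g hg).2)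
    refine le_trans ?_ h1
    rw [Finset.image_image]
    apply Finset.card_le_card_of_injOn (fun g => part (proj V τ) (G g))
    · intro g hg
      exact Finset.mem_image_of_mem _ hg
    · intro g hg g' hg' h
      have h2 : ∀ g ∈ s, (fun i => (part (proj V τ) (G g) i).map fun q : Nat.Primes => (q : ℕ)) =
          g := by
        intro g hg
        conv_rhs => rw [← hPg g hg]
        funext i
        simp only [part, fixedPart, G]
        by_cases hi : same (P g) i ∈ V
        · rw [if_pos ((same_iff (hP g hg).1 i).2 hi), if_pos hi]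
          rfl
        · rw [if_neg fun h' => hi ((same_iff (hP g hg).1 i).1 h'), if_neg hi]
          simp [toP_coe ((hP g hg).1 i)]
      have h3 : part (proj V τ) (G g) = part (proj V τ) (G g') := h
      rw [← h2 g hg, ← h2 g' hg', h3]
  have hfin : Z.Finite := by
    by_contra hinf
    obtain ⟨u, hu1, hu2⟩ := Set.Infinite.exists_subset_card_eq hinf (pc n + 1)
    have := hall u hu1
    omega
  refine ⟨hfin, ?_⟩
  rw [Set.ncard_eq_toFinset_card _ hfin]
  exact hall _ (by simp)

/-- systems of disjoint nonempty sets with indicator vectors in `V` -/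
def AdmV {n : ℕ} (V : Submodule ℂ (Fin n → ℂ)) (𝒥 : Finset (Finset (Fin n))) : Prop :=
  ((∀ J ∈ 𝒥, J.Nonempty) ∧ ∀ J ∈ 𝒥, ∀ J' ∈ 𝒥, J ≠ J' → Disjoint J J') ∧
    ∀ J ∈ 𝒥, (fun i => if i ∈ J then (1 : ℂ) else 0) ∈ V

/-- the largest number of disjoint sets -/
noncomputable def vexp {n : ℕ} (V : Submodule ℂ (Fin n → ℂ)) : ℕ :=
  open Classical in (Finset.univ.filter (AdmV V)).sup Finset.card

theorem le_vexp {n : ℕ} {V : Submodule ℂ (Fin n → ℂ)} {𝒥 : Finset (Finset (Fin n))}
    (h : AdmV V 𝒥) : 𝒥.card ≤ vexp V := by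
  classical
  exact Finset.le_sup (f := Finset.card) (Finset.mem_filter.2 ⟨Finset.mem_univ _, h⟩)

theorem exists_vexp {n : ℕ} (V : Submodule ℂ (Fin n → ℂ)) : ∃ 𝒥, AdmV V 𝒥 ∧ 𝒥.card = vexp V := by
  classical
  have hne : (Finset.univ.filter (AdmV V)).Nonempty :=
    ⟨∅, Finset.mem_filter.2 ⟨Finset.mem_univ _, ⟨⟨fun J hJ => absurd hJ (Finset.notMem_empty _),
      fun J hJ => absurd hJ (Finset.notMem_empty _)⟩,
      fun J hJ => absurd hJ (Finset.notMem_empty _)⟩⟩⟩
  obtain ⟨𝒥, h𝒥, he⟩ := Finset.exists_mem_eq_sup _ hne Finset.card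
  exact ⟨𝒥, (Finset.mem_filter.1 h𝒥).2, he.symm⟩

theorem vsol_finite {n : ℕ} (S : Finset ℕ) (P : (Fin n → ℕ) → Prop) :
    {p : Fin n → ℕ | (∀ i, p i ∈ S) ∧ P p}.Finite := by
  classical
  refine Set.Finite.subset (Finset.finite_toSet (Fintype.piFinset fun _ : Fin n => S)) ?_
  intro x hx
  rw [Finset.mem_coe, Fintype.mem_piFinset]
  exact hx.1

/-- **The number of points.** -/
theorem space_card {n : ℕ} (V : Submodule ℂ (Fin n → ℂ)) (τ : Fin n → ℂ) (S : Finset ℕ)
    (hS : ∀ p ∈ S, p.Prime) (hS0 : S.Nonempty) :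
    {p : Fin n → ℕ | (∀ i, p i ∈ S) ∧ lgs p - τ ∈ V}.ncard ≤ cst n * S.card ^ vexp V := by
  classical
  have := countable_alg (E := ℂ)
  have hfin := vsol_finite S (fun p : Fin n → ℕ => lgs p - τ ∈ V)
  rw [Set.ncard_eq_toFinset_card _ hfin]
  set s := hfin.toFinset with hs
  have hsm : ∀ p ∈ s, (∀ i, p i ∈ S) ∧ lgs p - τ ∈ V := fun p hp => by
    rw [hs, Set.Finite.mem_toFinset] at hp
    exact hp
  rcases s.eq_empty_or_nonempty with he | hne
  · rw [he]; simp
  let g : (Fin n → ℕ) → (Fin n → Nat.Primes) × Unit := fun p => (fun i => toP (p i), ())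
  have hinj : Set.InjOn g (s : Set _) := by
    intro p hp p' hp' h
    funext i
    have h1 := congrFun (congrArg Prod.fst h) i
    rw [← toP_coe (hS _ ((hsm p hp).1 i)), ← toP_coe (hS _ ((hsm p' hp').1 i))]
    exact congrArg Subtype.val h1
  obtain ⟨𝒥, s', hs's, hs'ne, hfam, hind, hcard⟩ := first_step hyp_complex wP wP_indep wP_mem
    (fun _ : Unit => proj V τ) (S.image toP) (s.image g) (by
      intro x hx
      obtain ⟨p, hp, rfl⟩ := Finset.mem_image.1 hx
      exact ⟨fun i => Finset.mem_image_of_mem _ ((hsm p hp).1 i),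
        hat_mem_proj (fun i => hS _ ((hsm p hp).1 i)) (hsm p hp).2⟩) (hne.image g)
  rw [Finset.card_image_of_injOn hinj] at hcard
  obtain ⟨x, hx⟩ := hs'ne
  have hadm : AdmV V 𝒥 := ⟨hfam, fun J hJ => by
    have h1 := ind_mem_proj.1 (hind x hx J hJ)
    exact h1⟩
  have h1 : (s'.image Prod.snd).card ≤ 1 := Finset.card_le_one.2 fun a _ b _ => rfl
  have hS1 : 0 < S.card := hS0.card_pos
  calc s.card ≤ cst n * (S.image toP).card ^ 𝒥.card * (s'.image Prod.snd).card := hcard
    _ ≤ cst n * (S.image toP).card ^ 𝒥.card * 1 := Nat.mul_le_mul_left _ h1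
    _ = cst n * (S.image toP).card ^ 𝒥.card := mul_one _
    _ ≤ cst n * S.card ^ 𝒥.card :=
      Nat.mul_le_mul_left _ (Nat.pow_le_pow_left Finset.card_image_le _)
    _ ≤ cst n * S.card ^ vexp V :=
      Nat.mul_le_mul_left _ (Nat.pow_le_pow_right hS1 (le_vexp hadm))

/-- **The exponent is optimal.** -/
theorem space_sharp {n : ℕ} (V : Submodule ℂ (Fin n → ℂ)) (S : Finset ℕ) (hS0 : S.Nonempty) :
    ∃ τ : Fin n → ℂ, S.card ^ vexp V ≤ {p : Fin n → ℕ | (∀ i, p i ∈ S) ∧ lgs p - τ ∈ V}.ncard := by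
  classical
  obtain ⟨𝒥, hadm, h𝒥⟩ := exists_vexp V
  obtain ⟨s₀, hs₀⟩ := hS0
  let bl : Fin n → Option 𝒥 := fun k =>
    if h : ∃ J : 𝒥, k ∈ (J : Finset (Fin n)) then some h.choose else none
  have hbl : ∀ (J : 𝒥) (k : Fin n), k ∈ (J : Finset (Fin n)) → bl k = some J := by
    intro J k hk
    have h : ∃ J : 𝒥, k ∈ (J : Finset (Fin n)) := ⟨J, hk⟩
    simp only [bl]
    rw [dif_pos h]
    congr 1
    by_contra hne
    have hd := hadm.1.2 _ h.choose.2 _ J.2 fun h' => hne (Subtype.ext h')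
    exact Finset.disjoint_left.1 hd h.choose_spec hk
  have hbl' : ∀ (k : Fin n) (J : 𝒥), bl k = some J → k ∈ (J : Finset (Fin n)) := by
    intro k J h
    simp only [bl] at h
    split_ifs at h with h'
    · rw [← Option.some.inj h]
      exact h'.choose_spec
  let τ : Fin n → ℂ := fun k => if bl k = none then ((Real.log s₀ : ℝ) : ℂ) else 0
  refine ⟨τ, ?_⟩
  let s : Finset (𝒥 → ℕ) := Fintype.piFinset fun _ : 𝒥 => S
  have hs : s.card = S.card ^ vexp V := by
    rw [Fintype.card_piFinset, Finset.prod_const, Finset.card_univ, Fintype.card_coe, h𝒥]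
  rw [← hs, ← Set.ncard_coe_finset]
  refine Set.ncard_le_ncard_of_injOn (fun y k => (bl k).elim s₀ fun J => y J) ?_ ?_
    (vsol_finite S _)
  · intro y hy
    rw [Finset.mem_coe, Fintype.mem_piFinset] at hy
    refine ⟨?_, ?_⟩
    · intro k
      simp only
      rcases h : bl k with _ | J
      · simpa [h] using hs₀
      · simpa [h] using hy J
    · have e : lgs (fun k => (bl k).elim s₀ fun J => y J) - τ =
          ∑ J : 𝒥, ((Real.log (y J) : ℝ) : ℂ) • iv (J : Finset (Fin n)) := by
        funext k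
        rw [Pi.sub_apply, Finset.sum_apply]
        simp only [Pi.smul_apply, smul_eq_mul, lgs, τ]
        rcases h : bl k with _ | J
        · have h2 : ∀ J : 𝒥, k ∉ (J : Finset (Fin n)) := by
            intro J hk
            rw [hbl J k hk] at h
            exact absurd h (by simp)
          simp only [if_true, Option.elim_none, sub_self]
          symm
          apply Finset.sum_eq_zero
          intro J _
          simp only [iv]
          rw [if_neg (h2 J), mul_zero]
        · simp only [Option.elim_some]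
          rw [if_neg (by simp), sub_zero, Finset.sum_eq_single J]
          · simp only [iv]
            rw [if_pos (hbl' k J h), mul_one]
          · intro J' _ hJ'
            simp only [iv]
            rw [if_neg, mul_zero]
            intro hk
            rw [hbl J' k hk] at h
            exact hJ' (Option.some.inj h)
          · intro h'
            exact absurd (Finset.mem_univ J) h'
      rw [e]
      apply V.sum_mem
      intro J _
      exact V.smul_mem _ (hadm.2 J J.2)
  · intro y _ y' _ hyy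
    funext J
    obtain ⟨k, hk⟩ := hadm.1.1 J J.2
    have h1 : (bl k).elim s₀ (fun J => y J) = (bl k).elim s₀ (fun J => y' J) :=
      congrFun hyy k
    rw [hbl J k hk] at h1
    exact h1

/-- **Sums of dilates.** -/
theorem dilates {n : ℕ} (t : Fin n → ℂ) (ht : ∀ i, t i ≠ 0) (S : Finset ℕ)
    (hS : ∀ p ∈ S, p.Prime) (hS0 : S.Nonempty) :
    S.card ^ n ≤ cst (n + n) * {z : ℂ | ∃ p : Fin n → ℕ, (∀ i, p i ∈ S) ∧
      z = ∑ i, t i * ((Real.log (p i) : ℝ) : ℂ)}.ncard := by
  classical
  let s : Finset (Fin n → ℕ) := Fintype.piFinset fun _ : Fin n => S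
  let φ : (Fin n → ℕ) → ℂ := fun p => ∑ i, t i * ((Real.log (p i) : ℝ) : ℂ)
  have hs : s.card = S.card ^ n := by
    rw [Fintype.card_piFinset, Finset.prod_const, Finset.card_univ, Fintype.card_fin]
  have hv : (s.image φ).card = {z : ℂ | ∃ p : Fin n → ℕ, (∀ i, p i ∈ S) ∧
      z = ∑ i, t i * ((Real.log (p i) : ℝ) : ℂ)}.ncard := by
    rw [← Set.ncard_coe_finset]
    congr 1
    ext z
    simp only [Finset.coe_image, Set.mem_image, Finset.mem_coe, Set.mem_ofPred_eq]
    constructor
    · rintro ⟨p, hp, rfl⟩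
      exact ⟨p, Fintype.mem_piFinset.1 hp, rfl⟩
    · rintro ⟨p, hp, rfl⟩
      exact ⟨p, Fintype.mem_piFinset.2 hp, rfl⟩
  have h1 := energy s φ
  let u : Fin (n + n) → ℂ := Fin.append t (-t)
  let V : Submodule ℂ (Fin (n + n) → ℂ) := LinearMap.ker (lf u)
  have h2 : ((s ×ˢ s).filter fun r => φ r.1 = φ r.2).card ≤
      {p : Fin (n + n) → ℕ | (∀ i, p i ∈ S) ∧ lgs p - 0 ∈ V}.ncard := by
    rw [← Set.ncard_coe_finset]
    refine Set.ncard_le_ncard_of_injOn (fun r => Fin.append r.1 r.2) ?_ ?_ (vsol_finite S _)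
    · intro r hr
      rw [Finset.mem_coe, Finset.mem_filter, Finset.mem_product, Fintype.mem_piFinset,
        Fintype.mem_piFinset] at hr
      obtain ⟨⟨h3, h4⟩, h5⟩ := hr
      refine ⟨?_, ?_⟩
      · intro i
        refine Fin.addCases (fun i => ?_) (fun i => ?_) i
        · simpa [-Fin.natAdd_eq_addNat] using h3 i
        · simpa [-Fin.natAdd_eq_addNat] using h4 i
      · rw [sub_zero, LinearMap.mem_ker, lf_apply, dotProduct, Fin.sum_univ_add]
        simp only [u, lgs, Fin.append_left, Fin.append_right, Pi.neg_apply, neg_mul,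
          Finset.sum_neg_distrib]
        exact (sub_eq_add_neg _ _).symm.trans (sub_eq_zero.2 h5)
    · intro r _ r' _ h
      have h3 : Fin.append r.1 r.2 = Fin.append r'.1 r'.2 := h
      have e1 : r.1 = r'.1 := by
        funext i
        have := congrFun h3 (Fin.castAdd n i)
        simpa [-Fin.natAdd_eq_addNat] using this
      have e2 : r.2 = r'.2 := by
        funext i
        have := congrFun h3 (Fin.natAdd n i)
        simpa [-Fin.natAdd_eq_addNat] using this
      exact Prod.ext e1 e2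
  have hu : ∀ i, u i ≠ 0 := by
    intro i
    refine Fin.addCases (fun i => ?_) (fun i => ?_) i
    · simp only [u, Fin.append_left]
      exact ht i
    · simp only [u, Fin.append_right, Pi.neg_apply]
      exact neg_ne_zero.2 (ht i)
  have hexp : vexp V ≤ n := by
    obtain ⟨𝒥, hadm, h𝒥⟩ := exists_vexp V
    rw [← h𝒥]
    have h3 : ∀ J ∈ 𝒥, 2 ≤ J.card := by
      intro J hJ
      have h4 := (hadm.1.1 J hJ).card_pos
      by_contra hcon
      have h5 : J.card = 1 := by omega
      obtain ⟨i, rfl⟩ := Finset.card_eq_one.1 h5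
      have h6 := hadm.2 _ hJ
      rw [LinearMap.mem_ker, lf_apply, dotProduct, Finset.sum_eq_single i] at h6
      · simp at h6
        exact hu i h6
      · intro j _ hj
        simp [hj]
      · intro h'
        exact absurd (Finset.mem_univ i) h'
    have h4 : (𝒥.biUnion id).card = ∑ J ∈ 𝒥, J.card :=
      Finset.card_biUnion fun J hJ J' hJ' hne => hadm.1.2 J hJ J' hJ' hne
    have h5 : (𝒥.biUnion id).card ≤ n + n := (Finset.card_le_univ _).trans (by simp)
    have h6 : ∑ _J ∈ 𝒥, 2 ≤ ∑ J ∈ 𝒥, J.card := Finset.sum_le_sum h3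
    rw [Finset.sum_const, smul_eq_mul] at h6
    omega
  have h3 := space_card V 0 S hS hS0
  have hS1 : 0 < S.card := hS0.card_pos
  rw [hs, hv] at h1
  have h4 : (S.card ^ n) ^ 2 ≤ {z : ℂ | ∃ p : Fin n → ℕ, (∀ i, p i ∈ S) ∧
      z = ∑ i, t i * ((Real.log (p i) : ℝ) : ℂ)}.ncard * (cst (n + n) * S.card ^ n) :=
    h1.trans (Nat.mul_le_mul_left _ (h2.trans (h3.trans
      (Nat.mul_le_mul_left _ (Nat.pow_le_pow_right hS1 hexp)))))
  have h5 : S.card ^ n * S.card ^ n ≤ S.card ^ n * (cst (n + n) * {z : ℂ | ∃ p : Fin n → ℕ,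
      (∀ i, p i ∈ S) ∧ z = ∑ i, t i * ((Real.log (p i) : ℝ) : ℂ)}.ncard) := by
    rw [← sq]
    refine h4.trans (le_of_eq ?_)
    ring
  exact Nat.le_of_mul_le_mul_left h5 (by positivity)

end Pool.Agent.Helper13K9.BL
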