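import Pool.Agent.Helper13K9.BL.Coef

/-!
# The exponent in examples
-/

set_option autoImplicit false

namespace Pool.Agent.Helper13K9.BL

open Module Finset Matrix

/-- the indicator vector -/
noncomputable def iv {n : ℕ} (J : Finset (Fin n)) : Fin n → ℂ := fun i => if i ∈ J then 1 else 0

theorem iv_indep {n : ℕ} (𝒥 : Finset (Finset (Fin n))) (h : Fam 𝒥) :
    LinearIndependent ℂ (fun J : 𝒥 => iv (J : Finset (Fin n))) := by
  classical
  rw [Fintype.linearIndependent_iff]
  intro c hc J
  obtain ⟨i, hi⟩ := h.1 J J.2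
  have h1 := congrFun hc i
  rw [Finset.sum_apply, Finset.sum_eq_single J] at h1
  · simpa [iv, hi] using h1
  · intro J' _ hne
    have hd := h.2 _ J'.2 _ J.2 fun h' => hne (Subtype.ext h')
    have : i ∉ (J' : Finset (Fin n)) := fun h' => Finset.disjoint_left.1 hd h' hi
    simp [iv, this]
  · intro h'
    exact absurd (Finset.mem_univ J) h'

theorem fam_card_le {n : ℕ} (𝒥 : Finset (Finset (Fin n))) (h : Fam 𝒥) :
    𝒥.card ≤ (𝒥.biUnion id).card := by
  classical
  have e : (𝒥.biUnion id).card = ∑ J ∈ 𝒥, J.card :=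
    Finset.card_biUnion fun J hJ J' hJ' hne => h.2 J hJ J' hJ' hne
  rw [e]
  calc 𝒥.card = ∑ _J ∈ 𝒥, 1 := by simp
    _ ≤ ∑ J ∈ 𝒥, J.card := Finset.sum_le_sum fun J hJ => (h.1 J hJ).card_pos

theorem fam_card_le' {n : ℕ} (𝒥 : Finset (Finset (Fin n))) (h : Fam 𝒥) : 𝒥.card ≤ n := by
  classical
  refine (fam_card_le 𝒥 h).trans ?_
  refine (Finset.card_le_univ _).trans (by simp)

theorem fam_bilin {m n : ℕ} (C : Matrix (Fin m) (Fin n) ℂ) (𝒥₀ : Finset (Finset (Fin m)))
    (𝒥₁ : Finset (Finset (Fin n))) (h0 : Fam 𝒥₀) (h1 : Fam 𝒥₁)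
    (h : ∀ I ∈ 𝒥₀, ∀ J ∈ 𝒥₁, ∑ i ∈ I, ∑ j ∈ J, C i j = 0) :
    𝒥₀.card + 𝒥₁.card + C.rank ≤ m + n := by
  classical
  let W : Submodule ℂ (Fin n → ℂ) :=
    Submodule.span ℂ (Set.range fun J : 𝒥₁ => iv (J : Finset (Fin n)))
  have hW : finrank ℂ W = 𝒥₁.card := by
    rw [finrank_span_eq_card (iv_indep 𝒥₁ h1), Fintype.card_coe]
  have hO : 𝒥₀.card ≤ finrank ℂ (orthTo C W) := by
    have hmem : ∀ I : 𝒥₀, iv (I : Finset (Fin m)) ∈ orthTo C W := by
      intro I
      rw [mem_orthTo]
      intro v hv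
      induction hv using Submodule.span_induction with
      | mem v hv =>
        obtain ⟨J, rfl⟩ := hv
        refine Eq.trans ?_ (h I I.2 J J.2)
        simp only [iv, dotProduct, Matrix.mulVec, mul_ite, mul_one, mul_zero]
        rw [Finset.sum_ite_mem, Finset.univ_inter]
        apply Finset.sum_congr rfl
        intro i _
        rw [Finset.sum_ite_mem, Finset.univ_inter]
      | zero => rw [Matrix.mulVec_zero, zero_dotProduct]
      | add x y _ _ hx hy => rw [Matrix.mulVec_add, add_dotProduct, hx, hy, add_zero]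
      | smul c x _ hx => rw [Matrix.mulVec_smul, smul_dotProduct, hx, smul_zero]
    have h4 : LinearIndependent ℂ (fun I : 𝒥₀ => (⟨_, hmem I⟩ : orthTo C W)) :=
      LinearIndependent.of_comp (orthTo C W).subtype (iv_indep 𝒥₀ h0)
    have h5 := h4.fintype_card_le_finrank
    rwa [Fintype.card_coe] at h5
  have h6 := finrank_orthTo C W
  omega

/-- sums of products: one term for each index -/
theorem fam_diag {n : ℕ} (D : ℕ) : ∀ (c : Fin n → ℂ) (𝒥 : Fin (D + 2) → Finset (Finset (Fin n))),
    (∀ j, Fam (𝒥 j)) →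
    (∀ J : Fin (D + 2) → Finset (Fin n), (∀ j, J j ∈ 𝒥 j) →
      (∑ i, open Classical in if ∀ j, i ∈ J j then c i else 0) = 0) →
    ∑ j, (𝒥 j).card + {i | c i ≠ 0}.ncard ≤ (D + 2) * n := by
  classical
  induction D with
  | zero =>
    intro c 𝒥 hF h
    have h1 := fam_bilin (Matrix.diagonal c) (𝒥 0) (𝒥 1) (hF 0) (hF 1) (by
      intro I hI J hJ
      have h2 := h ![I, J] (by
        intro j
        fin_cases j
        · exact hI
        · exact hJ)
      rw [← h2]
      have h3 : ∀ i, (∀ j, i ∈ (![I, J] : Fin 2 → Finset (Fin n)) j) ↔ i ∈ I ∧ i ∈ J := by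
        intro i
        rw [Fin.forall_fin_two]
        rfl
      have h4 : (∑ i, if ∀ j, i ∈ (![I, J] : Fin (0 + 2) → Finset (Fin n)) j then c i else 0) =
          ∑ i, if i ∈ I then (if i ∈ J then c i else 0) else 0 := by
        apply Finset.sum_congr rfl
        intro i _
        by_cases hi : i ∈ I <;> by_cases hj : i ∈ J
        · rw [if_pos ((h3 i).2 ⟨hi, hj⟩), if_pos hi, if_pos hj]
        · rw [if_neg fun h' => hj ((h3 i).1 h').2, if_pos hi, if_neg hj]
        · rw [if_neg fun h' => hi ((h3 i).1 h').1, if_neg hi]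
        · rw [if_neg fun h' => hi ((h3 i).1 h').1, if_neg hi]
      rw [h4, Finset.sum_ite_mem, Finset.univ_inter]
      apply Finset.sum_congr rfl
      intro i _
      by_cases hj : i ∈ J
      · rw [if_pos hj, Finset.sum_eq_single i]
        · rw [Matrix.diagonal_apply_eq]
        · intro j _ hne
          rw [Matrix.diagonal_apply_ne' _ hne]
        · intro h'
          exact absurd hj h'
      · rw [if_neg hj]
        apply Finset.sum_eq_zero
        intro j hj'
        rw [Matrix.diagonal_apply_ne]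
        intro h'
        exact hj (h' ▸ hj'))
    rw [Matrix.rank_diagonal] at h1
    have h2 : {i | c i ≠ 0}.ncard = Fintype.card {i // c i ≠ 0} := by
      rw [Fintype.card_subtype, ← Set.ncard_coe_finset]
      congr 1
      ext i
      simp
    rw [h2, Fin.sum_univ_two (f := fun j : Fin 2 => (𝒥 j).card)]
    omega
  | succ D ih =>
    intro c 𝒥 hF h
    let U : Finset (Fin n) := (𝒥 0).biUnion id
    let c' : Fin n → ℂ := fun i => if i ∈ U then c i else 0
    have h1 := ih c' (fun j => 𝒥 j.succ) (fun j => hF j.succ) (by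
      intro J hJ
      have h2 : ∀ i, (if ∀ j, i ∈ J j then c' i else 0) =
          ∑ J₀ ∈ 𝒥 0, if ∀ j, i ∈ (Fin.cons J₀ J : Fin (D + 3) → Finset (Fin n)) j
            then c i else 0 := by
        intro i
        have h3 : ∀ J₀, (∀ j, i ∈ (Fin.cons J₀ J : Fin (D + 3) → Finset (Fin n)) j) ↔
            i ∈ J₀ ∧ ∀ j, i ∈ J j := by
          intro J₀
          rw [Fin.forall_fin_succ]
          rfl
        simp only [h3]
        by_cases hi : ∀ j, i ∈ J j
        · rw [if_pos hi]
          simp only [c']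
          by_cases hU : i ∈ U
          · rw [if_pos hU]
            obtain ⟨J₀, hJ₀, hiJ₀⟩ := Finset.mem_biUnion.1 hU
            rw [Finset.sum_eq_single J₀]
            · rw [if_pos ⟨hiJ₀, hi⟩]
            · intro J₁ hJ₁ hne
              rw [if_neg]
              rintro ⟨h4, -⟩
              exact Finset.disjoint_left.1 ((hF 0).2 J₁ hJ₁ J₀ hJ₀ hne) h4 hiJ₀
            · intro h4
              exact absurd hJ₀ h4
          · rw [if_neg hU]
            symm
            apply Finset.sum_eq_zero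
            intro J₀ hJ₀
            rw [if_neg]
            rintro ⟨h4, -⟩
            exact hU (Finset.mem_biUnion.2 ⟨J₀, hJ₀, h4⟩)
        · rw [if_neg hi]
          symm
          apply Finset.sum_eq_zero
          intro J₀ _
          rw [if_neg fun h4 => hi h4.2]
      simp only [h2]
      rw [Finset.sum_comm]
      apply Finset.sum_eq_zero
      intro J₀ hJ₀
      apply h
      intro j
      refine Fin.cases ?_ (fun j => ?_) j
      · exact hJ₀
      · exact hJ j)
    have h5 : (𝒥 0).card ≤ U.card := fam_card_le (𝒥 0) (hF 0)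
    have h6 : {i | c i ≠ 0}.ncard ≤ {i | c' i ≠ 0}.ncard + (n - U.card) := by
      have e1 : {i | c i ≠ 0}.ncard = (Finset.univ.filter fun i => c i ≠ 0).card := by
        rw [← Set.ncard_coe_finset]
        congr 1
        ext i
        simp
      have e2 : {i | c' i ≠ 0}.ncard = (Finset.univ.filter fun i => c' i ≠ 0).card := by
        rw [← Set.ncard_coe_finset]
        congr 1
        ext i
        simp
      have e3 : Uᶜ.card = n - U.card := by rw [Finset.card_compl, Fintype.card_fin]
      rw [e1, e2, ← e3]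
      refine le_trans (Finset.card_le_card ?_) (Finset.card_union_le _ _)
      intro i hi
      rw [Finset.mem_filter] at hi
      rw [Finset.mem_union, Finset.mem_filter, Finset.mem_compl]
      by_cases hU : i ∈ U
      · left
        refine ⟨Finset.mem_univ _, ?_⟩
        simp only [c']
        rw [if_pos hU]
        exact hi.2
      · exact Or.inr hU
    have h7 : U.card ≤ n := (Finset.card_le_univ _).trans (by simp)
    rw [Fin.sum_univ_succ]
    have h8 : (D + 1 + 2) * n = (D + 2) * n + n := by ring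
    omega

/-- no vanishing box sums -/
theorem mexp_nonzero {D : ℕ} {n : Fin (D + 1) → ℕ}
    (a : ((j : Fin (D + 1)) → Fin (n j + 1)) → ℂ)
    (h : ∀ J : (j : Fin (D + 1)) → Finset (Fin (n j)), (∀ j, (J j).Nonempty) →
      ∑ i ∈ Fintype.piFinset J, a (fun j => (i j).succ) ≠ 0) :
    ∃ j, mexp a + n j ≤ ∑ j, n j := by
  classical
  obtain ⟨𝒥, hadm, h𝒥⟩ := exists_mexp a
  have h1 : ∃ j, 𝒥 j = ∅ := by
    by_contra hcon
    push Not at hcon
    have h2 : ∀ j, ∃ J, J ∈ 𝒥 j := fun j => hcon j
    choose J hJ using h2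
    exact h J (fun j => (hadm.1 j).1 _ (hJ j)) (hadm.2 J hJ)
  obtain ⟨j, hj⟩ := h1
  refine ⟨j, ?_⟩
  rw [← h𝒥, ← Finset.add_sum_erase _ _ (Finset.mem_univ j), hj, Finset.card_empty, zero_add,
    ← Finset.add_sum_erase _ (fun j => n j) (Finset.mem_univ j), add_comm]
  apply Nat.add_le_add_left
  apply Finset.sum_le_sum
  intro j' _
  exact fam_card_le' _ (hadm.1 j')

/-- sums of products -/
theorem mexp_diag {D m : ℕ} (c : Fin m → ℂ) (a : (Fin (D + 2) → Fin (m + 1)) → ℂ)
    (ha : ∀ i : Fin m, a (fun _ => i.succ) = c i)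
    (ha' : ∀ i : Fin (D + 2) → Fin m, (∃ j j', i j ≠ i j') → a (fun j => (i j).succ) = 0) :
    mexp (n := fun _ => m) a + {i | c i ≠ 0}.ncard ≤ (D + 2) * m := by
  classical
  obtain ⟨𝒥, hadm, h𝒥⟩ := exists_mexp (n := fun _ : Fin (D + 2) => m) a
  rw [← h𝒥]
  apply fam_diag D c 𝒥 (fun j => hadm.1 j)
  intro J hJ
  refine Eq.trans ?_ (hadm.2 J hJ)
  have h1 : ∑ i ∈ Fintype.piFinset J, a (fun j => (i j).succ) =
      ∑ i ∈ (Finset.univ.filter fun i => ∀ j, i ∈ J j).image
        (fun i => (fun _ => i : Fin (D + 2) → Fin m)), a (fun j => (i j).succ) := by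
    symm
    apply Finset.sum_subset
    · intro i hi
      obtain ⟨k, hk, rfl⟩ := Finset.mem_image.1 hi
      rw [Fintype.mem_piFinset]
      exact (Finset.mem_filter.1 hk).2
    · intro i hi hi'
      apply ha'
      by_contra hcon
      push Not at hcon
      apply hi'
      rw [Finset.mem_image]
      rw [Fintype.mem_piFinset] at hi
      refine ⟨i 0, Finset.mem_filter.2 ⟨Finset.mem_univ _, fun j => ?_⟩, ?_⟩
      · rw [hcon 0 j]
        exact hi j
      · funext j
        exact hcon 0 j
  rw [h1, Finset.sum_image, Finset.sum_filter]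
  · apply Finset.sum_congr rfl
    intro i _
    rw [ha]
  · intro i _ i' _ h
    exact congrFun h 0

end Pool.Agent.Helper13K9.BL
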