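import Pool.Agent.Helper13K9.BL.Two

/-!
# Linear equations between logarithms of primes, sums of products
-/

set_option autoImplicit false

namespace Pool.Agent.Helper13K9.BL

open Module Finset Matrix
open Pool.Agent.W254.PA (Hyp)
open Pool.Agent.TH910.LR
open Pool.Agent.H301R2.SSE (QB mem_QB Lt Lt_rep Lt_mul Lt_alg Lt_log)

/-- The equation has no solution with fewer terms: the sum of the coefficients of each element which
occurs in `b` does not vanish. -/
def Nondeg {B : Type*} {n : ℕ} {E : Type*} [Field E] (t : Fin n → E) (b : Fin n → B) : Prop :=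
  ∀ i, (∑ j, open Classical in if b j = b i then t j else 0) ≠ 0

theorem lin_gen {κ E : Type*} [Field κ] [Field E] [Algebra κ E] [Countable κ] [Uncountable E]
    {L : Submodule κ E} (hL : Hyp L) {B : Type*} (w : Option B → E)
    (hw : LinearIndependent κ w) (hwL : ∀ b, w b ∈ L) {n : ℕ} (t : Fin n → E) (τ : E)
    (s : Finset (Fin n → B))
    (hs : ∀ b ∈ s, ∑ i, t i * w (some (b i)) = τ * w none ∧ Nondeg t b) :
    s.card ≤ (n * ((n + 1) ^ 2 + 1)) ^ n := by
  classical
  let y : Fin (n + 1) → E := Fin.cons (-τ) t
  let V : Submodule E (Fin (n + 1) → E) := LinearMap.ker (lf y)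
  have hV : ∀ v, v ∈ V ↔ -τ * v 0 + ∑ i : Fin n, t i * v i.succ = 0 := by
    intro v
    rw [LinearMap.mem_ker, lf_apply, dotProduct, Fin.sum_univ_succ]
    simp [y]
  obtain ⟨P, hPc, hP⟩ := few_points hL w hw hwL V
  let r : (Fin n → B) → Fin (n + 1) → (Option B →₀ κ) := fun b =>
    Fin.cons (Finsupp.single none 1) (fun i => Finsupp.single (some (b i)) 1)
  let cl : (Fin n → B) → Fin n → Option P := fun b i =>
    if h : some (b i) ∈ P then some ⟨some (b i), h⟩ else none
  have key := Finset.card_le_mul_card_image_of_maps_to (s := s)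
    (t := (Finset.univ : Finset (Fin n → Option P))) (f := cl) (fun _ _ => Finset.mem_univ _)
    (n ^ n) (by
      intro δ _
      rcases (s.filter fun b => cl b = δ).eq_empty_or_nonempty with he | ⟨b₀, hb₀⟩
      · rw [he]; simp
      · rw [Finset.mem_filter] at hb₀
        have hsub : (s.filter fun b => cl b = δ) ⊆
            Fintype.piFinset fun _ : Fin n => Finset.univ.image b₀ := by
          intro b hb
          rw [Finset.mem_filter] at hb
          rw [Fintype.mem_piFinset]
          intro i
          have hcl : cl b = cl b₀ := hb.2.trans hb₀.2.symm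
          have h1 := hP (fun i => r b i - r b₀ i) (by
            rw [hV]
            simp only [r, Fin.cons_zero, sub_self, map_zero, mul_zero, zero_add, Fin.cons_succ,
              map_sub, Finsupp.linearCombination_single, one_smul, mul_sub,
              Finset.sum_sub_distrib]
            rw [(hs b hb.1).1, (hs b₀ hb₀.1).1, sub_self]) (by
            intro b' hb'
            rw [hV]
            have h2 : ∀ i : Fin n, (r b i.succ - r b₀ i.succ) b' = 0 := by
              intro i
              simp only [r, Fin.cons_succ, Finsupp.sub_apply, Finsupp.single_apply]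
              have h3 := congrFun hcl i
              simp only [cl] at h3
              by_cases h4 : some (b i) = b'
              · rw [dif_pos (h4 ▸ hb')] at h3
                have h5 : some (b₀ i) ∈ P := by
                  by_contra h5
                  rw [dif_neg h5] at h3
                  exact absurd h3 (by simp)
                rw [dif_pos h5] at h3
                have h6 : some (b i) = some (b₀ i) := by
                  have := Option.some.inj h3
                  exact congrArg Subtype.val this
                rw [if_pos h4, if_pos (h6 ▸ h4), sub_self]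
              · by_cases h5 : some (b₀ i) = b'
                · exfalso
                  rw [dif_pos (show some (b₀ i) ∈ P from h5 ▸ hb')] at h3
                  have h6 : some (b i) ∈ P := by
                    by_contra h6
                    rw [dif_neg h6] at h3
                    exact absurd h3 (by simp)
                  rw [dif_pos h6] at h3
                  have h7 : some (b i) = some (b₀ i) := by
                    have := Option.some.inj h3
                    exact congrArg Subtype.val this
                  exact h4 (h7.trans h5)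
                · rw [if_neg h4, if_neg h5, sub_self]
            have h3 : (r b 0 - r b₀ 0) b' = 0 := by simp [r]
            simp only [cv]
            rw [h3]
            simp [h2]) (some (b i))
          rw [hV] at h1
          have h0 : (r b 0 - r b₀ 0) (some (b i)) = 0 := by simp [r]
          simp only [cv] at h1
          rw [h0, map_zero, mul_zero, zero_add] at h1
          have h2 : ∑ j : Fin n, t j * algebraMap κ E ((r b j.succ - r b₀ j.succ) (some (b i))) =
              (∑ j, if b j = b i then t j else 0) - ∑ j, if b₀ j = b i then t j else 0 := by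
            rw [← Finset.sum_sub_distrib]
            apply Finset.sum_congr rfl
            intro j _
            simp only [r, Fin.cons_succ, Finsupp.sub_apply, Finsupp.single_apply, Option.some.injEq]
            split_ifs <;> simp
          rw [h2] at h1
          have h3 : (∑ j, if b₀ j = b i then t j else 0) ≠ 0 := by
            rw [← sub_eq_zero.1 h1]
            exact (hs b hb.1).2 i
          obtain ⟨j, -, hj⟩ := Finset.exists_ne_zero_of_sum_ne_zero h3
          rw [Finset.mem_image]
          refine ⟨j, Finset.mem_univ _, ?_⟩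
          by_contra hne
          rw [if_neg hne] at hj
          exact hj rfl
        refine (Finset.card_le_card hsub).trans ?_
        rw [Fintype.card_piFinset, Finset.prod_const, Finset.card_univ, Fintype.card_fin]
        apply Nat.pow_le_pow_left
        exact Finset.card_image_le.trans (by simp))
  refine key.trans ?_
  rw [Finset.card_univ, Fintype.card_fun, Fintype.card_option, Fintype.card_coe, Fintype.card_fin,
    mul_pow]
  apply Nat.mul_le_mul_left
  apply Nat.pow_le_pow_left
  have : (n + 1) * (n + 1) = (n + 1) ^ 2 := by ring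
  omega

/-- the nondegenerate solutions of a linear equation in primes -/
def LinSol {n : ℕ} (t : Fin n → ℂ) (τ : ℂ) : Set (Fin n → ℕ) :=
  {p | (∀ i, (p i).Prime) ∧ ∑ i, t i * lg (p i) = τ ∧ Nondeg t p}

theorem lin_nat {n : ℕ} (t : Fin n → ℂ) (τ : ℂ) :
    (LinSol t τ).Finite ∧ (LinSol t τ).ncard ≤ (n * ((n + 1) ^ 2 + 1)) ^ n := by
  classical
  have := countable_alg (E := ℂ)
  have hall : ∀ s : Finset (Fin n → ℕ), (s : Set (Fin n → ℕ)) ⊆ LinSol t τ →
      s.card ≤ (n * ((n + 1) ^ 2 + 1)) ^ n := by
    intro s hs
    let g : (Fin n → ℕ) → (Fin n → Nat.Primes) := fun p i =>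
      if h : (p i).Prime then ⟨p i, h⟩ else ⟨2, Nat.prime_two⟩
    have hg : ∀ p ∈ s, ∀ i, ((g p i : Nat.Primes) : ℕ) = p i := by
      intro p hp i
      simp only [g]
      rw [dif_pos ((hs hp).1 i)]
    have hinj : Set.InjOn g (s : Set _) := by
      intro p hp p' hp' h
      funext i
      rw [← hg p hp i, ← hg p' hp' i, h]
    rw [← Finset.card_image_of_injOn hinj]
    refine lin_gen hyp_complex
      (fun o : Option Nat.Primes => (o.elim 1 (fun p : Nat.Primes => (Real.log (p : ℕ) : ℂ)) : ℂ))
      (Pool.Agent.W254.HP.opt_indep _ Pool.Agent.W254.HP.log_prime_alg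
        Pool.Agent.W254.HP.log_primes_indep) (by
      intro o
      cases o with
      | none => exact Lt_alg isAlgebraic_one
      | some b => exact Lt_log (Pool.Agent.W254.HP.log_prime_alg b)) t τ _ ?_
    intro b hb
    obtain ⟨p, hp, rfl⟩ := Finset.mem_image.1 hb
    obtain ⟨h1, h2, h3⟩ := hs hp
    refine ⟨?_, ?_⟩
    · simp only [Option.elim_some, Option.elim_none, mul_one]
      rw [← h2]
      apply Finset.sum_congr rfl
      intro i _
      rw [hg p hp i]
      rfl
    · intro i
      have h4 := h3 i
      have e : ∀ j, (g p j = g p i) ↔ (p j = p i) := by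
        intro j
        constructor
        · intro h
          rw [← hg p hp j, ← hg p hp i, h]
        · intro h
          apply Subtype.ext
          change ((g p j : Nat.Primes) : ℕ) = ((g p i : Nat.Primes) : ℕ)
          rw [hg p hp j, hg p hp i, h]
      simp only [e]
      convert h4
  have hfin : (LinSol t τ).Finite := by
    by_contra hinf
    obtain ⟨u, hu1, hu2⟩ := Set.Infinite.exists_subset_card_eq hinf
      ((n * ((n + 1) ^ 2 + 1)) ^ n + 1)
    have := hall u hu1
    omega
  refine ⟨hfin, ?_⟩
  rw [Set.ncard_eq_toFinset_card _ hfin]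
  exact hall _ (by simp)

/-- the solutions of an equation whose main term is a sum of `n` products of `d + 2` logarithms, with
an arbitrary function of the other columns on the right -/
def PSol {d n : ℕ} (S : Finset ℕ) (c : Fin n → ℂ) (f : (Fin (d + 1) → Fin n → ℕ) → ℂ) :
    Set (Fin (d + 2) → Fin n → ℕ) :=
  {x | (∀ j i, x j i ∈ S) ∧ ∑ i, c i * ∏ j, lg (x j i) = f (Fin.tail x)}

theorem pSol_finite {d n : ℕ} (S : Finset ℕ) (c : Fin n → ℂ)
    (f : (Fin (d + 1) → Fin n → ℕ) → ℂ) : (PSol S c f).Finite := by
  classical
  refine Set.Finite.subset (Finset.finite_toSet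
    (Fintype.piFinset fun _ : Fin (d + 2) => Fintype.piFinset fun _ : Fin n => S)) ?_
  intro x hx
  rw [Finset.mem_coe, Fintype.mem_piFinset]
  intro j
  rw [Fintype.mem_piFinset]
  exact hx.1 j

theorem lg_ne {a : ℕ} (h0 : a ≠ 0) (h1 : a ≠ 1) : lg a ≠ 0 := by
  rw [lg, Complex.ofReal_ne_zero]
  apply Real.log_ne_zero_of_pos_of_ne_one
  · exact_mod_cast Nat.pos_of_ne_zero h0
  · exact_mod_cast h1

theorem prod_nat {d n : ℕ} (h : ℕ) (S : Finset ℕ) (hS : ExpLe h S) (hS0 : S.Nonempty)
    (hS1 : 1 ∉ S) (c : Fin n → ℂ) (hc : ∀ i, c i ≠ 0) (f : (Fin (d + 1) → Fin n → ℕ) → ℂ) :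
    (PSol S c f).ncard ≤ KK h n n * S.card ^ (n * (d + 1)) := by
  classical
  have hfin := pSol_finite S c f
  set s := hfin.toFinset with hs
  rw [Set.ncard_eq_toFinset_card _ hfin]
  have key := Finset.card_le_mul_card_image_of_maps_to (s := s)
    (t := Fintype.piFinset fun _ : Fin d => Fintype.piFinset fun _ : Fin n => S)
    (f := fun x => Fin.tail (Fin.tail x)) (by
      intro x hx
      rw [hs, Set.Finite.mem_toFinset] at hx
      rw [Fintype.mem_piFinset]
      intro j
      rw [Fintype.mem_piFinset]
      exact hx.1 _) (KK h n n * S.card ^ n) (by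
      intro z hz
      rw [Fintype.mem_piFinset] at hz
      have hz' : ∀ j i, z j i ∈ S := fun j => by
        have := hz j
        rwa [Fintype.mem_piFinset] at this
      let c' : Fin n → ℂ := fun i => c i * ∏ j, lg (z j i)
      have hc' : ∀ i, c' i ≠ 0 := by
        intro i
        refine mul_ne_zero (hc i) (Finset.prod_ne_zero_iff.2 fun j _ => ?_)
        exact lg_ne (hS _ (hz' j i)).1 fun h1 => hS1 (h1 ▸ hz' j i)
      have h1 := bil_nat h S hS hS0 (Matrix.diagonal c') 0 (fun x => f (Fin.cons x z))
      have hr : (Matrix.diagonal c').rank = n := by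
        rw [rank_diag, supp, Finset.filter_true_of_mem fun i _ => hc' i]
        simp
      rw [hr, Nat.add_sub_cancel] at h1
      refine le_trans ?_ h1
      rw [← Set.ncard_coe_finset]
      refine Set.ncard_le_ncard_of_injOn (fun x => (x 1, x 0)) ?_ ?_ (sol_finite _ _ _ _)
      · intro x hx
        rw [Finset.mem_coe, Finset.mem_filter, hs, Set.Finite.mem_toFinset] at hx
        obtain ⟨⟨h3, h4⟩, h5⟩ := hx
        refine ⟨h3 1, h3 0, ?_⟩
        change ∑ i, ∑ j, Matrix.diagonal c' i j * lg (x 1 i) * lg (x 0 j) +
          ∑ j, (0 : Fin n → ℂ) j * lg (x 0 j) = f (Fin.cons (x 1) z)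
        have h6 : (Fin.cons (x 1) z : Fin (d + 1) → Fin n → ℕ) = Fin.tail x := by
          rw [← h5]
          exact Fin.cons_self_tail (Fin.tail x)
        rw [h6, ← h4]
        simp only [Pi.zero_apply, zero_mul, Finset.sum_const_zero, add_zero]
        apply Finset.sum_congr rfl
        intro i _
        rw [Finset.sum_eq_single i]
        · rw [Matrix.diagonal_apply_eq, Fin.prod_univ_succ, Fin.prod_univ_succ]
          have e : ∀ j : Fin d, x j.succ.succ i = z j i := by
            intro j
            rw [← h5]
            rfl
          simp only [c', e]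
          have e1 : x (Fin.succ 0) i = x 1 i := rfl
          rw [e1]
          ring
        · intro j _ hj
          rw [Matrix.diagonal_apply_ne' _ hj]
          ring
        · intro hi
          exact absurd (Finset.mem_univ i) hi
      · intro x hx x' hx' hxx
        rw [Finset.mem_coe, Finset.mem_filter] at hx hx'
        have e0 : (x 1, x 0) = (x' 1, x' 0) := hxx
        have e1 : x 1 = x' 1 := (Prod.mk.inj e0).1
        have e2 : x 0 = x' 0 := (Prod.mk.inj e0).2
        have e3 : Fin.tail x = Fin.tail x' := by
          rw [← Fin.cons_self_tail (Fin.tail x), ← Fin.cons_self_tail (Fin.tail x')]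
          congr 1
          exact hx.2.trans hx'.2.symm
        rw [← Fin.cons_self_tail x, ← Fin.cons_self_tail x', e2, e3])
  refine key.trans (le_of_eq ?_)
  rw [Fintype.card_piFinset]
  simp only [Fintype.card_piFinset, Finset.prod_const, Finset.card_univ, Fintype.card_fin]
  rw [← pow_mul, mul_assoc, ← pow_add]
  congr 2
  ring

/-- The exponent `n` is optimal for even `n` and sums of products of two logarithms. -/
theorem sharp (k : ℕ) (S : Finset ℕ) : S.card ^ (k + k) ≤
    {x : Fin 2 → Fin (k + k) → ℕ | (∀ j i, x j i ∈ S) ∧
      ∑ i, (Fin.append (fun _ => (1 : ℂ)) (fun _ => (-1 : ℂ)) i) *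
        ∏ j, lg (x j i) = 0}.ncard := by
  classical
  set T := {x : Fin 2 → Fin (k + k) → ℕ | (∀ j i, x j i ∈ S) ∧
      ∑ i, (Fin.append (fun _ => (1 : ℂ)) (fun _ => (-1 : ℂ)) i) *
        ∏ j, lg (x j i) = 0} with hT
  have hfin : T.Finite := by
    refine Set.Finite.subset (Finset.finite_toSet
      (Fintype.piFinset fun _ : Fin 2 => Fintype.piFinset fun _ : Fin (k + k) => S)) ?_
    intro x hx
    rw [Finset.mem_coe, Fintype.mem_piFinset]
    intro j
    rw [Fintype.mem_piFinset]
    exact hx.1 j
  let s : Finset (Fin 2 → Fin k → ℕ) :=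
    Fintype.piFinset fun _ : Fin 2 => Fintype.piFinset fun _ : Fin k => S
  have hs : s.card = S.card ^ (k + k) := by
    rw [Fintype.card_piFinset]
    simp only [Fintype.card_piFinset, Finset.prod_const, Finset.card_univ, Fintype.card_fin]
    rw [← pow_mul]
    congr 1
    ring
  rw [← hs, ← Set.ncard_coe_finset]
  refine Set.ncard_le_ncard_of_injOn (fun x j => Fin.append (x j) (x j)) ?_ ?_ hfin
  · intro x hx
    rw [Finset.mem_coe, Fintype.mem_piFinset] at hx
    have hx' : ∀ j i, x j i ∈ S := fun j => by
      have := hx j
      rwa [Fintype.mem_piFinset] at this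
    refine ⟨?_, ?_⟩
    · intro j i
      refine Fin.addCases (fun i => ?_) (fun i => ?_) i
      · simpa [-Fin.natAdd_eq_addNat] using hx' j i
      · simpa [-Fin.natAdd_eq_addNat] using hx' j i
    · rw [Fin.sum_univ_add]
      simp only [Fin.append_left, Fin.append_right, one_mul, neg_mul, Finset.sum_neg_distrib]
      ring
  · intro x _ x' _ hxx
    funext j i
    have := congrFun (congrFun hxx j) (Fin.castAdd k i)
    simpa [-Fin.natAdd_eq_addNat] using this

end Pool.Agent.Helper13K9.BL
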