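import Pool.Agent.Helper13K9.BL.Blk

/-!
# Multi-affine equations: the sharp exponent
-/

set_option autoImplicit false

namespace Pool.Agent.Helper13K9.BL

open Module Finset Matrix
open Pool.Agent.W254.PA (Hyp)
open Pool.Agent.TH910.LR

variable {κ E : Type*} [Field κ] [Field E] [Algebra κ E]

/-- the solutions `v` of the equations `T (v, y) = 0`, `T ∈ Λ` -/
def VV' {D : ℕ} {n : Fin (D + 1) → ℕ}
    (Λ : Set (MultilinearMap E (fun j : Fin (D + 1) => Fin (n j + 1) → E) E))
    (y : (j : Fin D) → Fin (n j.succ + 1) → E) : Submodule E (Fin (n 0 + 1) → E) where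
  carrier := {v | ∀ T ∈ Λ, T.curryLeft v y = 0}
  add_mem' := by
    intro a b ha hb T hT
    rw [map_add, _root_.add_apply, ha T hT, hb T hT, add_zero]
  zero_mem' := by
    intro T _
    rw [map_zero, _root_.zero_apply]
  smul_mem' := by
    intro c a ha T hT
    rw [map_smul, _root_.smul_apply, ha T hT, smul_zero]

/-- The indicator vectors of the members of the families are solutions of the equations. -/
def ValidF {D : ℕ} {n : Fin D → ℕ}
    (Λ : Set (MultilinearMap E (fun j : Fin D => Fin (n j + 1) → E) E))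
    (𝒥 : (j : Fin D) → Finset (Finset (Fin (n j)))) : Prop :=
  (∀ j, Fam (𝒥 j)) ∧ ∀ T ∈ Λ, ∀ J : (j : Fin D) → Finset (Fin (n j)), (∀ j, J j ∈ 𝒥 j) →
    T (fun j => ind E (J j)) = 0

/-- the product of the constants -/
def cstP {D : ℕ} (n : Fin D → ℕ) : ℕ := ∏ j, cst (n j)

omit [Field E] in
theorem cons_hat {B : Type*} (w : Option B → E) {D : ℕ} {n : Fin (D + 1) → ℕ}
    (x : (j : Fin (D + 1)) → Fin (n j) → B) :
    (Fin.cons (hat w (x 0)) (fun j : Fin D => hat w (x j.succ)) :
      (j : Fin (D + 1)) → Fin (n j + 1) → E) = fun j => hat w (x j) := by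
  funext j
  refine Fin.cases ?_ (fun j => ?_) j <;> rfl

theorem cons_ind {D : ℕ} {n : Fin (D + 1) → ℕ} (J : (j : Fin (D + 1)) → Finset (Fin (n j))) :
    (Fin.cons (ind E (J 0)) (fun j : Fin D => ind E (J j.succ)) :
      (j : Fin (D + 1)) → Fin (n j + 1) → E) = fun j => ind E (J j) := by
  funext j
  refine Fin.cases ?_ (fun j => ?_) j <;> rfl

theorem valid_cons {D : ℕ} {n : Fin (D + 1) → ℕ}
    (Λ : Set (MultilinearMap E (fun j : Fin (D + 1) => Fin (n j + 1) → E) E))
    (𝒥₀ : Finset (Finset (Fin (n 0)))) (h0 : Fam 𝒥₀)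
    (𝒥' : (j : Fin D) → Finset (Finset (Fin (n j.succ))))
    (h : ValidF {T' | ∃ T ∈ Λ, ∃ J ∈ 𝒥₀, T' = T.curryLeft (ind E J)} 𝒥') :
    ValidF Λ (Fin.cons 𝒥₀ 𝒥' : (j : Fin (D + 1)) → Finset (Finset (Fin (n j)))) := by
  refine ⟨?_, ?_⟩
  · intro j
    refine Fin.cases ?_ (fun j => ?_) j
    · exact h0
    · exact h.1 j
  · intro T hT J hJ
    have h1 := h.2 _ ⟨T, hT, J 0, hJ 0, rfl⟩ (fun j => J j.succ) (fun j => hJ j.succ)
    rw [MultilinearMap.curryLeft_apply, cons_ind] at h1
    exact h1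

/-- **Systems of multilinear equations.** -/
theorem multi_main [Countable κ] [Uncountable E]
    {L : Submodule κ E} (hL : Hyp L) {B : Type*} [DecidableEq B] (w : Option B → E)
    (hw : LinearIndependent κ w) (hwL : ∀ b, w b ∈ L) (S : Finset B) (D : ℕ) :
    ∀ (n : Fin D → ℕ) (Λ : Set (MultilinearMap E (fun j : Fin D => Fin (n j + 1) → E) E))
      (s : Finset ((j : Fin D) → Fin (n j) → B)), s.Nonempty →
      (∀ x ∈ s, (∀ j i, x j i ∈ S) ∧ ∀ T ∈ Λ, T (fun j => hat w (x j)) = 0) →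
      ∃ 𝒥 : (j : Fin D) → Finset (Finset (Fin (n j))), ValidF Λ 𝒥 ∧
        s.card ≤ cstP n * S.card ^ ∑ j, (𝒥 j).card := by
  classical
  induction D with
  | zero =>
    intro n Λ s hne hs
    refine ⟨fun j => ∅, ⟨fun j => j.elim0, ?_⟩, ?_⟩
    · intro T hT J _
      obtain ⟨x, hx⟩ := hne
      have h1 := (hs x hx).2 T hT
      rw [← h1]
      congr 1
      funext j
      exact j.elim0
    · have : s.card ≤ 1 := Finset.card_le_one.2 fun a _ b _ => funext fun j => j.elim0
      simpa [cstP] using this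
  | succ D ih =>
    intro n Λ s hne hs
    let g : ((j : Fin (D + 1)) → Fin (n j) → B) →
        (Fin (n 0) → B) × ((j : Fin D) → Fin (n j.succ) → B) := fun x => (x 0, Fin.tail x)
    have hg : Function.Injective g := by
      intro x x' h
      have h1 : x 0 = x' 0 := congrArg Prod.fst h
      have h2 : Fin.tail x = Fin.tail x' := congrArg Prod.snd h
      funext j
      refine Fin.cases h1 (fun j => congrFun h2 j) j
    obtain ⟨𝒥₀, s', hs's, hs'ne, hfam, hind, hcard⟩ := first_step hL w hw hwL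
      (fun y : (j : Fin D) → Fin (n j.succ) → B => VV' Λ fun j => hat w (y j)) S (s.image g)
      (by
        intro x' hx'
        obtain ⟨x, hx, rfl⟩ := Finset.mem_image.1 hx'
        refine ⟨(hs x hx).1 0, ?_⟩
        intro T hT
        rw [MultilinearMap.curryLeft_apply]
        have h1 := (hs x hx).2 T hT
        rw [← cons_hat] at h1
        exact h1) (hne.image g)
    rw [Finset.card_image_of_injective _ hg] at hcard
    obtain ⟨𝒥', hval, hcard'⟩ := ih (fun j => n j.succ)
      {T' | ∃ T ∈ Λ, ∃ J ∈ 𝒥₀, T' = T.curryLeft (ind E J)} (s'.image Prod.snd)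
      (hs'ne.image _) (by
        intro y hy
        obtain ⟨p, hp, rfl⟩ := Finset.mem_image.1 hy
        obtain ⟨x, hx, hxp⟩ := Finset.mem_image.1 (hs's hp)
        refine ⟨?_, ?_⟩
        · intro j i
          rw [← hxp]
          exact (hs x hx).1 j.succ i
        · rintro _ ⟨T, hT, J, hJ, rfl⟩
          exact hind p hp J hJ T hT)
    refine ⟨Fin.cons 𝒥₀ 𝒥', valid_cons Λ 𝒥₀ hfam 𝒥' hval, ?_⟩
    rw [Fin.sum_univ_succ, Fin.cons_zero]
    simp only [Fin.cons_succ]
    have e : cstP n = cst (n 0) * cstP (fun j : Fin D => n j.succ) := by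
      rw [cstP, Fin.prod_univ_succ]
      rfl
    calc s.card ≤ cst (n 0) * S.card ^ 𝒥₀.card * (s'.image Prod.snd).card := hcard
      _ ≤ cst (n 0) * S.card ^ 𝒥₀.card * (cstP (fun j : Fin D => n j.succ) *
          S.card ^ ∑ j, (𝒥' j).card) := Nat.mul_le_mul_left _ hcard'
      _ = cstP n * S.card ^ (𝒥₀.card + ∑ j, (𝒥' j).card) := by
        rw [e, pow_add]
        ring

/-- the solutions `v` of the equation `T (v, y) = c v 0` -/
def VVf {D : ℕ} {n : Fin (D + 1) → ℕ}
    (T : MultilinearMap E (fun j : Fin (D + 1) => Fin (n j + 1) → E) E) (c : E)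
    (y : (j : Fin D) → Fin (n j.succ + 1) → E) : Submodule E (Fin (n 0 + 1) → E) where
  carrier := {v | T.curryLeft v y = c * v 0}
  add_mem' := by
    intro a b ha hb
    change T.curryLeft (a + b) y = c * (a + b) 0
    rw [map_add, _root_.add_apply, Pi.add_apply, mul_add]
    exact congrArg₂ (· + ·) ha hb
  zero_mem' := by
    change T.curryLeft 0 y = c * (0 : Fin (n 0 + 1) → E) 0
    rw [map_zero, _root_.zero_apply, Pi.zero_apply, mul_zero]
  smul_mem' := by
    intro r a ha
    change T.curryLeft (r • a) y = c * (r • a) 0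
    have h : T.curryLeft a y = c * a 0 := ha
    rw [map_smul, _root_.smul_apply, Pi.smul_apply, h, smul_eq_mul, smul_eq_mul]
    ring

/-- **One equation, with an arbitrary function of the other columns.** -/
theorem multi_fun [Countable κ] [Uncountable E]
    {L : Submodule κ E} (hL : Hyp L) {B : Type*} [DecidableEq B] (w : Option B → E)
    (hw : LinearIndependent κ w) (hwL : ∀ b, w b ∈ L) (S : Finset B) (D : ℕ)
    (n : Fin (D + 1) → ℕ) (T : MultilinearMap E (fun j : Fin (D + 1) => Fin (n j + 1) → E) E)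
    (f : ((j : Fin D) → Fin (n j.succ) → B) → E)
    (s : Finset ((j : Fin (D + 1)) → Fin (n j) → B)) (hne : s.Nonempty)
    (hs : ∀ x ∈ s, (∀ j i, x j i ∈ S) ∧ T (fun j => hat w (x j)) = f (Fin.tail x)) :
    ∃ 𝒥 : (j : Fin (D + 1)) → Finset (Finset (Fin (n j))), ValidF {T} 𝒥 ∧
      s.card ≤ cstP n * S.card ^ ∑ j, (𝒥 j).card := by
  classical
  have hw0 : w none ≠ 0 := hw.ne_zero none
  let g : ((j : Fin (D + 1)) → Fin (n j) → B) →
      (Fin (n 0) → B) × ((j : Fin D) → Fin (n j.succ) → B) := fun x => (x 0, Fin.tail x)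
  have hg : Function.Injective g := by
    intro x x' h
    have h1 : x 0 = x' 0 := congrArg Prod.fst h
    have h2 : Fin.tail x = Fin.tail x' := congrArg Prod.snd h
    funext j
    refine Fin.cases h1 (fun j => congrFun h2 j) j
  obtain ⟨𝒥₀, s', hs's, hs'ne, hfam, hind, hcard⟩ := first_step hL w hw hwL
    (fun y : (j : Fin D) → Fin (n j.succ) → B => VVf T (f y / w none) fun j => hat w (y j)) S
    (s.image g)
    (by
      intro x' hx'
      obtain ⟨x, hx, rfl⟩ := Finset.mem_image.1 hx'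
      refine ⟨(hs x hx).1 0, ?_⟩
      change T.curryLeft (hat w (x 0)) (fun j => hat w (x j.succ)) =
        f (Fin.tail x) / w none * hat w (x 0) 0
      rw [MultilinearMap.curryLeft_apply]
      have h1 := (hs x hx).2
      rw [← cons_hat] at h1
      have h2 : hat w (x 0) 0 = w none := rfl
      rw [h1, h2, div_mul_cancel₀ _ hw0]) (hne.image g)
  rw [Finset.card_image_of_injective _ hg] at hcard
  obtain ⟨𝒥', hval, hcard'⟩ := multi_main hL w hw hwL S D (fun j => n j.succ)
    {T' | ∃ T₁ ∈ ({T} : Set _), ∃ J ∈ 𝒥₀, T' = T₁.curryLeft (ind E J)} (s'.image Prod.snd)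
    (hs'ne.image _) (by
      intro y hy
      obtain ⟨p, hp, rfl⟩ := Finset.mem_image.1 hy
      obtain ⟨x, hx, hxp⟩ := Finset.mem_image.1 (hs's hp)
      refine ⟨?_, ?_⟩
      · intro j i
        rw [← hxp]
        exact (hs x hx).1 j.succ i
      · rintro _ ⟨T₁, hT₁, J, hJ, rfl⟩
        rw [Set.mem_singleton_iff] at hT₁
        subst hT₁
        have h3 : T₁.curryLeft (ind E J) (fun j => hat w (p.2 j)) =
          f p.2 / w none * (ind E J : Fin (n 0 + 1) → E) 0 := hind p hp J hJ
        rw [h3]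
        have h4 : (ind E J : Fin (n 0 + 1) → E) 0 = 0 := rfl
        rw [h4, mul_zero])
  refine ⟨Fin.cons 𝒥₀ 𝒥', valid_cons {T} 𝒥₀ hfam 𝒥' hval, ?_⟩
  rw [Fin.sum_univ_succ, Fin.cons_zero]
  simp only [Fin.cons_succ]
  have e : cstP n = cst (n 0) * cstP (fun j : Fin D => n j.succ) := by
    rw [cstP, Fin.prod_univ_succ]
    rfl
  calc s.card ≤ cst (n 0) * S.card ^ 𝒥₀.card * (s'.image Prod.snd).card := hcard
    _ ≤ cst (n 0) * S.card ^ 𝒥₀.card * (cstP (fun j : Fin D => n j.succ) *
        S.card ^ ∑ j, (𝒥' j).card) := Nat.mul_le_mul_left _ hcard'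
    _ = cstP n * S.card ^ (𝒥₀.card + ∑ j, (𝒥' j).card) := by
      rw [e, pow_add]
      ring

end Pool.Agent.Helper13K9.BL
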