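import Pool.Agent.Helper13K9.BL.Val

/-!
# Bilinear equations between logarithms of positive integers
-/

set_option autoImplicit false

namespace Pool.Agent.Helper13K9.BL

open Module Finset Matrix
open Pool.Agent.TH910.LR

/-- the coefficients `0, …, h` -/
noncomputable def coeH (h : ℕ) : Finset ℂ := (Finset.range (h + 1)).image fun a : ℕ => (a : ℂ)

theorem card_coeH (h : ℕ) : (coeH h).card = h + 1 := by
  rw [coeH, Finset.card_image_of_injective _ Nat.cast_injective, Finset.card_range]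

theorem mem_coeH {h e : ℕ} (he : e ≤ h) : (e : ℂ) ∈ coeH h :=
  Finset.mem_image_of_mem _ (Finset.mem_range.2 (by omega))

theorem isComb_log' {h a : ℕ} (ha : ∀ p, a.factorization p ≤ h) :
    IsComb (fun p : Nat.Primes => (Real.log (p : ℕ) : ℂ)) (coeH h) (Real.log a : ℂ) := by
  classical
  have hinj : Function.Injective (fun p : Nat.Primes => (p : ℕ)) := fun p q h => Subtype.ext h
  have hbij : Set.BijOn (fun p : Nat.Primes => (p : ℕ))
      ((fun p : Nat.Primes => (p : ℕ)) ⁻¹' ↑a.factorization.support) ↑a.factorization.support := by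
    refine ⟨fun p hp => hp, hinj.injOn, ?_⟩
    intro p hp
    have hpp : p.Prime := Nat.prime_of_mem_primeFactors (by simpa using hp)
    exact ⟨⟨p, hpp⟩, hp, rfl⟩
  refine ⟨0, by simpa using mem_coeH (h := h) (Nat.zero_le _),
    (a.factorization.comapDomain (fun p : Nat.Primes => (p : ℕ)) hbij.injOn).mapRange
      (fun e : ℕ => (e : ℂ)) Nat.cast_zero, ?_, ?_⟩
  · intro p
    rw [Finsupp.mapRange_apply, Finsupp.comapDomain_apply]
    exact mem_coeH (ha _)
  · rw [zero_add, Finsupp.sum_mapRange_index (by intro b; rw [zero_mul])]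
    have h1 := Finsupp.sum_comapDomain (fun p : Nat.Primes => (p : ℕ)) a.factorization
      (fun (p : ℕ) (e : ℕ) => (e : ℂ) * (Real.log p : ℂ)) hbij
    have h2 : (Real.log a : ℂ) = a.factorization.sum
        (fun (p : ℕ) (e : ℕ) => (e : ℂ) * (Real.log p : ℂ)) := by
      rw [Real.log_nat_eq_sum_factorization]
      simp only [Finsupp.sum, Complex.ofReal_sum, Complex.ofReal_mul, Complex.ofReal_natCast]
    rw [h2, ← h1]
    rfl

/-- All exponents in the prime factorisations of the elements of `S` are at most `h`. -/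
def ExpLe (h : ℕ) (S : Finset ℕ) : Prop := ∀ a ∈ S, a ≠ 0 ∧ ∀ p, a.factorization p ≤ h

/-- the logarithm as a complex number -/
noncomputable def lg (a : ℕ) : ℂ := ((Real.log a : ℝ) : ℂ)

theorem lg_injOn {h : ℕ} {S : Finset ℕ} (hS : ExpLe h S) : Set.InjOn lg (S : Set ℕ) := by
  intro a ha b hb hab
  have h1 : Real.log a = Real.log b := Complex.ofReal_injective hab
  have h2 := Real.log_injOn_pos (Set.mem_Ioi.2 (by
      have := (hS a ha).1
      exact_mod_cast Nat.pos_of_ne_zero this : (0 : ℝ) < a))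
    (Set.mem_Ioi.2 (by
      have := (hS b hb).1
      exact_mod_cast Nat.pos_of_ne_zero this : (0 : ℝ) < b)) h1
  exact_mod_cast h2

/-- the solutions in `S` of a bilinear equation between logarithms -/
def Sol {m n : ℕ} (S : Finset ℕ) (C : Matrix (Fin m) (Fin n) ℂ) (b : Fin n → ℂ)
    (f : (Fin m → ℕ) → ℂ) : Set ((Fin m → ℕ) × (Fin n → ℕ)) :=
  {r | (∀ i, r.1 i ∈ S) ∧ (∀ j, r.2 j ∈ S) ∧
    ∑ i, ∑ j, C i j * lg (r.1 i) * lg (r.2 j) + ∑ j, b j * lg (r.2 j) = f r.1}

/-- the constant -/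
def KK (h m n : ℕ) : ℕ := (h + 2) ^ (m ^ 3 + n ^ 3 + 2 * n ^ 2)

theorem KK_bound (h m n : ℕ) : (h + 1 + 1) ^ (m * (m * m) + n * (n * n)) *
    ((h + 1) * (h + 1)) ^ (n * n) ≤ KK h m n := by
  have h1 : (h + 1) * (h + 1) ≤ (h + 2) ^ 2 := by nlinarith
  calc (h + 1 + 1) ^ (m * (m * m) + n * (n * n)) * ((h + 1) * (h + 1)) ^ (n * n)
      ≤ (h + 2) ^ (m * (m * m) + n * (n * n)) * ((h + 2) ^ 2) ^ (n * n) := by gcongr
    _ = KK h m n := by
      rw [KK, ← pow_mul, ← pow_add]
      congr 1
      ring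

theorem sol_eq {m n : ℕ} (C : Matrix (Fin m) (Fin n) ℂ) (b : Fin n → ℂ) (x : Fin m → ℂ)
    (y : Fin n → ℂ) : (x ᵥ* C + b) ⬝ᵥ y = ∑ i, ∑ j, C i j * x i * y j + ∑ j, b j * y j := by
  rw [add_dotProduct]
  congr 1
  simp only [dotProduct, Matrix.vecMul, Finset.sum_mul]
  rw [Finset.sum_comm]
  apply Finset.sum_congr rfl
  intro i _
  apply Finset.sum_congr rfl
  intro j _
  ring

theorem bil_nat {m n : ℕ} (h : ℕ) (S : Finset ℕ) (hS : ExpLe h S) (hS0 : S.Nonempty)
    (C : Matrix (Fin m) (Fin n) ℂ) (b : Fin n → ℂ) (f : (Fin m → ℕ) → ℂ) :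
    (Sol S C b f).ncard ≤ KK h m n * S.card ^ (m + n - C.rank) := by
  classical
  let inv : ℂ → ℕ := Function.invFunOn lg (S : Set ℕ)
  have hinv : ∀ a ∈ S, inv (lg a) = a := fun a ha => (lg_injOn hS).leftInvOn_invFunOn ha
  have hA : (S.image lg).Nonempty := hS0.image lg
  have key := bil_complex (fun p : Nat.Primes => (Real.log (p : ℕ) : ℂ))
    Pool.Agent.W254.HP.log_prime_alg Pool.Agent.W254.HP.log_primes_indep (coeH h) (by
      intro c hc
      obtain ⟨e, -, rfl⟩ := Finset.mem_image.1 hc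
      exact isAlgebraic_algebraMap (e : ℚ)) (S.image lg) hA (by
      intro z hz
      obtain ⟨a, ha, rfl⟩ := Finset.mem_image.1 hz
      exact isComb_log' (hS a ha).2) C b (fun x => f fun i => inv (x i))
  rw [card_coeH, Finset.card_image_of_injOn (lg_injOn hS)] at key
  have hle : (Sol S C b f).ncard ≤
      (BilSol (S.image lg) C b (fun x => f fun i => inv (x i))).ncard := by
    refine Set.ncard_le_ncard_of_injOn (fun r => (fun i => lg (r.1 i), fun j => lg (r.2 j)))
      ?_ ?_ (bilSol_finite _ _ _ _)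
    · intro r hr
      refine ⟨fun i => Finset.mem_image_of_mem _ (hr.1 i),
        fun j => Finset.mem_image_of_mem _ (hr.2.1 j), ?_⟩
      rw [sol_eq]
      have : (fun i => inv (lg (r.1 i))) = r.1 := funext fun i => hinv _ (hr.1 i)
      simp only
      rw [this]
      exact hr.2.2
    · intro r hr r' hr' hrr
      have e1 := congrArg Prod.fst hrr
      have e2 := congrArg Prod.snd hrr
      refine Prod.ext (funext fun i => ?_) (funext fun j => ?_)
      · exact lg_injOn hS (hr.1 i) (hr'.1 i) (congrFun e1 i)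
      · exact lg_injOn hS (hr.2.1 j) (hr'.2.1 j) (congrFun e2 j)
  calc (Sol S C b f).ncard
      ≤ S.card ^ (m + n - C.rank) * (h + 1 + 1) ^ (m * (m * m) + n * (n * n)) *
        ((h + 1) * (h + 1)) ^ (n * n) := hle.trans key
    _ = ((h + 1 + 1) ^ (m * (m * m) + n * (n * n)) * ((h + 1) * (h + 1)) ^ (n * n)) *
        S.card ^ (m + n - C.rank) := by ring
    _ ≤ KK h m n * S.card ^ (m + n - C.rank) := Nat.mul_le_mul_right _ (KK_bound h m n)

theorem sol_finite {m n : ℕ} (S : Finset ℕ) (C : Matrix (Fin m) (Fin n) ℂ) (b : Fin n → ℂ)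
    (f : (Fin m → ℕ) → ℂ) : (Sol S C b f).Finite := by
  classical
  refine Set.Finite.subset (Finset.finite_toSet
    ((Fintype.piFinset fun _ : Fin m => S) ×ˢ (Fintype.piFinset fun _ : Fin n => S))) ?_
  intro r hr
  rw [Finset.mem_coe, Finset.mem_product, Fintype.mem_piFinset, Fintype.mem_piFinset]
  exact ⟨hr.1, hr.2.1⟩

/-- the values of a bilinear form at logarithms of elements of `S` -/
def Vals {m n : ℕ} (S : Finset ℕ) (C : Matrix (Fin m) (Fin n) ℂ) : Set ℂ :=
  {z | ∃ (x : Fin m → ℕ) (y : Fin n → ℕ), (∀ i, x i ∈ S) ∧ (∀ j, y j ∈ S) ∧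
    z = ∑ i, ∑ j, C i j * lg (x i) * lg (y j)}

theorem vals_nat {m n : ℕ} (h : ℕ) (S : Finset ℕ) (hS : ExpLe h S) (hS0 : S.Nonempty)
    (C : Matrix (Fin m) (Fin n) ℂ) :
    S.card ^ (2 * C.rank) ≤ KK h (m + m) (n + n) * (Vals S C).ncard := by
  classical
  have hA : (S.image lg).Nonempty := hS0.image lg
  have hv : Values (S.image lg) C = Vals S C := by
    ext z
    constructor
    · rintro ⟨x, y, hx, hy, rfl⟩
      choose x' hx' hx'' using fun i => Finset.mem_image.1 (hx i)
      choose y' hy' hy'' using fun i => Finset.mem_image.1 (hy i)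
      refine ⟨x', y', hx', hy', ?_⟩
      have e := sol_eq C 0 x y
      rw [add_zero] at e
      rw [e]
      simp [hx'', hy'']
    · rintro ⟨x, y, hx, hy, rfl⟩
      refine ⟨fun i => lg (x i), fun j => lg (y j), fun i => Finset.mem_image_of_mem _ (hx i),
        fun j => Finset.mem_image_of_mem _ (hy j), ?_⟩
      have e := sol_eq C 0 (fun i => lg (x i)) (fun j => lg (y j))
      rw [add_zero] at e
      rw [e]
      simp
  have key := card_values (S.image lg) hA C (KK h (m + m) (n + n)) (by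
    have key := bil_complex (fun p : Nat.Primes => (Real.log (p : ℕ) : ℂ))
      Pool.Agent.W254.HP.log_prime_alg Pool.Agent.W254.HP.log_primes_indep (coeH h) (by
        intro c hc
        obtain ⟨e, -, rfl⟩ := Finset.mem_image.1 hc
        exact isAlgebraic_algebraMap (e : ℚ)) (S.image lg) hA (by
        intro z hz
        obtain ⟨a, ha, rfl⟩ := Finset.mem_image.1 hz
        exact isComb_log' (hS a ha).2) (dbl C) 0 0
    rw [card_coeH] at key
    refine key.trans ?_
    rw [mul_assoc]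
    exact Nat.mul_le_mul_left _ (KK_bound h _ _))
  rw [hv, Finset.card_image_of_injOn (lg_injOn hS)] at key
  exact key

end Pool.Agent.Helper13K9.BL
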