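import Pool.Agent.Helper13K9.BL.Quad

/-!
# Polynomials with diagonal leading form at logarithms of products
-/

set_option autoImplicit false

namespace Pool.Agent.Helper13K9.BL

open Module Finset Matrix

/-- the functions of arrays with `D` rows -/
abbrev Fun (D n : ℕ) : Type := (Fin D → Fin n → ℕ) → ℂ

/-- the function depends only on the rows in `J` -/
def Dep {D n : ℕ} (J : Finset (Fin D)) (G : Fun D n) : Prop :=
  ∀ x x', (∀ j ∈ J, x j = x' j) → G x = G x'

/-- sums of functions each of which is independent of one row -/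
def MM (D n : ℕ) : Submodule ℂ (Fun D n) where
  carrier := {G | ∃ f : Fin D → (Fin D → Fin n → ℕ) → ℂ, Free f ∧ G = fun x => ∑ j, f j x}
  add_mem' := by
    rintro _ _ ⟨f, hf, rfl⟩ ⟨g, hg, rfl⟩
    refine ⟨fun j x => f j x + g j x, fun j x x' h => ?_, ?_⟩
    · simp only
      rw [hf j x x' h, hg j x x' h]
    · funext x
      simp [Finset.sum_add_distrib]
  zero_mem' := ⟨fun _ _ => 0, fun _ _ _ _ => rfl, by funext x; simp⟩
  smul_mem' := by
    rintro c _ ⟨f, hf, rfl⟩
    refine ⟨fun j x => c * f j x, fun j x x' h => ?_, ?_⟩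
    · simp only
      rw [hf j x x' h]
    · funext x
      simp [Finset.mul_sum]

theorem dep_mem {D n : ℕ} {J : Finset (Fin D)} {G : Fun D n} (hG : Dep J G) (hJ : J.card < D) :
    G ∈ MM D n := by
  classical
  obtain ⟨j₀, hj₀⟩ : ∃ j₀, j₀ ∉ J := by
    by_contra hcon
    push Not at hcon
    have : J = Finset.univ := Finset.eq_univ_iff_forall.2 hcon
    rw [this, Finset.card_univ, Fintype.card_fin] at hJ
    exact lt_irrefl _ hJ
  refine ⟨fun j => if j = j₀ then G else 0, ?_, ?_⟩
  · intro j x x' h
    change (if j = j₀ then G else 0) x = (if j = j₀ then G else 0) x'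
    by_cases hj : j = j₀
    · rw [if_pos hj]
      apply hG
      intro k hk
      apply h
      intro hkj
      exact hj₀ (by rw [← hj, ← hkj]; exact hk)
    · rw [if_neg hj]
      rfl
  · funext x
    change G x = ∑ j, (if j = j₀ then G else 0) x
    rw [Finset.sum_eq_single j₀]
    · rw [if_pos rfl]
    · intro j _ hj
      rw [if_neg hj]
      rfl
    · intro h
      exact absurd (Finset.mem_univ j₀) h

/-- sums of functions of at most `e` rows -/
def NN (D n e : ℕ) : Submodule ℂ (Fun D n) :=
  Submodule.span ℂ {G | ∃ J : Finset (Fin D), J.card ≤ e ∧ Dep J G}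

theorem NN_mul {D n e e' : ℕ} {G G' : Fun D n} (hG : G ∈ NN D n e) (hG' : G' ∈ NN D n e') :
    G * G' ∈ NN D n (e + e') := by
  classical
  have h1 : NN D n e * NN D n e' ≤ NN D n (e + e') := by
    rw [NN, NN, Submodule.span_mul_span, Submodule.span_le]
    rintro _ ⟨A, ⟨J, hJ, hA⟩, B, ⟨J', hJ', hB⟩, rfl⟩
    apply Submodule.subset_span
    refine ⟨J ∪ J', (Finset.card_union_le _ _).trans (by omega), ?_⟩
    intro x x' h
    simp only [Pi.mul_apply]
    rw [hA x x' fun j hj => h j (Finset.mem_union_left _ hj),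
      hB x x' fun j hj => h j (Finset.mem_union_right _ hj)]
  exact h1 (Submodule.mul_mem_mul hG hG')

theorem NN_pow {D n e : ℕ} {G : Fun D n} (hG : G ∈ NN D n e) (k : ℕ) :
    G ^ k ∈ NN D n (e * k) := by
  induction k with
  | zero =>
    apply Submodule.subset_span
    exact ⟨∅, by simp, fun x x' _ => rfl⟩
  | succ k ih =>
    rw [pow_succ]
    have := NN_mul ih hG
    rwa [← Nat.mul_succ] at this

theorem NN_prod {D n : ℕ} {ι : Type*} (s : Finset ι) (e : ι → ℕ) (G : ι → Fun D n)
    (hG : ∀ i ∈ s, G i ∈ NN D n (e i)) : ∏ i ∈ s, G i ∈ NN D n (∑ i ∈ s, e i) := by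
  classical
  induction s using Finset.induction_on with
  | empty =>
    apply Submodule.subset_span
    exact ⟨∅, by simp, fun x x' _ => rfl⟩
  | insert i s hi ih =>
    rw [Finset.prod_insert hi, Finset.sum_insert hi]
    exact NN_mul (hG i (Finset.mem_insert_self _ _))
      (ih fun k hk => hG k (Finset.mem_insert_of_mem hk))

theorem NN_le {D n e : ℕ} (he : e < D) : NN D n e ≤ MM D n := by
  rw [NN, Submodule.span_le]
  rintro G ⟨J, hJ, hG⟩
  exact dep_mem hG (by omega)

/-- the sum of the logarithms of a column -/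
noncomputable def zc {D n : ℕ} (i : Fin n) : Fun D n := fun x => ∑ j, lg (x j i)

theorem zc_mem {D n : ℕ} (i : Fin n) : (zc i : Fun D n) ∈ NN D n 1 := by
  have : (zc i : Fun D n) = ∑ j, fun x => lg (x j i) := by
    funext x
    rw [Finset.sum_apply]
    rfl
  rw [this]
  apply Submodule.sum_mem
  intro j _
  apply Submodule.subset_span
  refine ⟨{j}, by simp, ?_⟩
  intro x x' h
  simp only
  rw [h j (Finset.mem_singleton_self j)]

theorem low_mem {D n : ℕ} (Q : MvPolynomial (Fin n) ℂ) (hQ : Q.totalDegree < D) :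
    (fun x : Fin D → Fin n → ℕ => MvPolynomial.eval (fun i => zc i x) Q) ∈ MM D n := by
  classical
  have h1 : (fun x : Fin D → Fin n → ℕ => MvPolynomial.eval (fun i => zc i x) Q) =
      ∑ s ∈ Q.support, Q.coeff s • ∏ i, (zc i : Fun D n) ^ s i := by
    funext x
    rw [MvPolynomial.eval_eq', Finset.sum_apply]
    apply Finset.sum_congr rfl
    intro s _
    simp [Finset.prod_apply]
  rw [h1]
  apply Submodule.sum_mem
  intro s hs
  apply Submodule.smul_mem
  have h2 := NN_prod Finset.univ (fun i => 1 * s i) (fun i => (zc i : Fun D n) ^ s i)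
    (fun i _ => NN_pow (zc_mem i) (s i))
  refine NN_le ?_ h2
  have h3 := MvPolynomial.le_totalDegree hs
  have h4 : (s.sum fun _ e => e) = ∑ i, 1 * s i := by
    rw [Finsupp.sum_fintype _ _ (fun _ => rfl)]
    simp
  omega

/-- the number of bijections -/
noncomputable def bij (D : ℕ) : ℕ :=
  open Classical in (Finset.univ.filter fun p : Fin D → Fin D => Function.Bijective p).card

theorem bij_ne (D : ℕ) : bij D ≠ 0 := by
  classical
  rw [bij, Finset.card_ne_zero]
  exact ⟨id, Finset.mem_filter.2 ⟨Finset.mem_univ _, Function.bijective_id⟩⟩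

theorem top_mem {D n : ℕ} (i : Fin n) :
    ((zc i : Fun D n) ^ D - fun x => (bij D : ℂ) * ∏ j, lg (x j i)) ∈ MM D n := by
  classical
  have h1 : ((zc i : Fun D n) ^ D - fun x => (bij D : ℂ) * ∏ j, lg (x j i)) =
      ∑ p ∈ Finset.univ.filter (fun p : Fin D → Fin D => ¬ Function.Bijective p),
        fun x => ∏ k, lg (x (p k) i) := by
    funext x
    rw [Finset.sum_apply, Pi.sub_apply, Pi.pow_apply]
    simp only [zc]
    rw [Fintype.sum_pow, ← Finset.sum_filter_add_sum_filter_not Finset.univ
      (fun p : Fin D → Fin D => Function.Bijective p)]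
    have h2 : ∑ p ∈ Finset.univ.filter (fun p : Fin D → Fin D => Function.Bijective p),
        ∏ k, lg (x (p k) i) = (bij D : ℂ) * ∏ j, lg (x j i) := by
      rw [bij, ← nsmul_eq_mul, ← Finset.sum_const]
      apply Finset.sum_congr rfl
      intro p hp
      exact Function.Bijective.prod_comp (Finset.mem_filter.1 hp).2 fun j => lg (x j i)
    rw [h2]
    ring
  rw [h1]
  apply Submodule.sum_mem
  intro p hp
  have hp' := (Finset.mem_filter.1 hp).2
  have h3 : ¬ Function.Surjective p := fun h => hp' (Finite.surjective_iff_bijective.1 h)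
  apply dep_mem (J := Finset.univ.image p)
  · intro x x' h
    simp only
    apply Finset.prod_congr rfl
    intro k _
    rw [h (p k) (Finset.mem_image_of_mem _ (Finset.mem_univ k))]
  · have h4 : Finset.univ.image p ≠ Finset.univ := by
      intro h4
      apply h3
      intro j
      have : j ∈ Finset.univ.image p := by rw [h4]; exact Finset.mem_univ j
      obtain ⟨k, -, hk⟩ := Finset.mem_image.1 this
      exact ⟨k, hk⟩
    have h5 := Finset.card_lt_univ_of_notMem (s := Finset.univ.image p) (x := by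
      exact (by
        have : ∃ j, j ∉ Finset.univ.image p := by
          by_contra hcon
          push Not at hcon
          exact h4 (Finset.eq_univ_iff_forall.2 hcon)
        exact this.choose)) (by
      exact (by
        have : ∃ j, j ∉ Finset.univ.image p := by
          by_contra hcon
          push Not at hcon
          exact h4 (Finset.eq_univ_iff_forall.2 hcon)
        exact this.choose_spec))
    rwa [Fintype.card_fin] at h5

theorem lg_prod {D : ℕ} (y : Fin D → ℕ) (hy : ∀ j, y j ≠ 0) : lg (∏ j, y j) = ∑ j, lg (y j) := by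
  classical
  simp only [lg]
  rw [Nat.cast_prod, Real.log_prod (fun j _ => by exact_mod_cast hy j), Complex.ofReal_sum]

/-- **Polynomials with diagonal leading form.** -/
theorem poly_nat {n : ℕ} (h : ℕ) (S : Finset ℕ) (hS : ExpLe h S) (hS0 : S.Nonempty) (d : ℕ)
    (c : Fin n → ℂ) (Q : MvPolynomial (Fin n) ℂ) (hQ : Q.totalDegree < d + 2) :
    {x : Fin (d + 2) → Fin n → ℕ | (∀ j i, x j i ∈ S) ∧
      ∑ i, c i * lg (∏ j, x j i) ^ (d + 2) +
        MvPolynomial.eval (fun i => lg (∏ j, x j i)) Q = 0}.ncard ^ (2 ^ (d + 1)) *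
      S.card ^ (supp c).card ≤
      (KK h (n + n) n * 2 ^ (n * d)) * S.card ^ (n * (d + 2) * 2 ^ (d + 1)) := by
  classical
  have hmem : (fun x : Fin (d + 2) → Fin n → ℕ => ∑ i, c i * zc i x ^ (d + 2) +
      MvPolynomial.eval (fun i => zc i x) Q -
        ∑ i, (bij (d + 2) * c i) * ∏ j, lg (x j i)) ∈ MM (d + 2) n := by
    have h1 : (fun x : Fin (d + 2) → Fin n → ℕ => ∑ i, c i * zc i x ^ (d + 2) +
        MvPolynomial.eval (fun i => zc i x) Q -
          ∑ i, (bij (d + 2) * c i) * ∏ j, lg (x j i)) =
        (∑ i, c i • ((zc i : Fun (d + 2) n) ^ (d + 2) - fun x => (bij (d + 2) : ℂ) *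
          ∏ j, lg (x j i))) + fun x => MvPolynomial.eval (fun i => zc i x) Q := by
      funext x
      simp only [Pi.add_apply, Finset.sum_apply, Pi.smul_apply, Pi.sub_apply, Pi.pow_apply,
        smul_eq_mul, mul_sub, Finset.sum_sub_distrib]
      have h2 : ∑ i, (bij (d + 2) * c i) * ∏ j, lg (x j i) =
          ∑ i, c i * ((bij (d + 2) : ℂ) * ∏ j, lg (x j i)) := by
        apply Finset.sum_congr rfl
        intro i _
        ring
      rw [h2]
      ring
    rw [h1]
    apply Submodule.add_mem
    · apply Submodule.sum_mem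
      intro i _
      exact Submodule.smul_mem _ _ (top_mem i)
    · exact low_mem Q hQ
  obtain ⟨f, hf, hfx⟩ := hmem
  have hfree : Free (fun j x => - f j x) := by
    intro j x x' hx
    simp only
    rw [hf j x x' hx]
  have h1 := multi_nat h S hS hS0 d (fun i => bij (d + 2) * c i) (fun j x => - f j x) hfree
  have h2 : supp (fun i => (bij (d + 2) : ℂ) * c i) = supp c := by
    ext i
    simp only [supp, Finset.mem_filter, Finset.mem_univ, true_and]
    have : (bij (d + 2) : ℂ) ≠ 0 := by exact_mod_cast bij_ne (d + 2)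
    simp [this]
  rw [h2] at h1
  refine le_trans ?_ h1
  apply Nat.mul_le_mul_right
  apply Nat.pow_le_pow_left
  apply Set.ncard_le_ncard ?_ (dSol_finite _ _ _)
  rintro x ⟨hx1, hx2⟩
  refine ⟨hx1, ?_⟩
  have h3 : ∀ i, lg (∏ j, x j i) = zc i x := fun i =>
    lg_prod (fun j => x j i) fun j => (hS _ (hx1 j i)).1
  simp only [h3] at hx2
  have h4 : ∑ i, c i * zc i x ^ (d + 2) + MvPolynomial.eval (fun i => zc i x) Q -
      ∑ i, (bij (d + 2) * c i) * ∏ j, lg (x j i) = ∑ j, f j x := congrFun hfx x
  rw [hx2] at h4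
  rw [Finset.sum_neg_distrib, ← h4]
  ring

end Pool.Agent.Helper13K9.BL
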