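import Pool.Agent.Helper13K9.BL.Lin

/-!
# Quadratic polynomials at logarithms of products
-/

set_option autoImplicit false

namespace Pool.Agent.Helper13K9.BL

open Module Finset Matrix

theorem lg_mul {a b : ℕ} (ha : a ≠ 0) (hb : b ≠ 0) : lg (a * b) = lg a + lg b := by
  simp only [lg]
  rw [Nat.cast_mul, Real.log_mul (by exact_mod_cast ha) (by exact_mod_cast hb), Complex.ofReal_add]

/-- the value of a quadratic polynomial -/
noncomputable def qv {n : ℕ} (A : Matrix (Fin n) (Fin n) ℂ) (b : Fin n → ℂ) (c : ℂ)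
    (x : Fin n → ℂ) : ℂ := ∑ i, ∑ j, A i j * x i * x j + ∑ i, b i * x i + c

theorem qv_add {n : ℕ} (A : Matrix (Fin n) (Fin n) ℂ) (b : Fin n → ℂ) (c : ℂ)
    (x y : Fin n → ℂ) : qv A b c (fun i => x i + y i) =
      ∑ i, ∑ j, (A + A.transpose) i j * x i * y j + qv A b c x + qv A b c y - c := by
  have h1 : ∑ i, ∑ j, A i j * (x i + y i) * (x j + y j) =
      ∑ i, ∑ j, A i j * x i * x j + ∑ i, ∑ j, A i j * y i * y j +
        (∑ i, ∑ j, A i j * x i * y j + ∑ i, ∑ j, A i j * y i * x j) := by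
    rw [← Finset.sum_add_distrib, ← Finset.sum_add_distrib, ← Finset.sum_add_distrib]
    apply Finset.sum_congr rfl
    intro i _
    rw [← Finset.sum_add_distrib, ← Finset.sum_add_distrib, ← Finset.sum_add_distrib]
    apply Finset.sum_congr rfl
    intro j _
    ring
  have h2 : ∑ i, ∑ j, A i j * y i * x j = ∑ i, ∑ j, A.transpose i j * x i * y j := by
    rw [Finset.sum_comm]
    apply Finset.sum_congr rfl
    intro i _
    apply Finset.sum_congr rfl
    intro j _
    rw [Matrix.transpose_apply]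
    ring
  have h3 : ∑ i, ∑ j, (A + A.transpose) i j * x i * y j =
      ∑ i, ∑ j, A i j * x i * y j + ∑ i, ∑ j, A.transpose i j * x i * y j := by
    rw [← Finset.sum_add_distrib]
    apply Finset.sum_congr rfl
    intro i _
    rw [← Finset.sum_add_distrib]
    apply Finset.sum_congr rfl
    intro j _
    rw [Matrix.add_apply]
    ring
  have h4 : ∑ i, b i * (x i + y i) = ∑ i, b i * x i + ∑ i, b i * y i := by
    rw [← Finset.sum_add_distrib]
    apply Finset.sum_congr rfl
    intro i _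
    ring
  simp only [qv]
  rw [h1, h2, h3, h4]
  ring

theorem quad_nat {n : ℕ} (h : ℕ) (S : Finset ℕ) (hS : ExpLe h S) (hS0 : S.Nonempty)
    (A : Matrix (Fin n) (Fin n) ℂ) (b : Fin n → ℂ) (c : ℂ) :
    {r : (Fin n → ℕ) × (Fin n → ℕ) | (∀ i, r.1 i ∈ S) ∧ (∀ j, r.2 j ∈ S) ∧
      qv A b c (fun i => lg (r.1 i * r.2 i)) = 0}.ncard ^ 2 * S.card ^ (A + A.transpose).rank ≤
      KK h (n + n) n * S.card ^ (4 * n) := by
  have h1 := two_nat h S hS hS0 (A + A.transpose)
    (fun x => c - qv A b c fun i => lg (x i)) (fun y => - qv A b c fun i => lg (y i))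
  have h2 : {r : (Fin n → ℕ) × (Fin n → ℕ) | (∀ i, r.1 i ∈ S) ∧ (∀ j, r.2 j ∈ S) ∧
      qv A b c (fun i => lg (r.1 i * r.2 i)) = 0} =
      Sol2 S (A + A.transpose) (fun x => c - qv A b c fun i => lg (x i))
        (fun y => - qv A b c fun i => lg (y i)) := by
    ext r
    constructor
    · rintro ⟨h3, h4, h5⟩
      refine ⟨h3, h4, ?_⟩
      have e : (fun i => lg (r.1 i * r.2 i)) = fun i => lg (r.1 i) + lg (r.2 i) :=
        funext fun i => lg_mul (hS _ (h3 i)).1 (hS _ (h4 i)).1
      rw [e, qv_add] at h5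
      linear_combination h5
    · rintro ⟨h3, h4, h5⟩
      refine ⟨h3, h4, ?_⟩
      have e : (fun i => lg (r.1 i * r.2 i)) = fun i => lg (r.1 i) + lg (r.2 i) :=
        funext fun i => lg_mul (hS _ (h3 i)).1 (hS _ (h4 i)).1
      rw [e, qv_add]
      linear_combination h5
  rw [h2]
  have e : 2 * n + 2 * n = 4 * n := by ring
  rw [e] at h1
  exact h1

theorem expLe_primes {S : Finset ℕ} (hS : ∀ p ∈ S, p.Prime) : ExpLe 1 S := by
  intro p hp
  refine ⟨(hS p hp).ne_zero, fun q => ?_⟩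
  rw [(hS p hp).factorization, Finsupp.single_apply]
  split_ifs <;> omega

theorem expLe_Icc (X : ℕ) : ExpLe (Nat.log 2 X) (Finset.Icc 1 X) := by
  intro a ha
  rw [Finset.mem_Icc] at ha
  refine ⟨by omega, fun p => ?_⟩
  by_cases hp : p.Prime
  · apply Nat.le_log_of_pow_le (by norm_num)
    calc 2 ^ a.factorization p ≤ p ^ a.factorization p := Nat.pow_le_pow_left hp.two_le _
      _ ≤ a := Nat.ordProj_le p (by omega)
      _ ≤ X := ha.2
  · rw [Nat.factorization_eq_zero_of_not_prime _ hp]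
    omega

end Pool.Agent.Helper13K9.BL
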