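import Pool.Agent.Helper13K9.BL.Nt

/-!
# Several arbitrary functions
-/

set_option autoImplicit false

namespace Pool.Agent.Helper13K9.BL

open Module Finset Matrix

/-- two copies of the rows, with opposite signs -/
def stack {E : Type*} [Field E] {m n : ℕ} (C : Matrix (Fin m) (Fin n) E) :
    Matrix (Fin (m + m)) (Fin n) E :=
  Matrix.of fun i j => Fin.addCases (fun i => C i j) (fun i => -C i j) i

theorem rank_le_stack {E : Type*} [Field E] {m n : ℕ} (C : Matrix (Fin m) (Fin n) E) :
    C.rank ≤ (stack C).rank := by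
  have h : C = (stack C).submatrix (Fin.castAdd m) (Equiv.refl _) := by
    ext i j
    simp [stack]
  conv_lhs => rw [h]
  exact rank_submatrix_le _ _ _

/-- the solutions of a bilinear equation with an arbitrary function on each side -/
def Sol2 {m n : ℕ} (S : Finset ℕ) (C : Matrix (Fin m) (Fin n) ℂ)
    (f : (Fin m → ℕ) → ℂ) (g : (Fin n → ℕ) → ℂ) : Set ((Fin m → ℕ) × (Fin n → ℕ)) :=
  {r | (∀ i, r.1 i ∈ S) ∧ (∀ j, r.2 j ∈ S) ∧
    ∑ i, ∑ j, C i j * lg (r.1 i) * lg (r.2 j) = f r.1 + g r.2}

theorem sol2_finite {m n : ℕ} (S : Finset ℕ) (C : Matrix (Fin m) (Fin n) ℂ)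
    (f : (Fin m → ℕ) → ℂ) (g : (Fin n → ℕ) → ℂ) : (Sol2 S C f g).Finite := by
  classical
  refine Set.Finite.subset (Finset.finite_toSet
    ((Fintype.piFinset fun _ : Fin m => S) ×ˢ (Fintype.piFinset fun _ : Fin n => S))) ?_
  intro r hr
  rw [Finset.mem_coe, Finset.mem_product, Fintype.mem_piFinset, Fintype.mem_piFinset]
  exact ⟨hr.1, hr.2.1⟩

theorem two_nat {m n : ℕ} (h : ℕ) (S : Finset ℕ) (hS : ExpLe h S) (hS0 : S.Nonempty)
    (C : Matrix (Fin m) (Fin n) ℂ) (f : (Fin m → ℕ) → ℂ) (g : (Fin n → ℕ) → ℂ) :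
    (Sol2 S C f g).ncard ^ 2 * S.card ^ C.rank ≤ KK h (m + m) n * S.card ^ (2 * m + 2 * n) := by
  classical
  have hfin := sol2_finite S C f g
  set s := hfin.toFinset with hs
  have hcard : (Sol2 S C f g).ncard = s.card := Set.ncard_eq_toFinset_card _ hfin
  have h1 := energy s (Prod.snd)
  have h2 : (s.image Prod.snd).card ≤ S.card ^ n := by
    have : s.image Prod.snd ⊆ Fintype.piFinset fun _ : Fin n => S := by
      intro y hy
      obtain ⟨r, hr, rfl⟩ := Finset.mem_image.1 hy
      rw [hs, Set.Finite.mem_toFinset] at hr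
      rw [Fintype.mem_piFinset]
      exact hr.2.1
    refine (Finset.card_le_card this).trans ?_
    rw [Fintype.card_piFinset]
    simp
  let F : (Fin (m + m) → ℕ) → ℂ := fun z =>
    f (fun i => z (Fin.castAdd m i)) - f (fun i => z (Fin.natAdd m i))
  have h3 : ((s ×ˢ s).filter fun r => r.1.2 = r.2.2).card ≤ (Sol S (stack C) 0 F).ncard := by
    rw [← Set.ncard_coe_finset]
    refine Set.ncard_le_ncard_of_injOn (fun r => (Fin.append r.1.1 r.2.1, r.1.2)) ?_ ?_
      (sol_finite _ _ _ _)
    · intro r hr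
      rw [Finset.mem_coe, Finset.mem_filter, Finset.mem_product, hs, Set.Finite.mem_toFinset,
        Set.Finite.mem_toFinset] at hr
      obtain ⟨⟨⟨h3, h4, h5⟩, ⟨h6, h7, h8⟩⟩, h9⟩ := hr
      refine ⟨?_, h4, ?_⟩
      · intro i
        refine Fin.addCases (fun i => ?_) (fun i => ?_) i
        · simpa [-Fin.natAdd_eq_addNat] using h3 i
        · simpa [-Fin.natAdd_eq_addNat] using h6 i
      · simp only [F, Fin.append_left, Fin.append_right, Fin.sum_univ_add, stack, Matrix.of_apply,
          Fin.addCases_left, Fin.addCases_right, Pi.zero_apply, zero_mul, Finset.sum_const_zero,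
          add_zero, neg_mul, Finset.sum_neg_distrib]
        rw [← h9] at h8
        have e1 : (fun i => r.1.1 i) = r.1.1 := rfl
        have e2 : (fun i => r.2.1 i) = r.2.1 := rfl
        rw [h5, h8, e1, e2]
        ring
    · intro r hr r' hr' hrr
      rw [Finset.mem_coe, Finset.mem_filter] at hr hr'
      have e0 : (Fin.append r.1.1 r.2.1, r.1.2) = (Fin.append r'.1.1 r'.2.1, r'.1.2) := hrr
      have e1 : Fin.append r.1.1 r.2.1 = Fin.append r'.1.1 r'.2.1 := (Prod.mk.inj e0).1
      have e2 : r.1.2 = r'.1.2 := (Prod.mk.inj e0).2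
      have e3 : r.1.1 = r'.1.1 := by
        funext i
        have := congrFun e1 (Fin.castAdd m i)
        simpa [-Fin.natAdd_eq_addNat] using this
      have e4 : r.2.1 = r'.2.1 := by
        funext i
        have := congrFun e1 (Fin.natAdd m i)
        simpa [-Fin.natAdd_eq_addNat] using this
      have e5 : r.2.2 = r'.2.2 := by rw [← hr.2, ← hr'.2, e2]
      exact Prod.ext (Prod.ext e3 e2) (Prod.ext e4 e5)
  have h4 := bil_nat h S hS hS0 (stack C) 0 F
  have h5 := rank_le_stack C
  have h6 : (stack C).rank ≤ n := (stack C).rank_le_width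
  have hS1 : 0 < S.card := hS0.card_pos
  rw [hcard]
  calc s.card ^ 2 * S.card ^ C.rank
      ≤ ((s.image Prod.snd).card * ((s ×ˢ s).filter fun r => r.1.2 = r.2.2).card) *
          S.card ^ (stack C).rank := Nat.mul_le_mul h1 (Nat.pow_le_pow_right hS1 h5)
    _ ≤ (S.card ^ n * (KK h (m + m) n * S.card ^ (m + m + n - (stack C).rank))) *
          S.card ^ (stack C).rank := by
        gcongr
        exact h3.trans h4
    _ = KK h (m + m) n * S.card ^ (2 * m + 2 * n) := by
        have : S.card ^ (2 * m + 2 * n) =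
            S.card ^ n * S.card ^ (m + m + n - (stack C).rank) * S.card ^ (stack C).rank := by
          rw [← pow_add, ← pow_add]
          congr 1
          omega
        rw [this]
        ring

/-- the solutions of an equation whose main term is a sum of `n` products of `D` logarithms -/
def DSol {D n : ℕ} (S : Finset ℕ) (c : Fin n → ℂ) (f : Fin D → (Fin D → Fin n → ℕ) → ℂ) :
    Set (Fin D → Fin n → ℕ) :=
  {x | (∀ j i, x j i ∈ S) ∧ ∑ i, c i * ∏ j, lg (x j i) = ∑ j, f j x}

theorem dSol_finite {D n : ℕ} (S : Finset ℕ) (c : Fin n → ℂ)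
    (f : Fin D → (Fin D → Fin n → ℕ) → ℂ) : (DSol S c f).Finite := by
  classical
  refine Set.Finite.subset (Finset.finite_toSet
    (Fintype.piFinset fun _ : Fin D => Fintype.piFinset fun _ : Fin n => S)) ?_
  intro x hx
  rw [Finset.mem_coe, Fintype.mem_piFinset]
  intro j
  rw [Fintype.mem_piFinset]
  exact hx.1 j

/-- `f j` does not depend on the `j`-th column -/
def Free {D n : ℕ} (f : Fin D → (Fin D → Fin n → ℕ) → ℂ) : Prop :=
  ∀ j x x', (∀ j', j' ≠ j → x j' = x' j') → f j x = f j x'

theorem pow_sum_le {ι : Type*} (s : Finset ι) (M : ι → ℕ) (k : ℕ) :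
    (∑ i ∈ s, M i) ^ (2 ^ k) ≤ s.card ^ (2 ^ k - 1) * ∑ i ∈ s, M i ^ (2 ^ k) := by
  induction k with
  | zero => simp
  | succ k ih =>
    have h1 : (∑ i ∈ s, M i ^ (2 ^ k)) ^ 2 ≤ s.card * ∑ i ∈ s, (M i ^ (2 ^ k)) ^ 2 :=
      sq_sum_le_card_mul_sum_sq
    have h2 : 2 ^ (k + 1) - 1 = (2 ^ k - 1) * 2 + 1 := by
      have : 1 ≤ 2 ^ k := Nat.one_le_two_pow
      rw [pow_succ]
      omega
    calc (∑ i ∈ s, M i) ^ (2 ^ (k + 1)) = ((∑ i ∈ s, M i) ^ (2 ^ k)) ^ 2 := by
          rw [← pow_mul, pow_succ]
      _ ≤ (s.card ^ (2 ^ k - 1) * ∑ i ∈ s, M i ^ (2 ^ k)) ^ 2 := Nat.pow_le_pow_left ih 2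
      _ = (s.card ^ (2 ^ k - 1)) ^ 2 * (∑ i ∈ s, M i ^ (2 ^ k)) ^ 2 := mul_pow _ _ _
      _ ≤ (s.card ^ (2 ^ k - 1)) ^ 2 * (s.card * ∑ i ∈ s, (M i ^ (2 ^ k)) ^ 2) :=
          Nat.mul_le_mul_left _ h1
      _ = s.card ^ (2 ^ (k + 1) - 1) * ∑ i ∈ s, M i ^ (2 ^ (k + 1)) := by
          have e : ∑ i ∈ s, (M i ^ (2 ^ k)) ^ 2 = ∑ i ∈ s, M i ^ (2 ^ (k + 1)) := by
            apply Finset.sum_congr rfl
            intro i _
            rw [← pow_mul, pow_succ 2 k]
          rw [e, h2, pow_succ s.card, pow_mul s.card]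
          ring

/-- the coefficients which do not vanish -/
noncomputable def supp {n : ℕ} (c : Fin n → ℂ) : Finset (Fin n) :=
  open Classical in Finset.univ.filter fun i => c i ≠ 0

theorem rank_diag {n : ℕ} (c : Fin n → ℂ) : (Matrix.diagonal c).rank = (supp c).card := by
  classical
  rw [Matrix.rank_diagonal, supp, Fintype.card_subtype]

theorem sum_coinc {n : ℕ} (S : Finset ℕ) :
    ∑ p ∈ Fintype.piFinset (fun _ : Fin n => S ×ˢ S),
      S.card ^ (Finset.univ.filter fun i => (p i).1 = (p i).2).card ≤ (2 * S.card ^ 2) ^ n := by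
  classical
  have h1 : ∀ p : Fin n → ℕ × ℕ, S.card ^ (Finset.univ.filter fun i => (p i).1 = (p i).2).card =
      ∏ i, (if (p i).1 = (p i).2 then S.card else 1) := by
    intro p
    rw [Finset.prod_ite, Finset.prod_const, Finset.prod_const_one, mul_one]
  simp only [h1]
  rw [← Finset.prod_univ_sum (fun _ : Fin n => S ×ˢ S)
    (fun _ u => if u.1 = u.2 then S.card else 1)]
  rw [Finset.prod_const, Finset.card_univ, Fintype.card_fin]
  apply Nat.pow_le_pow_left
  rw [Finset.sum_product]
  calc ∑ a ∈ S, ∑ b ∈ S, (if a = b then S.card else 1)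
      ≤ ∑ a ∈ S, ∑ b ∈ S, ((if a = b then S.card else 0) + 1) := by
        apply Finset.sum_le_sum
        intro a _
        apply Finset.sum_le_sum
        intro b _
        split_ifs <;> omega
    _ = ∑ a ∈ S, (S.card + S.card) := by
        apply Finset.sum_congr rfl
        intro a ha
        rw [Finset.sum_add_distrib, Finset.sum_ite_eq, if_pos ha, Finset.sum_const, smul_eq_mul,
          mul_one]
    _ = 2 * S.card ^ 2 := by
        rw [Finset.sum_const, smul_eq_mul]
        ring

theorem multi_nat {n : ℕ} (h : ℕ) (S : Finset ℕ) (hS : ExpLe h S) (hS0 : S.Nonempty) (d : ℕ) :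
    ∀ (c : Fin n → ℂ) (f : Fin (d + 2) → (Fin (d + 2) → Fin n → ℕ) → ℂ), Free f →
    (DSol S c f).ncard ^ (2 ^ (d + 1)) * S.card ^ (supp c).card ≤
      (KK h (n + n) n * 2 ^ (n * d)) * S.card ^ (n * (d + 2) * 2 ^ (d + 1)) := by
  classical
  have hS1 : 0 < S.card := hS0.card_pos
  induction d with
  | zero =>
    intro c f hf
    have h1 := two_nat h S hS hS0 (Matrix.diagonal c) (fun x => f 1 ![x, x])
      (fun y => f 0 ![y, y])
    rw [rank_diag] at h1
    have h2 : (DSol S c f).ncard ≤ (Sol2 S (Matrix.diagonal c) (fun x => f 1 ![x, x])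
      (fun y => f 0 ![y, y])).ncard := by
      refine Set.ncard_le_ncard_of_injOn (fun x => (x 0, x 1)) ?_ ?_ (sol2_finite _ _ _ _)
      · intro x hx
        refine ⟨hx.1 0, hx.1 1, ?_⟩
        have h3 : ∑ i, c i * ∏ j : Fin 2, lg (x j i) = ∑ j : Fin 2, f j x := hx.2
        simp only [Fin.prod_univ_two, Fin.sum_univ_two] at h3
        have h4 : f 0 ![x 1, x 1] = f 0 x := hf 0 _ _ (by
          intro j hj
          fin_cases j
          · exact absurd rfl hj
          · rfl)
        have h5 : f 1 ![x 0, x 0] = f 1 x := hf 1 _ _ (by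
          intro j hj
          fin_cases j
          · rfl
          · exact absurd rfl hj)
        change ∑ i, ∑ j, Matrix.diagonal c i j * lg (x 0 i) * lg (x 1 j) =
          f 1 ![x 0, x 0] + f 0 ![x 1, x 1]
        rw [h4, h5, add_comm (f 1 x), ← h3]
        apply Finset.sum_congr rfl
        intro i _
        rw [Finset.sum_eq_single i]
        · rw [Matrix.diagonal_apply_eq]
          ring
        · intro j _ hj
          rw [Matrix.diagonal_apply_ne' _ hj]
          ring
        · intro hi
          exact absurd (Finset.mem_univ i) hi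
      · intro x _ x' _ hxx
        have e1 : x 0 = x' 0 := congrArg Prod.fst hxx
        have e2 : x 1 = x' 1 := congrArg Prod.snd hxx
        funext j
        fin_cases j
        · exact e1
        · exact e2
    calc (DSol S c f).ncard ^ (2 ^ (0 + 1)) * S.card ^ (supp c).card
        ≤ (Sol2 S (Matrix.diagonal c) (fun x => f 1 ![x, x]) (fun y => f 0 ![y, y])).ncard ^ 2 *
          S.card ^ (supp c).card := by
          norm_num
          gcongr
      _ ≤ KK h (n + n) n * S.card ^ (2 * n + 2 * n) := h1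
      _ = (KK h (n + n) n * 2 ^ (n * 0)) * S.card ^ (n * (0 + 2) * 2 ^ (0 + 1)) := by
          have e1 : n * (0 + 2) * 2 ^ (0 + 1) = 2 * n + 2 * n := by ring
          rw [e1]
          simp
  | succ d ih =>
    intro c f hf
    have hfin := dSol_finite S c f
    set s := hfin.toFinset with hs
    have hcard : (DSol S c f).ncard = s.card := Set.ncard_eq_toFinset_card _ hfin
    have h1 := energy s (fun x : Fin (d + 3) → Fin n → ℕ => Fin.tail x)
    have h2 : (s.image (fun x : Fin (d + 3) → Fin n → ℕ => Fin.tail x)).card ≤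
        S.card ^ (n * (d + 2)) := by
      have : s.image (fun x : Fin (d + 3) → Fin n → ℕ => Fin.tail x) ⊆
          Fintype.piFinset fun _ : Fin (d + 2) => Fintype.piFinset fun _ : Fin n => S := by
        intro y hy
        obtain ⟨x, hx, rfl⟩ := Finset.mem_image.1 hy
        rw [hs, Set.Finite.mem_toFinset] at hx
        rw [Fintype.mem_piFinset]
        intro j
        rw [Fintype.mem_piFinset]
        exact hx.1 _
      refine (Finset.card_le_card this).trans ?_
      rw [Fintype.card_piFinset]
      simp only [Fintype.card_piFinset, Finset.prod_const, Finset.card_univ, Fintype.card_fin]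
      rw [← pow_mul]
    -- the fibres
    let c' : (Fin n → ℕ × ℕ) → Fin n → ℂ := fun p i => c i * (lg (p i).1 - lg (p i).2)
    let f' : (Fin n → ℕ × ℕ) → Fin (d + 2) → (Fin (d + 2) → Fin n → ℕ) → ℂ := fun p j y =>
      f j.succ (Fin.cons (fun i => (p i).1) y) - f j.succ (Fin.cons (fun i => (p i).2) y)
    let M : (Fin n → ℕ × ℕ) → ℕ := fun p => (DSol S (c' p) (f' p)).ncard
    have hf' : ∀ p, Free (f' p) := by
      intro p j x x' hxx
      simp only [f']
      rw [hf j.succ (Fin.cons (fun i => (p i).1) x) (Fin.cons (fun i => (p i).1) x') ?_,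
        hf j.succ (Fin.cons (fun i => (p i).2) x) (Fin.cons (fun i => (p i).2) x') ?_]
      · intro j' hj'
        refine Fin.cases (fun _ => rfl) (fun k hk => ?_) j' hj'
        rw [Fin.cons_succ, Fin.cons_succ]
        exact hxx k fun h => hk (by rw [h])
      · intro j' hj'
        refine Fin.cases (fun _ => rfl) (fun k hk => ?_) j' hj'
        rw [Fin.cons_succ, Fin.cons_succ]
        exact hxx k fun h => hk (by rw [h])
    have h3 : ((s ×ˢ s).filter fun r => Fin.tail r.1 = Fin.tail r.2).card ≤
        ∑ p ∈ Fintype.piFinset (fun _ : Fin n => S ×ˢ S), M p := by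
      rw [Finset.card_eq_sum_card_fiberwise (f := fun r : (Fin (d + 3) → Fin n → ℕ) ×
        (Fin (d + 3) → Fin n → ℕ) => fun i => (r.1 0 i, r.2 0 i))
        (t := Fintype.piFinset (fun _ : Fin n => S ×ˢ S))]
      · apply Finset.sum_le_sum
        intro p _
        rw [← Set.ncard_coe_finset]
        refine Set.ncard_le_ncard_of_injOn (fun r => Fin.tail r.1) ?_ ?_ (dSol_finite _ _ _)
        · intro r hr
          rw [Finset.mem_coe, Finset.mem_filter, Finset.mem_filter, Finset.mem_product, hs,
            Set.Finite.mem_toFinset, Set.Finite.mem_toFinset] at hr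
          obtain ⟨⟨⟨h4, h5⟩, h6⟩, h7⟩ := hr
          refine ⟨fun j i => h4.1 _ _, ?_⟩
          have e1 : r.1 = Fin.cons (fun i => (p i).1) (Fin.tail r.1) := by
            conv_lhs => rw [← Fin.cons_self_tail r.1]
            congr 1
            funext i
            rw [← h7]
          have e2 : r.2 = Fin.cons (fun i => (p i).2) (Fin.tail r.1) := by
            rw [h6]
            conv_lhs => rw [← Fin.cons_self_tail r.2]
            congr 1
            funext i
            rw [← h7]
          have h8 := h4.2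
          have h9 := h5.2
          have h10 : f 0 r.1 = f 0 r.2 := hf 0 _ _ (by
            intro j' hj'
            refine Fin.cases (fun h => absurd rfl h) (fun k _ => ?_) j' hj'
            exact congrFun h6 k)
          rw [Fin.sum_univ_succ (f := fun j => f j r.1)] at h8
          rw [Fin.sum_univ_succ (f := fun j => f j r.2), ← h10] at h9
          have h11 : ∑ i, c' p i * ∏ j, lg (Fin.tail r.1 j i) =
              (∑ i, c i * ∏ j, lg (r.1 j i)) - ∑ i, c i * ∏ j, lg (r.2 j i) := by
            rw [← Finset.sum_sub_distrib]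
            apply Finset.sum_congr rfl
            intro i _
            rw [Fin.prod_univ_succ (f := fun j => lg (r.1 j i)),
              Fin.prod_univ_succ (f := fun j => lg (r.2 j i))]
            have e3 : ∀ j : Fin (d + 2), r.2 j.succ i = Fin.tail r.1 j i := by
              intro j
              exact congrFun (congrFun h6.symm j) i
            have e4 : ∀ j : Fin (d + 2), r.1 j.succ i = Fin.tail r.1 j i := fun j => rfl
            simp only [e3, e4, c']
            rw [← h7]
            ring
          have h12 : ∑ j, f' p j (Fin.tail r.1) =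
              (∑ j : Fin (d + 2), f j.succ r.1) - ∑ j : Fin (d + 2), f j.succ r.2 := by
            rw [← Finset.sum_sub_distrib]
            apply Finset.sum_congr rfl
            intro j _
            simp only [f']
            rw [← e1, ← e2]
          rw [h11, h12, h8, h9]
          ring
        · intro r hr r' hr' hrr
          rw [Finset.mem_coe, Finset.mem_filter, Finset.mem_filter] at hr hr'
          simp only at hrr
          have e1 : r.1 0 = r'.1 0 := by
            funext i
            have := congrFun (hr.2.trans hr'.2.symm) i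
            exact congrArg Prod.fst this
          have e2 : r.2 0 = r'.2 0 := by
            funext i
            have := congrFun (hr.2.trans hr'.2.symm) i
            exact congrArg Prod.snd this
          have e3 : Fin.tail r.2 = Fin.tail r'.2 := by
            rw [← hr.1.2, ← hr'.1.2, hrr]
          refine Prod.ext ?_ ?_
          · rw [← Fin.cons_self_tail r.1, ← Fin.cons_self_tail r'.1, e1, hrr]
          · rw [← Fin.cons_self_tail r.2, ← Fin.cons_self_tail r'.2, e2, e3]
      · intro r hr
        rw [Finset.mem_coe, Finset.mem_filter, Finset.mem_product, hs, Set.Finite.mem_toFinset,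
          Set.Finite.mem_toFinset] at hr
        rw [Finset.mem_coe, Fintype.mem_piFinset]
        intro i
        rw [Finset.mem_product]
        exact ⟨hr.1.1.1 _ _, hr.1.2.1 _ _⟩
    -- the size of the exceptional coefficients
    have h4 : ∀ p : Fin n → ℕ × ℕ, p ∈ Fintype.piFinset (fun _ : Fin n => S ×ˢ S) →
        (supp c).card ≤ (supp (c' p)).card +
          (Finset.univ.filter fun i => (p i).1 = (p i).2).card := by
      intro p hp
      refine le_trans (Finset.card_le_card ?_) (Finset.card_union_le _ _)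
      intro i hi
      rw [supp, Finset.mem_filter] at hi
      rw [Finset.mem_union, supp, Finset.mem_filter, Finset.mem_filter]
      by_cases he : (p i).1 = (p i).2
      · exact Or.inr ⟨Finset.mem_univ _, he⟩
      · refine Or.inl ⟨Finset.mem_univ _, mul_ne_zero hi.2 ?_⟩
        rw [Fintype.mem_piFinset] at hp
        have h5 := Finset.mem_product.1 (hp i)
        exact sub_ne_zero.2 fun h6 => he (lg_injOn hS h5.1 h5.2 h6)
    set K := KK h (n + n) n * 2 ^ (n * d) with hK
    have h5 : (∑ p ∈ Fintype.piFinset (fun _ : Fin n => S ×ˢ S), M p ^ (2 ^ (d + 1))) *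
        S.card ^ (supp c).card ≤
        K * S.card ^ (n * (d + 2) * 2 ^ (d + 1)) * (2 * S.card ^ 2) ^ n := by
      rw [Finset.sum_mul]
      calc ∑ p ∈ Fintype.piFinset (fun _ : Fin n => S ×ˢ S),
            M p ^ (2 ^ (d + 1)) * S.card ^ (supp c).card
          ≤ ∑ p ∈ Fintype.piFinset (fun _ : Fin n => S ×ˢ S),
            (K * S.card ^ (n * (d + 2) * 2 ^ (d + 1))) *
              S.card ^ (Finset.univ.filter fun i => (p i).1 = (p i).2).card := by
            apply Finset.sum_le_sum
            intro p hp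
            calc M p ^ (2 ^ (d + 1)) * S.card ^ (supp c).card
                ≤ M p ^ (2 ^ (d + 1)) * S.card ^ ((supp (c' p)).card +
                  (Finset.univ.filter fun i => (p i).1 = (p i).2).card) :=
                  Nat.mul_le_mul_left _ (Nat.pow_le_pow_right hS1 (h4 p hp))
              _ = (M p ^ (2 ^ (d + 1)) * S.card ^ (supp (c' p)).card) *
                  S.card ^ (Finset.univ.filter fun i => (p i).1 = (p i).2).card := by
                  rw [pow_add S.card, mul_assoc]
              _ ≤ _ := Nat.mul_le_mul_right _ (ih (c' p) (f' p) (hf' p))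
        _ = (K * S.card ^ (n * (d + 2) * 2 ^ (d + 1))) *
            ∑ p ∈ Fintype.piFinset (fun _ : Fin n => S ×ˢ S),
              S.card ^ (Finset.univ.filter fun i => (p i).1 = (p i).2).card := by
            rw [Finset.mul_sum]
        _ ≤ _ := Nat.mul_le_mul_left _ (sum_coinc S)
    have h6 := pow_sum_le (Fintype.piFinset (fun _ : Fin n => S ×ˢ S)) M (d + 1)
    have h7 : (Fintype.piFinset (fun _ : Fin n => S ×ˢ S)).card = S.card ^ (2 * n) := by
      rw [Fintype.card_piFinset]
      simp only [Finset.card_product, Finset.prod_const, Finset.card_univ, Fintype.card_fin]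
      rw [← sq, ← pow_mul]
    rw [h7] at h6
    rw [hcard]
    have h8 : s.card ^ 2 ≤ S.card ^ (n * (d + 2)) *
        ∑ p ∈ Fintype.piFinset (fun _ : Fin n => S ×ˢ S), M p :=
      h1.trans (Nat.mul_le_mul h2 h3)
    have hexp : n * (d + 2) * 2 ^ (d + 1) + 2 * n * (2 ^ (d + 1) - 1) +
        n * (d + 2) * 2 ^ (d + 1) + 2 * n = n * (d + 1 + 2) * 2 ^ (d + 1 + 1) := by
      have h9 : 2 * n * (2 ^ (d + 1) - 1) + 2 * n = 2 * n * 2 ^ (d + 1) := by
        have : 1 ≤ 2 ^ (d + 1) := Nat.one_le_two_pow
        rw [← Nat.mul_add_one, Nat.sub_add_cancel this]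
      calc n * (d + 2) * 2 ^ (d + 1) + 2 * n * (2 ^ (d + 1) - 1) +
            n * (d + 2) * 2 ^ (d + 1) + 2 * n
          = 2 * (n * (d + 2) * 2 ^ (d + 1)) + (2 * n * (2 ^ (d + 1) - 1) + 2 * n) := by ring
        _ = n * (d + 1 + 2) * 2 ^ (d + 1 + 1) := by
          rw [h9]
          ring
    calc s.card ^ (2 ^ (d + 1 + 1)) * S.card ^ (supp c).card
        = (s.card ^ 2) ^ (2 ^ (d + 1)) * S.card ^ (supp c).card := by
          rw [← pow_mul]
          congr 2
          ring
      _ ≤ (S.card ^ (n * (d + 2)) *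
          ∑ p ∈ Fintype.piFinset (fun _ : Fin n => S ×ˢ S), M p) ^ (2 ^ (d + 1)) *
            S.card ^ (supp c).card := Nat.mul_le_mul_right _ (Nat.pow_le_pow_left h8 _)
      _ = S.card ^ (n * (d + 2) * 2 ^ (d + 1)) *
          (∑ p ∈ Fintype.piFinset (fun _ : Fin n => S ×ˢ S), M p) ^ (2 ^ (d + 1)) *
            S.card ^ (supp c).card := by rw [mul_pow, ← pow_mul]
      _ ≤ S.card ^ (n * (d + 2) * 2 ^ (d + 1)) *
          ((S.card ^ (2 * n)) ^ (2 ^ (d + 1) - 1) *
            ∑ p ∈ Fintype.piFinset (fun _ : Fin n => S ×ˢ S), M p ^ (2 ^ (d + 1))) *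
            S.card ^ (supp c).card := by gcongr
      _ = S.card ^ (n * (d + 2) * 2 ^ (d + 1)) * (S.card ^ (2 * n)) ^ (2 ^ (d + 1) - 1) *
          ((∑ p ∈ Fintype.piFinset (fun _ : Fin n => S ×ˢ S), M p ^ (2 ^ (d + 1))) *
            S.card ^ (supp c).card) := by ring
      _ ≤ S.card ^ (n * (d + 2) * 2 ^ (d + 1)) * (S.card ^ (2 * n)) ^ (2 ^ (d + 1) - 1) *
          (K * S.card ^ (n * (d + 2) * 2 ^ (d + 1)) * (2 * S.card ^ 2) ^ n) :=
          Nat.mul_le_mul_left _ h5
      _ = (KK h (n + n) n * 2 ^ (n * (d + 1))) * S.card ^ (n * (d + 1 + 2) * 2 ^ (d + 1 + 1)) := by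
          have e1 : (S.card ^ (2 * n)) ^ (2 ^ (d + 1) - 1) =
            S.card ^ (2 * n * (2 ^ (d + 1) - 1)) := (pow_mul _ _ _).symm
          have e2 : (2 * S.card ^ 2) ^ n = 2 ^ n * S.card ^ (2 * n) := by
            rw [mul_pow, ← pow_mul]
          have e3 : 2 ^ (n * (d + 1)) = 2 ^ (n * d) * 2 ^ n := by rw [Nat.mul_succ, pow_add]
          rw [← hexp, e1, e2, e3, hK]
          generalize n * (d + 2) * 2 ^ (d + 1) = a
          generalize 2 * n * (2 ^ (d + 1) - 1) = b
          rw [pow_add S.card, pow_add S.card, pow_add S.card]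
          ring

end Pool.Agent.Helper13K9.BL
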